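import Pool.Agent.H50.KI.AS1

/-!
# Assembly of the estimate
-/

set_option autoImplicit false

open MeasureTheory Filter Topology
open scoped ENNReal

namespace Pool.Agent.H50.KI

/-- number of fresh markers of a block -/
def as_R (l : ℕ) : ℕ := Nat.sqrt (Nat.log 2 l)

/-- length of the first part of a block -/
def as_H (l : ℕ) : ℕ := as_R l * (2 * 2 ^ Nat.log 2 l + 1) + 1

lemma as_R_sq (l : ℕ) (hl : 1 ≤ l) : as_R l ^ 2 ≤ l := by
  have h1 : as_R l ^ 2 ≤ Nat.log 2 l := Nat.sqrt_le' _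
  have h2 : Nat.log 2 l < 2 ^ Nat.log 2 l := Nat.lt_two_pow_self
  have h3 : 2 ^ Nat.log 2 l ≤ l := Nat.pow_log_le_self 2 (by omega)
  omega

lemma as_H_le (l : ℕ) (hl : 1 ≤ l) : (as_H l : ℝ) ≤ 3 * (l : ℝ) * Real.sqrt l + 1 := by
  have h3 : 2 ^ Nat.log 2 l ≤ l := Nat.pow_log_le_self 2 (by omega)
  have h4 : 2 * 2 ^ Nat.log 2 l + 1 ≤ 3 * l := by omega
  have h5 : (as_R l : ℝ) ≤ Real.sqrt l := by
    apply Real.le_sqrt_of_sq_le
    exact_mod_cast as_R_sq l hl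
  have h6 : ((2 * 2 ^ Nat.log 2 l + 1 : ℕ) : ℝ) ≤ 3 * l := by exact_mod_cast h4
  unfold as_H
  push_cast at h6 ⊢
  have h7 : (as_R l : ℝ) * (2 * 2 ^ Nat.log 2 l + 1) ≤ Real.sqrt l * (3 * l) :=
    mul_le_mul h5 h6 (by positivity) (Real.sqrt_nonneg _)
  linarith

lemma tendsto_log2 : Tendsto (fun l : ℕ => Nat.log 2 l) atTop atTop := by
  refine tendsto_atTop.2 fun b => ?_
  filter_upwards [eventually_ge_atTop (2 ^ b)] with l hl
  exact Nat.le_log_of_pow_le (by norm_num) hl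

lemma tendsto_as_R : Tendsto as_R atTop atTop := by
  have h : Tendsto Nat.sqrt atTop atTop := by
    refine tendsto_atTop.2 fun b => ?_
    filter_upwards [eventually_ge_atTop (b * b)] with l hl
    exact Nat.le_sqrt.2 hl
  exact h.comp tendsto_log2

lemma as_H_small : Tendsto (fun l : ℕ => (as_H l : ℝ) / (l : ℝ) ^ 2) atTop (𝓝 0) := by
  have h1 : Tendsto (fun l : ℕ => 3 / Real.sqrt l + 1 / (l : ℝ) ^ 2) atTop (𝓝 0) := by
    have h2 : Tendsto (fun l : ℕ => 3 / Real.sqrt l) atTop (𝓝 0) :=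
      Tendsto.div_atTop tendsto_const_nhds (Real.tendsto_sqrt_atTop.comp tendsto_natCast_atTop_atTop)
    have h3 : Tendsto (fun l : ℕ => 1 / (l : ℝ) ^ 2) atTop (𝓝 0) :=
      Tendsto.div_atTop tendsto_const_nhds
        ((tendsto_pow_atTop (by norm_num)).comp tendsto_natCast_atTop_atTop)
    simpa using h2.add h3
  refine squeeze_zero' (Eventually.of_forall fun l => by positivity) ?_ h1
  filter_upwards [eventually_ge_atTop 1] with l hl
  have hl0 : (0 : ℝ) < l := by exact_mod_cast hl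
  rw [div_le_iff₀ (by positivity)]
  refine (as_H_le l hl).trans (le_of_eq ?_)
  have hs : Real.sqrt l * Real.sqrt l = l := Real.mul_self_sqrt hl0.le
  have hs0 : 0 < Real.sqrt l := Real.sqrt_pos.2 hl0
  field_simp
  nlinarith [hs]

/-- the elementary limit at the end -/
lemma as_limit (r0 : ℕ) (C K : ℝ) (q : ℕ) :
    Tendsto (fun l : ℕ => (r0 : ℝ) * (l : ℝ) ^ 2 * K / (l : ℝ) ^ 4 + (l : ℝ) ^ 2 * (as_H l * K) / (l : ℝ) ^ 4 +
      (l : ℝ) ^ 2 * (q * (2 * K + (l : ℝ) ^ 2 * (2 * C / Real.sqrt (as_R l + 1)) * K)) / (l : ℝ) ^ 4) atTop (𝓝 0) := by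
  have e2 : Tendsto (fun l : ℕ => 1 / (l : ℝ) ^ 2) atTop (𝓝 0) :=
    Tendsto.div_atTop tendsto_const_nhds
      ((tendsto_pow_atTop (by norm_num)).comp tendsto_natCast_atTop_atTop)
  have e3 : Tendsto (fun l : ℕ => 2 * C / Real.sqrt (as_R l + 1)) atTop (𝓝 0) := by
    refine Tendsto.div_atTop tendsto_const_nhds (Real.tendsto_sqrt_atTop.comp ?_)
    exact tendsto_atTop_add_const_right _ _ (tendsto_natCast_atTop_atTop.comp tendsto_as_R)
  have h1 := (e2.const_mul ((r0 : ℝ) * K)).add ((as_H_small.mul_const K).add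
    ((e2.const_mul (q * (2 * K))).add (e3.const_mul (q * K))))
  simp only [mul_zero, zero_mul, add_zero] at h1
  refine h1.congr' ?_
  filter_upwards [eventually_ge_atTop 1] with l hl
  have hl0 : (0 : ℝ) < l := by exact_mod_cast hl
  field_simp
  ring

section Main

variable (k0 a b : ℕ) (mk : ℕ → Bool) (lab : ℕ → ℕ) (F : ℕ → ℂ) (v : (ℕ → Bool) → ℕ → ℂ) (C : ℝ)

/-- the assembly -/
theorem as_main (hSM : StmSM) (hMO : StmMO) (hBA : StmBA) (hSW : StmSW) (hfr : Fr k0 mk lab) (hsp : Sparse mk)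
    (hab : b < a) (hC : 0 ≤ C) (hF : ∀ t, ‖F t‖ ≤ C) (hv : ∀ θ I, ‖v θ I‖ ≤ C)
    (hvm : ∀ I, Measurable fun θ => v θ I) (hloc : Loc mk lab a b v) :
    ∀ᵐ θ ∂PP, Est (al mk lab θ) F (v θ) C := by
  classical
  obtain ⟨t0, ht0⟩ := hsp
  -- the sets of fresh markers
  have hex : ∀ l r : ℕ, ∃ Ts : Finset ℕ, k0 ≤ Nat.log 2 l → Ts.card = as_R l ∧
      (∀ s ∈ Ts, r * l ^ 2 < s ∧ s < r * l ^ 2 + as_H l ∧ mk s = true) ∧
      ∀ s' ∈ Ts, ∀ s, s ≠ s' → s ≤ s' + Lk (Nat.log 2 l) → s' ≤ s + Lk (Nat.log 2 l) → lab s ≠ lab s' := by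
    intro l r
    by_cases hk : k0 ≤ Nat.log 2 l
    · obtain ⟨Ts, h1, h2, h3⟩ := exists_markers hfr (Nat.log 2 l) hk (r * l ^ 2) (as_R l)
      refine ⟨Ts, fun _ => ⟨h1, fun s hs => ?_, h3⟩⟩
      obtain ⟨a1, a2, a3⟩ := h2 s hs
      refine ⟨a1, ?_, a3⟩
      unfold as_H
      omega
    · exact ⟨∅, fun h => absurd h hk⟩
  choose Ts hTs using hex
  set r0 : ℕ := max (2 * a) t0 with hr0
  -- the blocks
  set S : (ℕ → ℂ) → ℕ → ℕ → (ℕ → Bool) → ℂ := fun F l r θ =>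
    ∑ t ∈ Finset.Ico (r * l ^ 2 + as_H l) ((r + 1) * l ^ 2), zz mk lab F v t θ with hS
  have hSm : ∀ F l r, Measurable (S F l r) := fun F l r =>
    Finset.measurable_fun_sum _ fun t _ => measurable_zz hvm F t
  have hSb : ∀ (F : ℕ → ℂ) (K : ℝ), 0 ≤ K → (∀ t, ‖F t‖ ≤ K) → ∀ l r θ, ‖S F l r θ‖ ≤ K * C * (l : ℝ) ^ 2 := by
    intro F K hK hF l r θ
    refine (norm_sum_le_of_le _ fun t _ => zz_bound hC hK hv hF t θ).trans ?_
    rw [Finset.sum_const, Nat.card_Ico, nsmul_eq_mul, mul_comm]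
    gcongr
    have : (r + 1) * l ^ 2 - (r * l ^ 2 + as_H l) ≤ l ^ 2 := by rw [add_mul]; omega
    exact_mod_cast this
  -- range of the labels
  obtain ⟨l0, hl0⟩ : ∃ l0, ∀ l, l0 ≤ l → k0 ≤ Nat.log 2 l ∧ 1 ≤ l ∧ l ^ 4 ≤ Lk (Nat.log 2 l) ∧
      as_H l ≤ l ^ 2 := by
    have h1 := (tendsto_atTop.1 tendsto_log2) (max k0 1)
    have h2 : ∀ᶠ l : ℕ in atTop, (as_H l : ℝ) / (l : ℝ) ^ 2 ≤ 1 :=
      (as_H_small.eventually (eventually_le_nhds one_pos))
    obtain ⟨l0, h⟩ := eventually_atTop.1 (h1.and (h2.and (eventually_ge_atTop 1)))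
    refine ⟨l0, fun l hl => ?_⟩
    obtain ⟨a1, a2, a3⟩ := h l hl
    have hk1 : 1 ≤ Nat.log 2 l := (le_max_right _ _).trans a1
    refine ⟨(le_max_left _ _).trans a1, a3, ?_, ?_⟩
    · set k := Nat.log 2 l with hk
      have h3 : l < 2 ^ (k + 1) := Nat.lt_pow_succ_log_self (by norm_num) l
      unfold Lk
      calc l ^ 4 ≤ (2 ^ (k + 1)) ^ 4 := Nat.pow_le_pow_left h3.le 4
        _ = 4 ^ (2 * (k + 1)) := by
          rw [← pow_mul, show (4 : ℕ) = 2 ^ 2 by norm_num, ← pow_mul]; ring_nf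
        _ ≤ 4 ^ ((k + 1) ^ 2) := by
          apply Nat.pow_le_pow_right (by norm_num)
          rw [sq]
          exact Nat.mul_le_mul_right _ (by omega)
    · have hl0 : (0 : ℝ) < (l : ℝ) ^ 2 := by
        have : (0 : ℝ) < l := by exact_mod_cast a3
        positivity
      rw [div_le_one hl0] at a2
      exact_mod_cast a2
  -- uniqueness of the labels
  have huniq : ∀ l r, l0 ≤ l → r < l ^ 2 → ∀ s < l ^ 4, ∀ s' ∈ Ts l r, lab s = lab s' → s = s' := by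
    intro l r hl hr s hs s' hs' he
    obtain ⟨b1, b2, b3, b4⟩ := hl0 l hl
    obtain ⟨c1, c2, c3⟩ := hTs l r b1
    by_contra hne
    have h1 : s' < l ^ 4 := by
      have h2 := (c2 s' hs').2.1
      have h3 : (r + 1) * l ^ 2 ≤ l ^ 2 * l ^ 2 := Nat.mul_le_mul_right _ hr
      rw [add_mul] at h3
      have h4 : l ^ 2 * l ^ 2 = l ^ 4 := by ring
      omega
    exact c3 s' hs' s hne (by omega) (by omega) he
  have hFlt : ∀ l r, l0 ≤ l → r < l ^ 2 → (r + 1) * l ^ 2 ≤ l ^ 4 := by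
    intro l r _ hr
    have h3 : (r + 1) * l ^ 2 ≤ l ^ 2 * l ^ 2 := Nat.mul_le_mul_right _ hr
    have h4 : l ^ 2 * l ^ 2 = l ^ 4 := by ring
    omega
  -- invariance
  have hinv : ∀ (F : ℕ → ℂ) (l r r' : ℕ), l0 ≤ l → r0 ≤ r → r < r' → r' < l ^ 2 →
      ∀ η ⊆ (Ts l r').image lab, ∀ θ, S F l r (flip η θ) = S F l r θ := by
    intro F l r r' hl _ hrr' hr' η hη θ
    refine Finset.sum_congr rfl fun t ht => ?_
    rw [Finset.mem_Ico] at ht
    refine zz_congr hab.le hloc F fun i hi _ => ?_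
    unfold flip
    rw [if_neg]
    intro hmem
    obtain ⟨s', hs', he⟩ := Finset.mem_image.1 (hη hmem)
    have h1 : (r + 1) * l ^ 2 ≤ r' * l ^ 2 := Nat.mul_le_mul_right _ hrr'
    have h2 := ((hTs l r' (hl0 l hl).1).2.1 s' hs').1
    have h3 := hFlt l r hl (by omega)
    have := huniq l r' hl hr' i (by omega) s' hs' he.symm
    omega
  -- the fluctuations
  have hfluc : ∀ (F : ℕ → ℂ) (K : ℝ), 0 ≤ K → (∀ t, ‖F t‖ ≤ K) → ∀ᵐ θ ∂PP, Tendsto (fun l : ℕ =>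
      ‖∑ r ∈ Finset.Ico r0 (l ^ 2), (S F l r θ - avgf ((Ts l r).image lab) (S F l r) θ)‖ / (l : ℝ) ^ 4)
      atTop (𝓝 0) := fun F K hK hF =>
    hMO (K * C) r0 l0 (S F) (fun l r => (Ts l r).image lab) (hSm F) (hSb F K hK hF) (hinv F)
  have hF1 := hfluc F C hC hF
  have hF2 := hfluc (fun _ => 1) 1 zero_le_one (fun t => by simp)
  filter_upwards [hF1, hF2] with θ h1 h2
  intro c q ε hq hε
  set K : ℝ := (C + ‖c‖) * C with hK
  set K' : ℝ := C + ‖c‖ with hK'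
  have hK'0 : 0 ≤ K' := by positivity
  have hK0 : 0 ≤ K := by positivity
  set w : ℕ → ℂ := fun t => vv (al mk lab θ) F c t * v θ (idx (al mk lab θ) t) with hw
  have hvv : ∀ t, ‖vv (al mk lab θ) F c t‖ ≤ K' := by
    intro t
    unfold vv
    split_ifs
    · exact (norm_sub_le _ _).trans (add_le_add (hF t) le_rfl)
    · rw [norm_zero]; exact hK'0
  have hwb : ∀ t, ‖w t‖ ≤ K := by
    intro t
    simp only [hw]
    rw [norm_mul]
    exact mul_le_mul (hvv t) (hv _ _) (norm_nonneg _) hK'0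
  have hlim := as_limit r0 C (K + K') q
  have hX := (h1.add (h2.const_mul ‖c‖)).add hlim
  simp only [mul_zero, add_zero] at hX
  filter_upwards [hX.eventually (eventually_le_nhds hε), eventually_ge_atTop l0, eventually_ge_atTop 1,
    eventually_ge_atTop r0] with l hl1 hll0 hl1' hlr0
  obtain ⟨b1, _, b3, b4⟩ := hl0 l hll0
  have hlp : (0 : ℝ) < (l : ℝ) ^ 4 := by
    have : (0 : ℝ) < l := by exact_mod_cast hl1'
    positivity
  have hLL : l ^ 4 = l ^ 2 * l ^ 2 := by ring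
  have hr0L : r0 ≤ l ^ 2 := by
    have : l ≤ l ^ 2 := by nlinarith
    omega
  -- the blocks
  have hblock : ∀ r ∈ Finset.Ico r0 (l ^ 2), ∃ B : ℂ, ∃ D : ℂ,
      ∑ t ∈ Finset.Ico (r * l ^ 2) ((r + 1) * l ^ 2), w t = B + D +
        ((S F l r θ - avgf ((Ts l r).image lab) (S F l r) θ) -
          c * (S (fun _ => 1) l r θ - avgf ((Ts l r).image lab) (S (fun _ => 1) l r) θ)) ∧
      ‖B‖ ≤ as_H l * K ∧
      ‖D‖ ≤ C * ∑ t ∈ Finset.Ico (r * l ^ 2) ((r + 1) * l ^ 2),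
          ‖(1 / (q : ℂ)) * ∑ i ∈ Finset.range q, vv (al mk lab θ) F c (t + i)‖ +
        q * (2 * K + ((l ^ 2 : ℕ) : ℝ) * (2 * C / Real.sqrt (as_R l + 1)) * K') := by
    intro r hr
    rw [Finset.mem_Ico] at hr
    obtain ⟨c1, c2, c3⟩ := hTs l r b1
    have he : r * l ^ 2 + as_H l ≤ (r + 1) * l ^ 2 := by rw [add_mul]; omega
    have hle : r * l ^ 2 ≤ r * l ^ 2 + as_H l := Nat.le_add_right _ _
    set θ0 := clr ((Ts l r).image lab) θ with hθ0
    set m : ℕ → ℂ := fun t => Mm (as_R l) (v θ0) (idx (al mk lab θ0) t) with hm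
    have hcard : ((Ts l r).image lab).card = as_R l := by
      rw [Finset.card_image_of_injOn, c1]
      intro s hs s' hs' hss
      have hs1 := (c2 s hs).2.1
      have h3 := hFlt l r hll0 hr.2
      exact huniq l r hll0 hr.2 s (by omega) s' hs' hss
    -- the conditional means
    have hmar : ∀ t, t < (r + 1) * l ^ 2 → r * l ^ 2 ≤ t → ∀ θ', b * idx (al mk lab θ') t ≤ a * idx (al mk lab θ') (r * l ^ 2) := by
      intro t ht ht' θ'
      have e1 := idx_add_le (al mk lab θ') (r * l ^ 2) (t - r * l ^ 2)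
      rw [Nat.add_sub_cancel' ht'] at e1
      have e2 : t - r * l ^ 2 ≤ l ^ 2 := by rw [add_mul] at ht; omega
      have hr1 : 2 * a ≤ r := (le_max_left _ _).trans hr.1
      have hr2 : t0 ≤ r := (le_max_right _ _).trans hr.1
      have hL1 : 1 ≤ l ^ 2 := Nat.one_le_pow _ _ hl1'
      have e3 : t0 ≤ r * l ^ 2 := hr2.trans (Nat.le_mul_of_pos_right _ hL1)
      have e4 := al_idx_lower (ht0 _ e3) θ' (lab := lab)
      have e5 : 2 * a * l ^ 2 ≤ r * l ^ 2 := Nat.mul_le_mul_right _ hr1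
      have e6 : a * l ^ 2 ≤ idx (al mk lab θ') (r * l ^ 2) := by nlinarith
      obtain ⟨a', rfl⟩ : ∃ a', a = b + 1 + a' := ⟨a - (b + 1), by omega⟩
      have e7 : idx (al mk lab θ') t ≤ idx (al mk lab θ') (r * l ^ 2) + l ^ 2 := by omega
      have e8 : b * idx (al mk lab θ') t ≤ b * (idx (al mk lab θ') (r * l ^ 2) + l ^ 2) := Nat.mul_le_mul_left _ e7
      nlinarith
    have hmean : ∀ (F : ℕ → ℂ), avgf ((Ts l r).image lab) (S F l r) θ =
        ∑ t ∈ Finset.Ico (r * l ^ 2 + as_H l) ((r + 1) * l ^ 2), if al mk lab θ t = true then F t * m t else 0 := by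
      intro F
      have e1 : avgf ((Ts l r).image lab) (S F l r) θ =
          ∑ t ∈ Finset.Ico (r * l ^ 2 + as_H l) ((r + 1) * l ^ 2), avgf ((Ts l r).image lab) (zz mk lab F v t) θ := by
        simp only [hS, avgf]
        rw [← Finset.mul_sum, Finset.sum_comm]
      rw [e1]
      refine Finset.sum_congr rfl fun t ht => ?_
      rw [Finset.mem_Ico] at ht
      have h3 := hFlt l r hll0 hr.2
      rw [hBA mk lab a b v F hloc (r * l ^ 2) (r * l ^ 2 + as_H l) t (l ^ 4) (Ts l r) c2 ht.1 (by omega)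
        (huniq l r hll0 hr.2) (hmar t ht.2 (by omega)) θ, c1]
    refine ⟨∑ t ∈ Finset.Ico (r * l ^ 2) (r * l ^ 2 + as_H l), w t,
      ∑ t ∈ Finset.Ico (r * l ^ 2 + as_H l) ((r + 1) * l ^ 2), vv (al mk lab θ) F c t * m t, ?_, ?_, ?_⟩
    · rw [hmean F, hmean fun _ => 1, ← Finset.sum_Ico_consecutive w hle he, add_assoc]
      congr 1
      simp only [hS]
      rw [← sub_eq_zero]
      have e2 : ∀ t, w t = zz mk lab F v t θ - c * zz mk lab (fun _ => 1) v t θ := by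
        intro t
        simp only [hw, vv, zz]
        split_ifs <;> ring
      have e3 : ∀ t, vv (al mk lab θ) F c t * m t = (if al mk lab θ t = true then F t * m t else 0) -
          c * (if al mk lab θ t = true then 1 * m t else 0) := by
        intro t
        simp only [vv]
        split_ifs <;> ring
      rw [Finset.sum_congr rfl fun t _ => e2 t, Finset.sum_congr rfl fun t _ => e3 t,
        Finset.sum_sub_distrib, Finset.sum_sub_distrib, ← Finset.mul_sum, ← Finset.mul_sum]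
      ring
    · refine (norm_sum_le_of_le _ fun t _ => hwb t).trans ?_
      rw [Finset.sum_const, Nat.card_Ico, nsmul_eq_mul]
      refine mul_le_mul_of_nonneg_right ?_ hK0
      have e9 : r * l ^ 2 + as_H l - r * l ^ 2 = as_H l := by omega
      rw [e9]
    · have hR : ∀ t, r * l ^ 2 + as_H l ≤ t → as_R l ≤ idx (al mk lab θ0) t := by
        intro t ht
        rw [← c1]
        unfold idx
        refine Finset.card_le_card fun s hs => ?_
        rw [Finset.mem_filter, Finset.mem_Icc]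
        obtain ⟨d1, d2, d3⟩ := c2 s hs
        refine ⟨⟨by omega, by omega⟩, ?_⟩
        unfold al
        rw [hθ0]
        unfold clr
        rw [if_pos (Finset.mem_image_of_mem _ hs)]
        simp
      have hβ0 : 0 ≤ 2 * C / Real.sqrt (as_R l + 1) := by positivity
      have hm1 : ∀ t, ‖m t‖ ≤ C := fun t => (hSM C (v θ0) (hv θ0) (as_R l) _).1
      have hm2 : ∀ t, r * l ^ 2 + as_H l ≤ t → t + 1 < (r + 1) * l ^ 2 →
          ‖m (t + 1) - m t‖ ≤ 2 * C / Real.sqrt (as_R l + 1) := by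
        intro t ht _
        simp only [hm]
        rw [idx_succ]
        split_ifs
        · exact (hSM C (v θ0) (hv θ0) (as_R l) _).2 (hR t ht)
        · rw [add_zero, sub_self, norm_zero]; exact hβ0
      have hsw := hSW C K' (2 * C / Real.sqrt (as_R l + 1)) (vv (al mk lab θ) F c) m (r * l ^ 2 + as_H l)
        ((r + 1) * l ^ 2) q hq he hC hβ0 hvv (fun t _ _ => hm1 t) hm2
      refine hsw.trans ?_
      have g1 : ∑ t ∈ Finset.Ico (r * l ^ 2 + as_H l) ((r + 1) * l ^ 2),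
          ‖(1 / (q : ℂ)) * ∑ i ∈ Finset.range q, vv (al mk lab θ) F c (t + i)‖ ≤
          ∑ t ∈ Finset.Ico (r * l ^ 2) ((r + 1) * l ^ 2),
          ‖(1 / (q : ℂ)) * ∑ i ∈ Finset.range q, vv (al mk lab θ) F c (t + i)‖ :=
        Finset.sum_le_sum_of_subset_of_nonneg (Finset.Ico_subset_Ico hle le_rfl) fun _ _ _ => norm_nonneg _
      have g2 : (((r + 1) * l ^ 2 : ℕ) : ℝ) - ((r * l ^ 2 + as_H l : ℕ) : ℝ) ≤ ((l ^ 2 : ℕ) : ℝ) := by
        push_cast
        have : (0 : ℝ) ≤ as_H l := Nat.cast_nonneg _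
        linarith
      have g3 : 2 * K' * C = 2 * K := by rw [hK, hK']; ring
      rw [g3]
      have hq0 : (0 : ℝ) ≤ q := Nat.cast_nonneg _
      gcongr
  choose! B D hBD1 hBD2 hBD3 using hblock
  -- the sum of the blocks
  have hsum : ∑ t ∈ Finset.range (l ^ 4), w t =
      ∑ t ∈ Finset.range (r0 * l ^ 2), w t + (∑ r ∈ Finset.Ico r0 (l ^ 2), B r + ∑ r ∈ Finset.Ico r0 (l ^ 2), D r +
        (∑ r ∈ Finset.Ico r0 (l ^ 2), (S F l r θ - avgf ((Ts l r).image lab) (S F l r) θ) -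
          c * ∑ r ∈ Finset.Ico r0 (l ^ 2), (S (fun _ => 1) l r θ - avgf ((Ts l r).image lab) (S (fun _ => 1) l r) θ))) := by
    rw [hLL, sum_blocks w (l ^ 2) (l ^ 2), ← Finset.sum_range_add_sum_Ico _ hr0L, ← sum_blocks w (l ^ 2) r0,
      Finset.sum_congr rfl hBD1, Finset.sum_add_distrib, Finset.sum_add_distrib, Finset.sum_sub_distrib,
      ← Finset.mul_sum]
  have n1 : ‖∑ t ∈ Finset.range (r0 * l ^ 2), w t‖ ≤ r0 * ((l ^ 2 : ℕ) : ℝ) * K := by
    refine (norm_sum_le_of_le _ fun t _ => hwb t).trans (le_of_eq ?_)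
    rw [Finset.sum_const, Finset.card_range, nsmul_eq_mul]; push_cast; ring
  have n2 : ‖∑ r ∈ Finset.Ico r0 (l ^ 2), B r‖ ≤ ((l ^ 2 : ℕ) : ℝ) * (as_H l * K) := by
    refine (norm_sum_le_of_le _ hBD2).trans ?_
    rw [Finset.sum_const, Nat.card_Ico, nsmul_eq_mul]
    gcongr
    omega
  have n3 : ‖∑ r ∈ Finset.Ico r0 (l ^ 2), D r‖ ≤ C * ∑ t ∈ Finset.range (l ^ 4),
      ‖(1 / (q : ℂ)) * ∑ i ∈ Finset.range q, vv (al mk lab θ) F c (t + i)‖ +
      ((l ^ 2 : ℕ) : ℝ) * (q * (2 * K + ((l ^ 2 : ℕ) : ℝ) * (2 * C / Real.sqrt (as_R l + 1)) * K')) := by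
    refine (norm_sum_le_of_le _ hBD3).trans ?_
    rw [Finset.sum_add_distrib, ← Finset.mul_sum, hLL, sum_blocks_real _ (l ^ 2) (l ^ 2)]
    refine add_le_add ?_ ?_
    · refine mul_le_mul_of_nonneg_left ?_ hC
      rw [← Finset.sum_range_add_sum_Ico _ hr0L]
      exact le_add_of_nonneg_left (Finset.sum_nonneg fun _ _ => Finset.sum_nonneg fun _ _ => norm_nonneg _)
    · rw [Finset.sum_const, Nat.card_Ico, nsmul_eq_mul]
      have : 0 ≤ q * (2 * K + ((l ^ 2 : ℕ) : ℝ) * (2 * C / Real.sqrt (as_R l + 1)) * K') := by positivity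
      gcongr
      omega
  have hLr : ((l ^ 2 : ℕ) : ℝ) = (l : ℝ) ^ 2 := by push_cast; rfl
  rw [hLr] at n1 n2 n3
  have hKK : K ≤ K + K' := by linarith
  have hKK' : K' ≤ K + K' := by linarith
  -- conclusion
  have hfin := mul_le_mul_of_nonneg_right hl1 hlp.le
  have hdiv : ∀ x : ℝ, x / (l : ℝ) ^ 4 * (l : ℝ) ^ 4 = x := fun x => div_mul_cancel₀ x hlp.ne'
  rw [add_mul, add_mul, add_mul, add_mul, hdiv, mul_assoc, hdiv, hdiv, hdiv, hdiv] at hfin
  change ‖∑ t ∈ Finset.range (l ^ 4), w t‖ ≤ _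
  rw [hsum]
  have m1 : r0 * (l : ℝ) ^ 2 * K ≤ r0 * (l : ℝ) ^ 2 * (K + K') := by gcongr
  have m2 : (l : ℝ) ^ 2 * (as_H l * K) ≤ (l : ℝ) ^ 2 * (as_H l * (K + K')) := by gcongr
  have m3 : (l : ℝ) ^ 2 * (q * (2 * K + (l : ℝ) ^ 2 * (2 * C / Real.sqrt (as_R l + 1)) * K')) ≤
      (l : ℝ) ^ 2 * (q * (2 * (K + K') + (l : ℝ) ^ 2 * (2 * C / Real.sqrt (as_R l + 1)) * (K + K'))) := by
    gcongr
  have t1 := norm_add_le (∑ t ∈ Finset.range (r0 * l ^ 2), w t) (∑ r ∈ Finset.Ico r0 (l ^ 2), B r + ∑ r ∈ Finset.Ico r0 (l ^ 2), D r +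
        (∑ r ∈ Finset.Ico r0 (l ^ 2), (S F l r θ - avgf ((Ts l r).image lab) (S F l r) θ) -
          c * ∑ r ∈ Finset.Ico r0 (l ^ 2), (S (fun _ => 1) l r θ - avgf ((Ts l r).image lab) (S (fun _ => 1) l r) θ)))
  have t2 := norm_add_le (∑ r ∈ Finset.Ico r0 (l ^ 2), B r + ∑ r ∈ Finset.Ico r0 (l ^ 2), D r)
        (∑ r ∈ Finset.Ico r0 (l ^ 2), (S F l r θ - avgf ((Ts l r).image lab) (S F l r) θ) -
          c * ∑ r ∈ Finset.Ico r0 (l ^ 2), (S (fun _ => 1) l r θ - avgf ((Ts l r).image lab) (S (fun _ => 1) l r) θ))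
  have t3 := norm_add_le (∑ r ∈ Finset.Ico r0 (l ^ 2), B r) (∑ r ∈ Finset.Ico r0 (l ^ 2), D r)
  have t4 := norm_sub_le (∑ r ∈ Finset.Ico r0 (l ^ 2), (S F l r θ - avgf ((Ts l r).image lab) (S F l r) θ))
          (c * ∑ r ∈ Finset.Ico r0 (l ^ 2), (S (fun _ => 1) l r θ - avgf ((Ts l r).image lab) (S (fun _ => 1) l r) θ))
  rw [norm_mul] at t4
  linarith

end Main

theorem partAS (hSM : StmSM) (hMO : StmMO) (hBA : StmBA) (hSW : StmSW) : StmAS := by
  intro k0 a b mk lab F v C hfr hsp hab hC hF hv hvm hloc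
  exact as_main k0 a b mk lab F v C hSM hMO hBA hSW hfr hsp hab hC hF hv hvm hloc

end Pool.Agent.H50.KI
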