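import Pool.Agent.H50.KI.Defs

/-!
# Assembly of the estimate: preparations
-/

set_option autoImplicit false

open MeasureTheory Filter Topology
open scoped ENNReal

namespace Pool.Agent.H50.KI

lemma idx_zero (s : ℕ → Bool) : idx s 0 = 0 := by simp [idx]

lemma idx_succ (s : ℕ → Bool) (t : ℕ) : idx s (t + 1) = idx s t + if s (t + 1) = true then 1 else 0 := by
  unfold idx
  have h0 : Finset.Icc 1 (t + 1) = insert (t + 1) (Finset.Icc 1 t) := by
    ext i
    simp only [Finset.mem_insert, Finset.mem_Icc]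
    omega
  rw [h0, Finset.filter_insert]
  split_ifs with h
  · rw [Finset.card_insert_of_notMem]
    simp
  · rfl

lemma idx_mono (s : ℕ → Bool) : Monotone (idx s) := by
  refine monotone_nat_of_le_succ fun t => ?_
  rw [idx_succ]; split_ifs <;> omega

lemma idx_add_le (s : ℕ → Bool) (t d : ℕ) : idx s (t + d) ≤ idx s t + d := by
  induction d with
  | zero => simp
  | succ d ih =>
    rw [← add_assoc, idx_succ]
    split_ifs <;> omega

lemma idx_le (s : ℕ → Bool) (t : ℕ) : idx s t ≤ t := by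
  have := idx_add_le s 0 t
  rw [idx_zero] at this
  simpa using this

lemma idx_congr {s s' : ℕ → Bool} {t : ℕ} (h : ∀ i, 1 ≤ i → i ≤ t → s i = s' i) : idx s t = idx s' t := by
  unfold idx
  congr 1
  refine Finset.filter_congr fun i hi => ?_
  rw [Finset.mem_Icc] at hi
  rw [h i hi.1 hi.2]

lemma al_idx_lower {mk : ℕ → Bool} {lab : ℕ → ℕ} {t : ℕ}
    (h : 2 * ((Finset.Icc 1 t).filter fun i => mk i = true).card ≤ t) (θ : ℕ → Bool) :
    t ≤ 2 * idx (al mk lab θ) t := by
  have h1 : t ≤ idx (al mk lab θ) t + ((Finset.Icc 1 t).filter fun i => mk i = true).card := by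
    unfold idx
    have h2 : Finset.Icc 1 t ⊆ ((Finset.Icc 1 t).filter fun i => al mk lab θ i = true) ∪
        ((Finset.Icc 1 t).filter fun i => mk i = true) := by
      intro i hi
      rw [Finset.mem_union, Finset.mem_filter, Finset.mem_filter]
      by_cases hm : mk i = true
      · exact Or.inr ⟨hi, hm⟩
      · refine Or.inl ⟨hi, ?_⟩
        unfold al
        simp [hm]
    have h3 := (Finset.card_le_card h2).trans (Finset.card_union_le _ _)
    simpa using h3
  omega

lemma al_congr {mk : ℕ → Bool} {lab : ℕ → ℕ} {θ θ' : ℕ → Bool} {i : ℕ} (h : mk i = true → θ (lab i) = θ' (lab i)) :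
    al mk lab θ i = al mk lab θ' i := by
  unfold al
  cases hm : mk i
  · simp
  · rw [h hm]

lemma zz_congr {mk : ℕ → Bool} {lab : ℕ → ℕ} {a b : ℕ} {v : (ℕ → Bool) → ℕ → ℂ} (hab : b ≤ a)
    (hv : Loc mk lab a b v) (F : ℕ → ℂ) {θ θ' : ℕ → Bool} {t : ℕ}
    (h : ∀ i ≤ t, mk i = true → θ (lab i) = θ' (lab i)) : zz mk lab F v t θ = zz mk lab F v t θ' := by
  have h1 : al mk lab θ t = al mk lab θ' t := al_congr (h t le_rfl)
  have h2 : idx (al mk lab θ) t = idx (al mk lab θ') t := idx_congr fun i _ hi => al_congr (h i hi)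
  unfold zz
  rw [h1, ← h2]
  split_ifs
  · rw [hv θ θ' _ t h (Nat.mul_le_mul_right _ hab)]
  · rfl

lemma measurable_al (mk : ℕ → Bool) (lab : ℕ → ℕ) (t : ℕ) : Measurable fun θ : ℕ → Bool => al mk lab θ t := by
  unfold al
  exact (measurable_of_countable fun b : Bool => !(mk t && b)).comp (measurable_pi_apply (lab t))

lemma measurable_idx {Ω : Type*} [MeasurableSpace Ω] (s : Ω → ℕ → Bool) (hs : ∀ t, Measurable fun w => s w t) (t : ℕ) :
    Measurable fun w => idx (s w) t := by
  induction t with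
  | zero => simp only [idx_zero]; exact measurable_const
  | succ t ih =>
    simp only [idx_succ]
    refine ih.add (Measurable.ite ?_ measurable_const measurable_const)
    exact hs (t + 1) (measurableSet_singleton true)

lemma measurable_zz {mk : ℕ → Bool} {lab : ℕ → ℕ} {v : (ℕ → Bool) → ℕ → ℂ} (hv : ∀ I, Measurable fun θ => v θ I)
    (F : ℕ → ℂ) (t : ℕ) : Measurable fun θ => zz mk lab F v t θ := by
  unfold zz
  refine Measurable.ite (measurable_al mk lab t (measurableSet_singleton true)) ?_ measurable_const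
  refine measurable_const.mul ?_
  have h1 : Measurable fun p : (ℕ → Bool) × ℕ => v p.1 p.2 := measurable_from_prod_countable_left fun I => hv I
  exact h1.comp (measurable_id.prodMk (measurable_idx _ (measurable_al mk lab) t))

lemma zz_bound {mk : ℕ → Bool} {lab : ℕ → ℕ} {v : (ℕ → Bool) → ℕ → ℂ} {F : ℕ → ℂ} {C K : ℝ} (hC : 0 ≤ C)
    (hK : 0 ≤ K) (hv : ∀ θ I, ‖v θ I‖ ≤ C) (hF : ∀ t, ‖F t‖ ≤ K) (t : ℕ) (θ : ℕ → Bool) :
    ‖zz mk lab F v t θ‖ ≤ K * C := by
  unfold zz
  split_ifs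
  · rw [norm_mul]; exact mul_le_mul (hF t) (hv _ _) (norm_nonneg _) hK
  · rw [norm_zero]; positivity

/-- `R` fresh markers after the time `p` -/
lemma exists_markers {k0 : ℕ} {mk : ℕ → Bool} {lab : ℕ → ℕ} (hfr : Fr k0 mk lab) (k : ℕ) (hk : k0 ≤ k) (p R : ℕ) :
    ∃ Ts : Finset ℕ, Ts.card = R ∧ (∀ s ∈ Ts, p < s ∧ s < p + 1 + R * (2 * 2 ^ k + 1) ∧ mk s = true) ∧
      ∀ s' ∈ Ts, ∀ s, s ≠ s' → s ≤ s' + Lk k → s' ≤ s + Lk k → lab s ≠ lab s' := by
  induction R with
  | zero => exact ⟨∅, rfl, by simp, by simp⟩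
  | succ R ih =>
    obtain ⟨Ts, h1, h2, h3⟩ := ih
    obtain ⟨t, ht1, ht2, ht3, ht4⟩ := hfr k (p + 1 + R * (2 * 2 ^ k + 1)) hk
    have hnot : t ∉ Ts := fun h => by
      have := (h2 t h).2.1
      omega
    refine ⟨insert t Ts, by rw [Finset.card_insert_of_notMem hnot, h1], ?_, ?_⟩
    · intro s hs
      rw [Finset.mem_insert] at hs
      rcases hs with rfl | hs
      · refine ⟨by omega, ?_, ht3⟩
        rw [add_mul]; omega
      · obtain ⟨a1, a2, a3⟩ := h2 s hs
        refine ⟨a1, ?_, a3⟩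
        rw [add_mul]; omega
    · intro s' hs' s
      rw [Finset.mem_insert] at hs'
      rcases hs' with rfl | hs'
      · exact ht4 s
      · exact h3 s' hs' s

lemma sum_blocks (w : ℕ → ℂ) (L n : ℕ) :
    ∑ t ∈ Finset.range (n * L), w t = ∑ r ∈ Finset.range n, ∑ t ∈ Finset.Ico (r * L) ((r + 1) * L), w t := by
  induction n with
  | zero => simp
  | succ n ih =>
    rw [Finset.sum_range_succ, ← ih, Finset.range_eq_Ico, Finset.range_eq_Ico,
      Finset.sum_Ico_consecutive _ (Nat.zero_le _) (Nat.mul_le_mul_right _ (Nat.le_succ n))]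

lemma sum_blocks_real (w : ℕ → ℝ) (L n : ℕ) :
    ∑ t ∈ Finset.range (n * L), w t = ∑ r ∈ Finset.range n, ∑ t ∈ Finset.Ico (r * L) ((r + 1) * L), w t := by
  induction n with
  | zero => simp
  | succ n ih =>
    rw [Finset.sum_range_succ, ← ih, Finset.range_eq_Ico, Finset.range_eq_Ico,
      Finset.sum_Ico_consecutive _ (Nat.zero_le _) (Nat.mul_le_mul_right _ (Nat.le_succ n))]

end Pool.Agent.H50.KI
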