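import Pool.Agent.H50.KI.Defs

/-!
# KI crew, part BA: the mean over the fresh coins is a binomial mean
-/

set_option autoImplicit false

namespace Pool.Agent.H50.KI

open Finset

/-- the fresh coins which are `true` after the flips `η` -/
private def ba_up (G : Finset ℕ) (θ : ℕ → Bool) (η : Finset ℕ) : Finset ℕ :=
  G.filter fun l => flip η θ l = true

private theorem ba_up_up (G : Finset ℕ) (θ : ℕ → Bool) (η : Finset ℕ) (h : η ⊆ G) :
    ba_up G θ (ba_up G θ η) = η := by
  ext l
  unfold ba_up flip
  simp only [Finset.mem_filter]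
  by_cases hl : l ∈ G
  · by_cases hη : l ∈ η <;> cases hθ : θ l <;> simp [hl, hη]
  · have : l ∉ η := fun h' => hl (h h')
    simp [hl, this]

private theorem ba_sum (G : Finset ℕ) (θ : ℕ → Bool) (f : ℕ → ℂ) :
    ∑ η ∈ G.powerset, f (ba_up G θ η).card = ∑ s ∈ Finset.range (G.card + 1), (G.card.choose s : ℂ) * f s := by
  have h1 : ∑ η ∈ G.powerset, f (ba_up G θ η).card = ∑ ζ ∈ G.powerset, f ζ.card := by
    refine Finset.sum_nbij' (fun η => ba_up G θ η) (fun η => ba_up G θ η) ?_ ?_ ?_ ?_ ?_
    · intro η _
      exact Finset.mem_powerset.2 (Finset.filter_subset _ _)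
    · intro η _
      exact Finset.mem_powerset.2 (Finset.filter_subset _ _)
    · intro η h
      exact ba_up_up G θ η (Finset.mem_powerset.1 h)
    · intro η h
      exact ba_up_up G θ η (Finset.mem_powerset.1 h)
    · intro η _
      rfl
  rw [h1, Finset.sum_powerset_apply_card]
  simp only [nsmul_eq_mul]

private theorem ba_idx (mk : ℕ → Bool) (lab : ℕ → ℕ) (p b1 t N : ℕ) (Ts : Finset ℕ)
    (hTs : ∀ s ∈ Ts, p < s ∧ s < b1 ∧ mk s = true) (hb : b1 ≤ t) (ht : t < N)
    (hlab : ∀ s < N, ∀ s' ∈ Ts, lab s = lab s' → s = s') (θ : ℕ → Bool) (η : Finset ℕ)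
    (hη : η ⊆ Ts.image lab) :
    idx (al mk lab (clr (Ts.image lab) θ)) t =
      idx (al mk lab (flip η θ)) t + (ba_up (Ts.image lab) θ η).card := by
  have hc : (ba_up (Ts.image lab) θ η).card = (Ts.filter fun i => flip η θ (lab i) = true).card := by
    unfold ba_up
    rw [Finset.filter_image, Finset.card_image_of_injOn]
    intro s hs s' hs' h
    have h1 := (Finset.mem_filter.1 hs).1
    have h2 := (Finset.mem_filter.1 hs').1
    exact hlab s (lt_of_lt_of_le (hTs s h1).2.1 (hb.trans ht.le)) s' h2 h
  rw [hc]
  unfold idx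
  rw [← Finset.card_union_of_disjoint]
  · congr 1
    ext i
    simp only [Finset.mem_filter, Finset.mem_union, Finset.mem_Icc]
    constructor
    · rintro ⟨hi, h⟩
      by_cases hiT : i ∈ Ts
      · by_cases hθ : flip η θ (lab i) = true
        · exact Or.inr ⟨hiT, hθ⟩
        · refine Or.inl ⟨hi, ?_⟩
          unfold al
          simp only [Bool.not_eq_true] at hθ
          simp [hθ]
      · refine Or.inl ⟨hi, ?_⟩
        have hl : lab i ∉ Ts.image lab := by
          intro hl
          obtain ⟨s', hs', e⟩ := Finset.mem_image.1 hl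
          exact hiT ((hlab i (lt_of_le_of_lt hi.2 ht) s' hs' e.symm) ▸ hs')
        have hl' : lab i ∉ η := fun h => hl (hη h)
        unfold al clr at h
        unfold al flip
        simpa [hl, hl'] using h
    · rintro (⟨hi, h⟩ | ⟨hiT, h⟩)
      · refine ⟨hi, ?_⟩
        unfold al clr
        unfold al flip at h
        by_cases hl : lab i ∈ Ts.image lab
        · simp [hl]
        · have hl' : lab i ∉ η := fun h => hl (hη h)
          simpa [hl, hl'] using h
      · have h1 := hTs i hiT
        refine ⟨⟨by omega, by omega⟩, ?_⟩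
        unfold al clr
        have hl : lab i ∈ Ts.image lab := Finset.mem_image_of_mem _ hiT
        simp [hl]
  · rw [Finset.disjoint_left]
    intro i h1 h2
    have h3 := (Finset.mem_filter.1 h1).2
    have h4 := Finset.mem_filter.1 h2
    have h5 := (hTs i h4.1).2.2
    unfold al at h3
    simp [h5, h4.2] at h3

theorem partBA : StmBA := by
  intro mk lab a b v F hLoc p b1 t N Ts hTs hb ht hlab hidx θ
  have hcard : (Ts.image lab).card = Ts.card := by
    apply Finset.card_image_of_injOn
    intro s hs s' hs' h
    exact hlab s (lt_of_lt_of_le (hTs s hs).2.1 (hb.trans ht.le)) s' hs' h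
  have htT : t ∉ Ts := fun h => by
    have := (hTs t h).2.1
    omega
  have htl : lab t ∉ Ts.image lab := by
    intro hl
    obtain ⟨s', hs', e⟩ := Finset.mem_image.1 hl
    exact htT ((hlab t ht s' hs' e.symm) ▸ hs')
  have hz : ∀ η ∈ (Ts.image lab).powerset, zz mk lab F v t (flip η θ) =
      if al mk lab θ t = true then F t * v (clr (Ts.image lab) θ)
        (idx (al mk lab (clr (Ts.image lab) θ)) t - (ba_up (Ts.image lab) θ η).card) else 0 := by
    intro η hη
    have hη' := Finset.mem_powerset.1 hη
    have htl' : lab t ∉ η := fun h => htl (hη' h)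
    have hal : al mk lab (flip η θ) t = al mk lab θ t := by
      unfold al flip
      simp [htl']
    unfold zz
    rw [hal]
    by_cases h : al mk lab θ t = true
    · rw [if_pos h, if_pos h]
      congr 1
      have hi := ba_idx mk lab p b1 t N Ts hTs hb ht hlab θ η hη'
      rw [hi, Nat.add_sub_cancel]
      apply hLoc _ _ _ p
      · intro i hi _
        have hl : lab i ∉ Ts.image lab := by
          intro hl
          obtain ⟨s', hs', e⟩ := Finset.mem_image.1 hl
          have h1 := hTs s' hs'
          have h2 := hlab i (by omega) s' hs' e.symm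
          omega
        have hl' : lab i ∉ η := fun h => hl (hη' h)
        unfold flip clr
        rw [if_neg hl', if_neg hl]
      · exact hidx (flip η θ)
    · rw [if_neg h, if_neg h]
  unfold avgf
  rw [Finset.sum_congr rfl hz]
  by_cases h : al mk lab θ t = true
  · simp only [if_pos h]
    rw [← Finset.mul_sum]
    unfold Mm
    rw [ba_sum (Ts.image lab) θ (fun s => v (clr (Ts.image lab) θ)
        (idx (al mk lab (clr (Ts.image lab) θ)) t - s)), hcard]
    ring
  · simp only [if_neg h]
    simp

end Pool.Agent.H50.KI
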