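import Pool.Agent.H50.KI.Defs
import Pool.Graph.R_seed8.R205.PC.Clos

/-!
# Part CL: closure under approximation in `L¹`
-/

set_option autoImplicit false

open MeasureTheory Filter Topology
open scoped ENNReal

namespace Pool.Agent.H50.KI

universe u

theorem cl_idx_zero (s : ℕ → Bool) : idx s 0 = 0 := by simp [idx]

theorem cl_idx_succ (s : ℕ → Bool) (t : ℕ) :
    idx s (t + 1) = idx s t + (if s (t + 1) = true then 1 else 0) := by
  unfold idx
  rw [← Finset.insert_Icc_right_eq_Icc_add_one (by omega : 1 ≤ t + 1), Finset.filter_insert]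
  split_ifs with h
  · rw [Finset.card_insert_of_notMem]
    simp
  · simp

theorem cl_idx_mono (s : ℕ → Bool) : Monotone (idx s) := by
  refine monotone_nat_of_le_succ fun t => ?_
  rw [cl_idx_succ]; omega

theorem cl_tau_le {s : ℕ → Bool} {n t : ℕ} (h : n ≤ idx s t) : tau s n ≤ t := Nat.sInf_le h

theorem cl_idx_tau {s : ℕ → Bool} {n t : ℕ} (h : n ≤ idx s t) : idx s (tau s n) = n := by
  have h1 : n ≤ idx s (tau s n) := Nat.sInf_mem (s := {t | n ≤ idx s t}) ⟨t, h⟩
  refine le_antisymm ?_ h1
  rcases Nat.eq_zero_or_pos (tau s n) with h0 | h0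
  · rw [h0, cl_idx_zero]; omega
  · obtain ⟨k, hk⟩ : ∃ k, tau s n = k + 1 := ⟨tau s n - 1, by omega⟩
    have h2 : idx s k < n := by
      by_contra hc
      rw [not_lt] at hc
      have := cl_tau_le hc
      omega
    rw [hk, cl_idx_succ]
    split_ifs <;> omega

theorem cl_sum_le {s : ℕ → Bool} {t0 : ℕ} (hD : ∀ t, t0 ≤ t → t ≤ 2 * idx s t) {a : ℕ} (ha : 0 < a)
    (w : ℕ → ℝ) (hw : ∀ t, 0 ≤ w t) (N : ℕ) :
    ∑ n ∈ Finset.Icc 1 N, w (tau s (a * n)) ≤ ∑ t ∈ Finset.range (2 * a * N + t0 + 1), w t := by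
  have key : ∀ n ∈ Finset.Icc 1 N, a * n ≤ idx s (2 * a * N + t0) := by
    intro n hn
    rw [Finset.mem_Icc] at hn
    have h1 := hD (2 * a * N + t0) (by omega)
    have h2 : a * n ≤ a * N := Nat.mul_le_mul_left a hn.2
    have h3 : 2 * a * N = 2 * (a * N) := by ring
    omega
  have hinj : Set.InjOn (fun n => tau s (a * n)) (Finset.Icc 1 N : Finset ℕ) := by
    intro n hn n' hn' he
    have e1 := cl_idx_tau (key n hn)
    have e2 := cl_idx_tau (key n' hn')
    simp only at he
    rw [he, e2] at e1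
    exact (Nat.eq_of_mul_eq_mul_left ha e1).symm
  rw [← Finset.sum_image (f := w) hinj]
  refine Finset.sum_le_sum_of_subset_of_nonneg ?_ fun t _ _ => hw t
  intro t ht
  rw [Finset.mem_image] at ht
  obtain ⟨n, hn, rfl⟩ := ht
  rw [Finset.mem_range]
  have := cl_tau_le (key n hn)
  omega

section
variable {Y : Type u} [MeasurableSpace Y] {μ : Measure Y} [IsProbabilityMeasure μ] {S : Y → Y}
  {A : Set Y}

/-- conditional measure of the set `A` -/
noncomputable def clE (μ : Measure Y) (S : Y → Y) (A : Set Y) : Y → ℝ :=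
  μ[A.indicator (fun _ => (1 : ℝ)) | MeasurableSpace.invariants S]

theorem cl_half (hS : MeasurePreserving S μ μ) (hA : MeasurableSet A) :
    ∀ᵐ y ∂μ, (∃ t0, ∀ t, t0 ≤ t → t ≤ 2 * idx (bl S A y) t) → 1 / 2 ≤ clE μ S A y := by
  have hb := Pool.Agent.H165R3.BPE.birkhoff hS (A.indicator (fun _ => (1 : ℝ)))
    (measurable_const.indicator hA) 1 (fun y => by
      by_cases h : y ∈ A
      · rw [Set.indicator_of_mem h]; norm_num
      · rw [Set.indicator_of_notMem h]; norm_num)
  filter_upwards [hb] with y hy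
  rintro ⟨t0, ht0⟩
  have hlim : Tendsto (fun n : ℕ => ((n : ℝ) - 1) / (2 * n)) atTop (𝓝 (1 / 2)) := by
    have h1 : Tendsto (fun n : ℕ => (1 : ℝ) / 2 - 1 / 2 * ((n : ℝ)⁻¹)) atTop (𝓝 (1 / 2 - 1 / 2 * 0)) :=
      tendsto_const_nhds.sub (tendsto_const_nhds.mul tendsto_inv_atTop_nhds_zero_nat)
    rw [mul_zero, sub_zero] at h1
    refine h1.congr' ?_
    filter_upwards [eventually_gt_atTop 0] with n hn
    have : (n : ℝ) ≠ 0 := by positivity
    field_simp
  refine le_of_tendsto_of_tendsto hlim hy ?_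
  filter_upwards [eventually_ge_atTop (t0 + 1)] with n hn
  obtain ⟨k, rfl⟩ : ∃ k, n = k + 1 := ⟨n - 1, by omega⟩
  have h2 := ht0 k (by omega)
  have h3 : (idx (bl S A y) k : ℝ) ≤
      ∑ i ∈ Finset.range (k + 1), A.indicator (fun _ => (1 : ℝ)) (S^[i] y) := by
    have e : (idx (bl S A y) k : ℝ) =
        ∑ i ∈ Finset.Icc 1 k, A.indicator (fun _ => (1 : ℝ)) (S^[i] y) := by
      unfold idx
      rw [Finset.card_filter]
      push_cast
      refine Finset.sum_congr rfl fun i _ => ?_
      by_cases h : S^[i] y ∈ A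
      · simp [bl, h]
      · simp [bl, h]
    rw [e]
    refine Finset.sum_le_sum_of_subset_of_nonneg ?_ fun i _ _ => Set.indicator_nonneg (fun _ _ => zero_le_one) _
    intro i hi
    rw [Finset.mem_Icc] at hi
    rw [Finset.mem_range]
    omega
  have h4 : (k : ℝ) ≤ 2 * (idx (bl S A y) k : ℝ) := by exact_mod_cast h2
  have h5 : (0 : ℝ) < (k : ℝ) + 1 := by positivity
  push_cast
  rw [div_le_iff₀ (by positivity)]
  have h6 : ((k : ℝ) + 1)⁻¹ * (∑ i ∈ Finset.range (k + 1), A.indicator (fun _ => (1 : ℝ)) (S^[i] y)) *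
      (2 * ((k : ℝ) + 1)) = 2 * ∑ i ∈ Finset.range (k + 1), A.indicator (fun _ => (1 : ℝ)) (S^[i] y) := by
    field_simp
  rw [h6]
  linarith

theorem cl_one (hA : MeasurableSet A) : ∀ᵐ y ∂μ,
    (μ[A.indicator (fun _ => (1 : ℂ)) | MeasurableSpace.invariants S]) y = ((clE μ S A y : ℝ) : ℂ) := by
  have hi : Integrable (A.indicator (fun _ => (1 : ℝ))) μ := (integrable_const 1).indicator hA
  have h := ContinuousLinearMap.comp_condExp_comm (m := MeasurableSpace.invariants S) hi Complex.ofRealCLM
  have e : Complex.ofRealCLM ∘ (A.indicator (fun _ => (1 : ℝ))) = A.indicator (fun _ => (1 : ℂ)) := by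
    funext y
    by_cases hy : y ∈ A
    · simp [hy]
    · simp [hy]
  rw [e] at h
  filter_upwards [h] with y hy
  rw [← hy]
  rfl

theorem cl_bound (hA : MeasurableSet A) {f : Y → ℂ} (hf : Measurable f) {C : ℝ} (hC : ∀ y, ‖f y‖ ≤ C) :
    ∀ᵐ y ∂μ, ‖(μ[A.indicator f | MeasurableSpace.invariants S]) y‖ ≤ C * clE μ S A y := by
  have h1 := norm_condExp_le (μ := μ) (m := MeasurableSpace.invariants S) (A.indicator f)
  have hi1 : Integrable (fun y => ‖A.indicator f y‖) μ :=
    ((Integrable.of_bound hf.aestronglyMeasurable C (Eventually.of_forall hC)).indicator hA).norm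
  have hi : Integrable (A.indicator (fun _ => (1 : ℝ))) μ := (integrable_const 1).indicator hA
  have h2 : (μ[fun y => ‖A.indicator f y‖ | MeasurableSpace.invariants S]) ≤ᵐ[μ]
      μ[C • (A.indicator (fun _ => (1 : ℝ))) | MeasurableSpace.invariants S] := by
    refine condExp_mono hi1 (hi.smul C) (Eventually.of_forall fun y => ?_)
    by_cases hy : y ∈ A
    · simpa [hy] using hC y
    · simp [hy]
  have h3 := condExp_smul (μ := μ) C (A.indicator (fun _ => (1 : ℝ))) (MeasurableSpace.invariants S)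
  filter_upwards [h1, h2, h3] with y h1 h2 h3
  refine h1.trans (h2.trans (le_of_eq ?_))
  rw [h3]
  rfl

theorem cl_diff (hA : MeasurableSet A) {f g : Y → ℂ} (hf : Measurable f) (hg : Measurable g) {C : ℝ}
    (hC : ∀ y, ‖f y‖ ≤ C) (hC' : ∀ y, ‖g y‖ ≤ C) :
    ∀ᵐ y ∂μ, ‖(μ[A.indicator f | MeasurableSpace.invariants S]) y -
      (μ[A.indicator g | MeasurableSpace.invariants S]) y‖ ≤
      (μ[fun y => ‖f y - g y‖ | MeasurableSpace.invariants S]) y := by
  have if' : Integrable f μ := Integrable.of_bound hf.aestronglyMeasurable C (Eventually.of_forall hC)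
  have ig' : Integrable g μ := Integrable.of_bound hg.aestronglyMeasurable C (Eventually.of_forall hC')
  have h0 := condExp_sub (μ := μ) (if'.indicator hA) (ig'.indicator hA) (MeasurableSpace.invariants S)
  have h1 := norm_condExp_le (μ := μ) (m := MeasurableSpace.invariants S) (A.indicator f - A.indicator g)
  have h2 : (μ[fun y => ‖(A.indicator f - A.indicator g) y‖ | MeasurableSpace.invariants S]) ≤ᵐ[μ]
      μ[fun y => ‖f y - g y‖ | MeasurableSpace.invariants S] := by
    refine condExp_mono ((if'.indicator hA).sub (ig'.indicator hA)).norm (if'.sub ig').norm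
      (Eventually.of_forall fun y => ?_)
    by_cases hy : y ∈ A
    · simp [hy]
    · simp [hy]
  filter_upwards [h0, h1, h2] with y h0 h1 h2
  rw [Pi.sub_apply] at h0
  rw [← h0]
  exact h1.trans h2

end

theorem partCL : StmCL.{u} := by
  intro Y _ μ _ S hS A hA hD m a f C ha hC hf hfC h
  have hC0 : 0 ≤ C := by linarith
  have hCm : 0 < C ^ m := by positivity
  have hbad : ∀ k : ℕ, ∀ᵐ y ∂μ, ∀ᶠ N : ℕ in atTop, ‖dA μ S A m a f y N‖ ≤ 1 / ((k : ℝ) + 1) := by
    intro k
    set δ : ℝ := 1 / ((k : ℝ) + 1) with hδ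
    have hδ0 : 0 < δ := by positivity
    rw [ae_iff, ← nonpos_iff_eq_zero]
    apply ENNReal.le_of_forall_pos_le_add
    intro η hη _
    rw [zero_add]
    have hη' : (0 : ℝ) < η := by exact_mod_cast hη
    set Q : ℝ := ∑ j ∈ Finset.range m, (2 * (a j : ℝ) + 2) with hQ
    have hQ0 : 0 ≤ Q := Finset.sum_nonneg fun j _ => by positivity
    set ε : ℝ := η * (δ / 4) / (C ^ m * (Q + 1)) with hε
    have hε0 : 0 < ε := by positivity
    obtain ⟨g, hgm, hgC, hfg, hg⟩ := h ε hε0
    set w : ℕ → Y → ℝ := fun j y => ‖f j y - g j y‖ with hw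
    have hwm : ∀ j, Measurable (w j) := fun j => ((hf j).sub (hgm j)).norm
    have hwb : ∀ j y, w j y ≤ C + C := fun j y =>
      (norm_sub_le _ _).trans (add_le_add (hfC j y) (hgC j y))
    have hw0 : ∀ j y, 0 ≤ w j y := fun j y => norm_nonneg _
    set W : ℕ → Y → ℝ := fun j => μ[w j | MeasurableSpace.invariants S] with hW
    have hW0 : ∀ᵐ y ∂μ, ∀ j, 0 ≤ W j y := by
      rw [ae_all_iff]
      intro j
      exact condExp_nonneg (Eventually.of_forall fun y => hw0 j y)
    have hWi : ∀ j, Integrable (W j) μ := fun j => integrable_condExp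
    have hWint : ∀ j < m, ∫ y, W j y ∂μ ≤ ε := by
      intro j hj
      rw [hW]
      simp only
      rw [integral_condExp (MeasurableSpace.invariants_le _)]
      exact hfg j hj
    have hbirk : ∀ᵐ y ∂μ, ∀ j, Tendsto (fun n : ℕ => (n : ℝ)⁻¹ * ∑ k ∈ Finset.range n, w j (S^[k] y)) atTop
        (𝓝 (W j y)) := by
      rw [ae_all_iff]
      intro j
      exact Pool.Agent.H165R3.BPE.birkhoff hS (w j) (hwm j) (C + C)
        (fun y => by rw [abs_of_nonneg (hw0 j y)]; exact hwb j y)
    have hhalf := cl_half (μ := μ) hS hA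
    have hone := cl_one (μ := μ) (S := S) hA
    have hbf : ∀ᵐ y ∂μ, ∀ j, ‖(μ[A.indicator (f j) | MeasurableSpace.invariants S]) y‖ ≤ C * clE μ S A y := by
      rw [ae_all_iff]; exact fun j => cl_bound hA (hf j) (hfC j)
    have hbg : ∀ᵐ y ∂μ, ∀ j, ‖(μ[A.indicator (g j) | MeasurableSpace.invariants S]) y‖ ≤ C * clE μ S A y := by
      rw [ae_all_iff]; exact fun j => cl_bound hA (hgm j) (hgC j)
    have hdf : ∀ᵐ y ∂μ, ∀ j, ‖(μ[A.indicator (f j) | MeasurableSpace.invariants S]) y -
        (μ[A.indicator (g j) | MeasurableSpace.invariants S]) y‖ ≤ W j y := by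
      rw [ae_all_iff]; exact fun j => cl_diff hA (hf j) (hgm j) (hfC j) (hgC j)
    set T : Y → ℝ := fun y => C ^ m * ∑ j ∈ Finset.range m, (2 * (a j : ℝ) + 2) * W j y with hT
    have hTi : Integrable T μ := (integrable_finsetSum _ fun j _ => (hWi j).const_mul _).const_mul _
    have hT0 : 0 ≤ᵐ[μ] T := by
      filter_upwards [hW0] with y hy
      refine mul_nonneg hCm.le (Finset.sum_nonneg fun j _ => mul_nonneg (by positivity) (hy j))
    have hTint : ∫ y, T y ∂μ ≤ C ^ m * (Q * ε) := by
      rw [hT]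
      simp only
      rw [integral_const_mul, integral_finsetSum _ fun j _ => (hWi j).const_mul _]
      refine mul_le_mul_of_nonneg_left ?_ hCm.le
      rw [hQ, Finset.sum_mul]
      refine Finset.sum_le_sum fun j hj => ?_
      rw [integral_const_mul]
      exact mul_le_mul_of_nonneg_left (hWint j (Finset.mem_range.1 hj)) (by positivity)
    have hmark := mul_meas_ge_le_integral_of_nonneg hT0 hTi (δ / 4)
    have hsub : {y | ¬ ∀ᶠ N : ℕ in atTop, ‖dA μ S A m a f y N‖ ≤ δ} ≤ᵐ[μ] {y | δ / 4 ≤ T y} := by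
      filter_upwards [hg, hW0, hbirk, hhalf, hone, hbf, hbg, hdf, hD] with y hg hW0 hbirk hhalf hone hbf hbg hdf hD hbady
      change δ / 4 ≤ T y
      by_contra hcon
      rw [not_le] at hcon
      apply hbady
      have hE := hhalf hD
      have hE0 : 0 < clE μ S A y := by linarith
      obtain ⟨t0, ht0⟩ := hD
      have hcf : ∀ j, ‖cA μ S A (f j) y‖ ≤ C := by
        intro j
        unfold cA
        rw [hone, norm_div, Complex.norm_real, Real.norm_eq_abs, abs_of_pos hE0, div_le_iff₀ hE0]
        exact hbf j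
      have hcg : ∀ j, ‖cA μ S A (g j) y‖ ≤ C := by
        intro j
        unfold cA
        rw [hone, norm_div, Complex.norm_real, Real.norm_eq_abs, abs_of_pos hE0, div_le_iff₀ hE0]
        exact hbg j
      have hcd : ∀ j, ‖cA μ S A (f j) y - cA μ S A (g j) y‖ ≤ 2 * W j y := by
        intro j
        unfold cA
        rw [hone, ← sub_div, norm_div, Complex.norm_real, Real.norm_eq_abs, abs_of_pos hE0,
          div_le_iff₀ hE0]
        refine (hdf j).trans ?_
        have := hW0 j
        nlinarith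
      set s := bl S A y with hs
      -- averages along the times
      set δ' : ℝ := δ / (4 * C ^ m * (m + 1)) with hδ'
      have hδ'0 : 0 < δ' := by positivity
      have hav : ∀ j < m, ∀ᶠ N : ℕ in atTop,
          (N : ℝ)⁻¹ * ∑ n ∈ Finset.Icc 1 N, w j (S^[tau s (a j * n)] y) ≤ 2 * (a j : ℝ) * W j y + δ' := by
        intro j hj
        have haj := ha j hj
        have hv : Tendsto (fun N : ℕ => 2 * a j * N + t0 + 1) atTop atTop := by
          refine tendsto_atTop_mono (fun N => ?_) tendsto_id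
          have h1 : N ≤ a j * N := Nat.le_mul_of_pos_left N haj
          have h2 : 2 * a j * N = 2 * (a j * N) := by ring
          simp only [id]
          omega
        have h1 := (hbirk j).comp hv
        have h2 : Tendsto (fun N : ℕ => (N : ℝ)⁻¹ * ((2 * a j * N + t0 + 1 : ℕ) : ℝ)) atTop
            (𝓝 (2 * (a j : ℝ))) := by
          have h3 : Tendsto (fun N : ℕ => 2 * (a j : ℝ) + ((t0 : ℝ) + 1) * (N : ℝ)⁻¹) atTop
              (𝓝 (2 * (a j : ℝ) + ((t0 : ℝ) + 1) * 0)) :=
            tendsto_const_nhds.add (tendsto_const_nhds.mul tendsto_inv_atTop_nhds_zero_nat)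
          rw [mul_zero, add_zero] at h3
          refine h3.congr' ?_
          filter_upwards [eventually_gt_atTop 0] with N hN
          have : (N : ℝ) ≠ 0 := by positivity
          push_cast
          field_simp
          ring
        have h3 := h2.mul h1
        have h4 := (tendsto_order.1 h3).2 (2 * (a j : ℝ) * W j y + δ') (by linarith)
        filter_upwards [h4] with N hN
        refine le_trans ?_ hN.le
        simp only [Function.comp]
        have h5 : (((2 * a j * N + t0 + 1 : ℕ) : ℝ)) ≠ 0 := by positivity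
        rw [mul_assoc, ← mul_assoc (((2 * a j * N + t0 + 1 : ℕ) : ℝ)), mul_inv_cancel₀ h5, one_mul]
        refine mul_le_mul_of_nonneg_left ?_ (by positivity)
        exact cl_sum_le ht0 haj (fun t => w j (S^[t] y)) (fun t => hw0 j _) N
      have hav' : ∀ᶠ N : ℕ in atTop, ∀ j ∈ Finset.range m,
          (N : ℝ)⁻¹ * ∑ n ∈ Finset.Icc 1 N, w j (S^[tau s (a j * n)] y) ≤ 2 * (a j : ℝ) * W j y + δ' := by
        rw [Filter.eventually_all_finset]
        exact fun j hj => hav j (Finset.mem_range.1 hj)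
      have hev3 : ∀ᶠ N : ℕ in atTop, ‖dA μ S A m a g y N‖ ≤ δ / 4 :=
        (tendsto_zero_iff_norm_tendsto_zero.1 hg).eventually
          (eventually_le_nhds (show (0 : ℝ) < δ / 4 by positivity))
      filter_upwards [hav', hev3, eventually_gt_atTop 0] with N h1 h3 hN
      have hNr : (0 : ℝ) < N := by exact_mod_cast hN
      have hdd : ‖dA μ S A m a f y N - dA μ S A m a g y N‖ ≤
          C ^ m * (∑ j ∈ Finset.range m, (N : ℝ)⁻¹ * ∑ n ∈ Finset.Icc 1 N, w j (S^[tau s (a j * n)] y)) +
          C ^ m * (∑ j ∈ Finset.range m, 2 * W j y) := by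
        unfold dA
        rw [← mul_sub, ← Finset.sum_sub_distrib, norm_mul, norm_div, norm_one, Complex.norm_natCast, one_div]
        have h6 : ∀ n, ‖(∏ j ∈ Finset.range m, f j (S^[tau s (a j * n)] y) -
              ∏ j ∈ Finset.range m, cA μ S A (f j) y) -
            (∏ j ∈ Finset.range m, g j (S^[tau s (a j * n)] y) -
              ∏ j ∈ Finset.range m, cA μ S A (g j) y)‖ ≤
            C ^ m * ∑ j ∈ Finset.range m, w j (S^[tau s (a j * n)] y) +
            C ^ m * ∑ j ∈ Finset.range m, 2 * W j y := by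
          intro n
          have e1 : (∏ j ∈ Finset.range m, f j (S^[tau s (a j * n)] y) -
              ∏ j ∈ Finset.range m, cA μ S A (f j) y) -
            (∏ j ∈ Finset.range m, g j (S^[tau s (a j * n)] y) -
              ∏ j ∈ Finset.range m, cA μ S A (g j) y) =
            (∏ j ∈ Finset.range m, f j (S^[tau s (a j * n)] y) -
              ∏ j ∈ Finset.range m, g j (S^[tau s (a j * n)] y)) -
            (∏ j ∈ Finset.range m, cA μ S A (f j) y - ∏ j ∈ Finset.range m, cA μ S A (g j) y) := by ring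
          rw [e1]
          refine (norm_sub_le _ _).trans (add_le_add ?_ ?_)
          · exact Pool.Agent.R205.PC.prod_sub_le C hC m _ _ (fun j => hfC j _) (fun j => hgC j _)
          · refine (Pool.Agent.R205.PC.prod_sub_le C hC m _ _ hcf hcg).trans ?_
            exact mul_le_mul_of_nonneg_left (Finset.sum_le_sum fun j _ => hcd j) hCm.le
        calc (N : ℝ)⁻¹ * ‖∑ n ∈ Finset.Icc 1 N, ((∏ j ∈ Finset.range m, f j (S^[tau s (a j * n)] y) -
              ∏ j ∈ Finset.range m, cA μ S A (f j) y) -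
            (∏ j ∈ Finset.range m, g j (S^[tau s (a j * n)] y) -
              ∏ j ∈ Finset.range m, cA μ S A (g j) y))‖
            ≤ (N : ℝ)⁻¹ * ∑ n ∈ Finset.Icc 1 N, (C ^ m * ∑ j ∈ Finset.range m, w j (S^[tau s (a j * n)] y) +
            C ^ m * ∑ j ∈ Finset.range m, 2 * W j y) := by
              gcongr
              exact norm_sum_le_of_le _ fun n _ => h6 n
          _ = _ := by
              rw [Finset.sum_add_distrib, Finset.sum_const, Nat.card_Icc, Nat.add_sub_cancel,
                nsmul_eq_mul, ← Finset.mul_sum, Finset.sum_comm, mul_add]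
              congr 1
              · rw [mul_left_comm, Finset.mul_sum]
              · rw [← mul_assoc, inv_mul_cancel₀ hNr.ne', one_mul]
      have hs1 : ∑ j ∈ Finset.range m, (N : ℝ)⁻¹ * ∑ n ∈ Finset.Icc 1 N, w j (S^[tau s (a j * n)] y) ≤
          ∑ j ∈ Finset.range m, 2 * (a j : ℝ) * W j y + m * δ' := by
        refine (Finset.sum_le_sum h1).trans (le_of_eq ?_)
        rw [Finset.sum_add_distrib, Finset.sum_const, Finset.card_range, nsmul_eq_mul]
      have hTy : C ^ m * (∑ j ∈ Finset.range m, 2 * (a j : ℝ) * W j y) +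
          C ^ m * (∑ j ∈ Finset.range m, 2 * W j y) = T y := by
        rw [hT]
        simp only
        rw [← mul_add, ← Finset.sum_add_distrib]
        congr 1
        refine Finset.sum_congr rfl fun j _ => ?_
        ring
      have hfin : C ^ m * (m * δ') ≤ δ / 4 := by
        have e2 : C ^ m * (m * δ') = δ / 4 * (m / (m + 1)) := by
          rw [hδ']; field_simp
        rw [e2]
        have e3 : (m : ℝ) / (m + 1) ≤ 1 := by rw [div_le_one (by positivity)]; linarith
        have e4 : 0 ≤ δ / 4 := by positivity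
        nlinarith
      calc ‖dA μ S A m a f y N‖
          ≤ ‖dA μ S A m a f y N - dA μ S A m a g y N‖ + ‖dA μ S A m a g y N‖ := by
              have := norm_add_le (dA μ S A m a f y N - dA μ S A m a g y N) (dA μ S A m a g y N)
              rwa [sub_add_cancel] at this
        _ ≤ (C ^ m * (∑ j ∈ Finset.range m, 2 * (a j : ℝ) * W j y + m * δ') +
              C ^ m * (∑ j ∈ Finset.range m, 2 * W j y)) + δ / 4 := by
            refine add_le_add (hdd.trans ?_) h3
            exact add_le_add (mul_le_mul_of_nonneg_left hs1 hCm.le) le_rfl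
        _ = T y + C ^ m * (m * δ') + δ / 4 := by rw [← hTy]; ring
        _ ≤ δ := by linarith
    refine (measure_mono_ae hsub).trans ?_
    calc μ {y | δ / 4 ≤ T y} = ENNReal.ofReal (μ.real {y | δ / 4 ≤ T y}) := by rw [ofReal_measureReal]
      _ ≤ ENNReal.ofReal (η : ℝ) := by
          apply ENNReal.ofReal_le_ofReal
          have h7 : (δ / 4) * μ.real {y | δ / 4 ≤ T y} ≤ C ^ m * (Q * ε) := hmark.trans hTint
          have h8 : C ^ m * (Q * ε) ≤ (δ / 4) * η := by
            have e6 : C ^ m * (Q * ε) = (δ / 4) * η * (Q / (Q + 1)) := by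
              rw [hε]; field_simp
            rw [e6]
            have e7 : Q / (Q + 1) ≤ 1 := by rw [div_le_one (by positivity)]; linarith
            have e8 : 0 ≤ (δ / 4) * (η : ℝ) := by positivity
            nlinarith
          have h9 := h7.trans h8
          exact le_of_mul_le_mul_left h9 (by positivity)
      _ = η := ENNReal.ofReal_coe_nnreal
  have hall := ae_all_iff.2 hbad
  filter_upwards [hall] with y hy
  rw [tendsto_zero_iff_norm_tendsto_zero, Metric.tendsto_atTop]
  intro ε hε
  obtain ⟨k, hk⟩ := exists_nat_one_div_lt hε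
  obtain ⟨N0, hN0⟩ := eventually_atTop.1 (hy k)
  refine ⟨N0, fun N hN => ?_⟩
  rw [Real.dist_eq, sub_zero, abs_of_nonneg (norm_nonneg _)]
  exact (hN0 N hN).trans_lt hk

end Pool.Agent.H50.KI
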