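import Mathlib

/-!
# Induced maps with pointwise convergence: definitions

The orbit of one point is described by Boolean sequences: `s t` says that the point is in the set `A` at the
time `t`. A time `t` is marked if `mk t`, its label is `lab t`, and a coin `θ (lab t)` decides whether the marked
time is deleted.
-/

set_option autoImplicit false

open MeasureTheory Filter Topology
open scoped ENNReal

namespace Pool.Agent.H50.KI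

universe u

/-- number of the times `1 ≤ i ≤ t` with `s i` -/
def idx (s : ℕ → Bool) (t : ℕ) : ℕ := ((Finset.Icc 1 t).filter fun i => s i = true).card

/-- the `n`-th time `≥ 1` with `s` -/
noncomputable def tau (s : ℕ → Bool) (n : ℕ) : ℕ := sInf {t | n ≤ idx s t}

/-- the times which are kept: the marked times whose label has the coin `true` are deleted -/
def al (mk : ℕ → Bool) (lab : ℕ → ℕ) (θ : ℕ → Bool) (t : ℕ) : Bool := !(mk t && θ (lab t))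

/-- the range of the scale `k` -/
def Lk (k : ℕ) : ℕ := 4 ^ ((k + 1) ^ 2)

/-- every window of length `2 ^ (k + 1)` contains a marked time whose label is unique in the range `Lk k` -/
def Fr (k0 : ℕ) (mk : ℕ → Bool) (lab : ℕ → ℕ) : Prop :=
  ∀ k a : ℕ, k0 ≤ k → ∃ t, a ≤ t ∧ t ≤ a + 2 * 2 ^ k ∧ mk t = true ∧
    ∀ s, s ≠ t → s ≤ t + Lk k → t ≤ s + Lk k → lab s ≠ lab t

/-- at most half of the times are marked, eventually -/
def Sparse (mk : ℕ → Bool) : Prop :=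
  ∃ t0, ∀ t, t0 ≤ t → 2 * ((Finset.Icc 1 t).filter fun i => mk i = true).card ≤ t

/-- a fair coin -/
noncomputable def coin : Measure Bool := (2 : ℝ≥0∞)⁻¹ • (Measure.dirac false + Measure.dirac true)

instance : IsProbabilityMeasure coin := ⟨by
  unfold coin
  simp only [Measure.smul_apply, Measure.add_apply, measure_univ, smul_eq_mul]
  rw [one_add_one_eq_two]
  exact ENNReal.inv_mul_cancel (by norm_num) (by norm_num)⟩

/-- independent fair coins -/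
noncomputable def PP : Measure (ℕ → Bool) := Measure.infinitePi fun _ => coin

instance : IsProbabilityMeasure PP := by unfold PP; infer_instance

/-- the coins of `η` are turned over -/
def flip (η : Finset ℕ) (θ : ℕ → Bool) (i : ℕ) : Bool := if i ∈ η then !(θ i) else θ i

/-- the coins of `F` are set to `false` -/
def clr (F : Finset ℕ) (θ : ℕ → Bool) (i : ℕ) : Bool := if i ∈ F then false else θ i

/-- the mean over the coins of `F` -/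
noncomputable def avgf (F : Finset ℕ) (S : (ℕ → Bool) → ℂ) (θ : ℕ → Bool) : ℂ :=
  (1 / (2 : ℂ) ^ F.card) * ∑ η ∈ F.powerset, S (flip η θ)

/-- binomial smoothing -/
noncomputable def Mm (R : ℕ) (v : ℕ → ℂ) (I : ℕ) : ℂ :=
  (1 / (2 : ℂ) ^ R) * ∑ s ∈ Finset.range (R + 1), (R.choose s : ℂ) * v (I - s)

/-- `u θ I` depends only on the coins up to a time `t` at which at least `b I / a` times have been kept -/
def Loc (mk : ℕ → Bool) (lab : ℕ → ℕ) (a b : ℕ) (v : (ℕ → Bool) → ℕ → ℂ) : Prop :=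
  ∀ (θ θ' : ℕ → Bool) (I t : ℕ), (∀ i ≤ t, mk i = true → θ (lab i) = θ' (lab i)) →
    b * I ≤ a * idx (al mk lab θ) t → v θ I = v θ' I

/-- the term of the time `t` -/
noncomputable def zz (mk : ℕ → Bool) (lab : ℕ → ℕ) (F : ℕ → ℂ) (v : (ℕ → Bool) → ℕ → ℂ) (t : ℕ)
    (θ : ℕ → Bool) : ℂ :=
  if al mk lab θ t = true then F t * v θ (idx (al mk lab θ) t) else 0

/-- `1_A (f - c)` at the time `t`, for a Boolean sequence `s` -/
noncomputable def vv (s : ℕ → Bool) (F : ℕ → ℂ) (c : ℂ) (t : ℕ) : ℂ := if s t = true then F t - c else 0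

/-- the first return time to `A` -/
noncomputable def ret {X : Type*} (T : X → X) (A : Set X) (x : X) : ℕ := sInf {n | 1 ≤ n ∧ T^[n] x ∈ A}

/-- the induced map (first return map) of `T` on `A` -/
noncomputable def induced {X : Type*} (T : X → X) (A : Set X) (x : X) : X := T^[ret T A x] x

open Classical in
/-- the times at which the orbit of `x` is in `A` -/
noncomputable def bl {X : Type*} (T : X → X) (A : Set X) (x : X) (t : ℕ) : Bool := decide (T^[t] x ∈ A)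

/-- the set `A` for the coins `θ` -/
def Aset {X : Type*} (M : Set X) (ξ : X → ℕ) (θ : ℕ → Bool) : Set X := {y | ¬ (y ∈ M ∧ θ (ξ y) = true)}

/-- product of the slower paths, as a function of the index of the fastest one -/
noncomputable def uu {X : Type*} (S : X → X) (a : ℕ → ℕ) (f : ℕ → X → ℂ) (r : ℕ) (s : ℕ → Bool) (y : X)
    (I : ℕ) : ℂ :=
  if a r ∣ I then ∏ j ∈ Finset.range r, f j (S^[tau s (a j * (I / a r))] y) else 0

/-- the estimate in the time of `T` for the sequence `s`, `F t - c` and the weights `w` -/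
def Est (s : ℕ → Bool) (F w : ℕ → ℂ) (C : ℝ) : Prop :=
  ∀ (c : ℂ) (q : ℕ) (ε : ℝ), 1 ≤ q → 0 < ε → ∀ᶠ l : ℕ in atTop,
    ‖∑ t ∈ Finset.range (l ^ 4), vv s F c t * w (idx s t)‖ ≤
      C * ∑ t ∈ Finset.range (l ^ 4), ‖(1 / (q : ℂ)) * ∑ i ∈ Finset.range q, vv s F c (t + i)‖ + ε * (l : ℝ) ^ 4

/-- the density of the function `f` on `A`, conditional on the invariant sets -/
noncomputable def cA {X : Type*} [MeasurableSpace X] (μ : Measure X) (S : X → X) (A : Set X) (f : X → ℂ)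
    (y : X) : ℂ :=
  (μ[A.indicator f | MeasurableSpace.invariants S]) y /
    (μ[A.indicator (fun _ => (1 : ℂ)) | MeasurableSpace.invariants S]) y

/-- averages of the products along the sequence `s` -/
noncomputable def dA {X : Type*} [MeasurableSpace X] (μ : Measure X) (S : X → X) (A : Set X) (m : ℕ)
    (a : ℕ → ℕ) (f : ℕ → X → ℂ) (y : X) (N : ℕ) : ℂ :=
  (1 / (N : ℂ)) * ∑ n ∈ Finset.Icc 1 N, (∏ j ∈ Finset.range m, f j (S^[tau (bl S A y) (a j * n)] y) -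
    ∏ j ∈ Finset.range m, cA μ S A (f j) y)

/-! ## The parts -/

def StmFL : Prop := ∀ η : Finset ℕ, MeasurePreserving (flip η) PP PP

def StmSM : Prop := ∀ (C : ℝ) (v : ℕ → ℂ), (∀ n, ‖v n‖ ≤ C) → ∀ R I : ℕ,
  ‖Mm R v I‖ ≤ C ∧ (R ≤ I → ‖Mm R v (I + 1) - Mm R v I‖ ≤ 2 * C / Real.sqrt (R + 1))

def StmMO : Prop := ∀ (B : ℝ) (r0 l0 : ℕ) (S : ℕ → ℕ → (ℕ → Bool) → ℂ) (F : ℕ → ℕ → Finset ℕ),
  (∀ l r, Measurable (S l r)) → (∀ l r θ, ‖S l r θ‖ ≤ B * (l : ℝ) ^ 2) →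
  (∀ l r r', l0 ≤ l → r0 ≤ r → r < r' → r' < l ^ 2 → ∀ η ⊆ F l r', ∀ θ, S l r (flip η θ) = S l r θ) →
  ∀ᵐ θ ∂PP, Tendsto (fun l : ℕ => ‖∑ r ∈ Finset.Ico r0 (l ^ 2), (S l r θ - avgf (F l r) (S l r) θ)‖ / (l : ℝ) ^ 4)
    atTop (𝓝 0)

def StmBA : Prop := ∀ (mk : ℕ → Bool) (lab : ℕ → ℕ) (a b : ℕ) (v : (ℕ → Bool) → ℕ → ℂ) (F : ℕ → ℂ),
  Loc mk lab a b v → ∀ (p b1 t N : ℕ) (Ts : Finset ℕ), (∀ s ∈ Ts, p < s ∧ s < b1 ∧ mk s = true) →
  b1 ≤ t → t < N → (∀ s < N, ∀ s' ∈ Ts, lab s = lab s' → s = s') →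
  (∀ θ, b * idx (al mk lab θ) t ≤ a * idx (al mk lab θ) p) → ∀ θ,
  avgf (Ts.image lab) (zz mk lab F v t) θ = if al mk lab θ t = true then
    F t * Mm Ts.card (v (clr (Ts.image lab) θ)) (idx (al mk lab (clr (Ts.image lab) θ)) t) else 0

def StmSW : Prop := ∀ (C C1 β : ℝ) (G m : ℕ → ℂ) (b e q : ℕ), 1 ≤ q → b ≤ e → 0 ≤ C → 0 ≤ β →
  (∀ t, ‖G t‖ ≤ C1) → (∀ t, b ≤ t → t < e → ‖m t‖ ≤ C) → (∀ t, b ≤ t → t + 1 < e → ‖m (t + 1) - m t‖ ≤ β) →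
  ‖∑ t ∈ Finset.Ico b e, G t * m t‖ ≤
    C * ∑ t ∈ Finset.Ico b e, ‖(1 / (q : ℂ)) * ∑ i ∈ Finset.range q, G (t + i)‖ +
      q * (2 * C1 * C + ((e : ℝ) - b) * β * C1)

def StmAS : Prop := ∀ (k0 a b : ℕ) (mk : ℕ → Bool) (lab : ℕ → ℕ) (F : ℕ → ℂ) (v : (ℕ → Bool) → ℕ → ℂ) (C : ℝ),
  Fr k0 mk lab → Sparse mk → b < a → 0 ≤ C → (∀ t, ‖F t‖ ≤ C) → (∀ θ I, ‖v θ I‖ ≤ C) →
  (∀ I, Measurable fun θ => v θ I) → Loc mk lab a b v →
  ∀ᵐ θ ∂PP, Est (al mk lab θ) F (v θ) C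

def StmTN : Prop := ∀ (s : ℕ → Bool) (G W : ℕ → ℂ) (C : ℝ) (a t0 : ℕ), 1 ≤ a → (∀ t, t0 ≤ t → t ≤ 2 * idx s t) →
  (∀ t, ‖G t‖ ≤ C) → (∀ n, ‖W n‖ ≤ C) →
  Tendsto (fun V : ℕ => (1 / (V : ℂ)) * ∑ t ∈ Finset.range V,
    (if s t = true then G t * (if a ∣ idx s t then W (idx s t / a) else 0) else 0)) atTop (𝓝 0) →
  Tendsto (fun N : ℕ => (1 / (N : ℂ)) * ∑ n ∈ Finset.Icc 1 N, G (tau s (a * n)) * W n) atTop (𝓝 0)

def StmIN : Prop := ∀ (X : Type u) (T : X → X) (A : Set X) (x : X), (∀ n, ∃ t, n ≤ idx (bl T A x) t) →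
  ∀ n, (induced T A)^[n] x = T^[tau (bl T A x) n] x

def StmMK : Prop := ∀ (Y : Type u) [MeasurableSpace Y] [StandardBorelSpace Y] (μ : Measure Y)
  [IsProbabilityMeasure μ] (S : Y ≃ᵐ Y), MeasurePreserving S μ μ → (∀ᵐ y ∂μ, ∀ n : ℕ, 0 < n → S^[n] y ≠ y) →
  ∀ ε : ℝ≥0∞, 0 < ε → ∃ (M : Set Y) (ξ : Y → ℕ) (k0 : ℕ), MeasurableSet M ∧ Measurable ξ ∧ μ M ≤ ε ∧
    ∀ᵐ y ∂μ, Fr k0 (bl S M y) (fun t => ξ (S^[t] y)) ∧ Sparse (bl S M y)

def StmFU : Prop := ∀ (Y : Type u) [MeasurableSpace Y] (μ : Measure Y) [IsProbabilityMeasure μ] (S : Y → Y),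
  Measurable S → ∀ (M : Set Y) (ξ : Y → ℕ) (k0 : ℕ), MeasurableSet M → Measurable ξ →
  (∀ᵐ y ∂μ, Fr k0 (bl S M y) (fun t => ξ (S^[t] y)) ∧ Sparse (bl S M y)) →
  ∀ (a : ℕ → ℕ) (f : ℕ → Y → ℂ) (C : ℝ) (r : ℕ), (∀ j < r, a j < a r) → 0 < a r → 1 ≤ C →
  (∀ j, Measurable (f j)) → (∀ j y, ‖f j y‖ ≤ C) →
  ∀ᵐ θ ∂PP, ∀ᵐ y ∂μ, Est (bl S (Aset M ξ θ) y) (fun t => f r (S^[t] y))
    (uu S a f r (bl S (Aset M ξ θ) y) y) (C ^ (r + 1))

def StmER : Prop := ∀ (Y : Type u) [MeasurableSpace Y] (μ : Measure Y) [IsProbabilityMeasure μ] (S : Y → Y),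
  MeasurePreserving S μ μ → ∀ (A : Set Y), MeasurableSet A →
  (∀ᵐ y ∂μ, ∃ t0, ∀ t, t0 ≤ t → t ≤ 2 * idx (bl S A y) t) →
  ∀ (m : ℕ) (a : ℕ → ℕ) (f : ℕ → Y → ℂ) (C : ℝ), (∀ j < m, 0 < a j) → 1 ≤ C →
  (∀ j, Measurable (f j)) → (∀ j y, ‖f j y‖ ≤ C) →
  (∀ r < m, ∀ᵐ y ∂μ, Est (bl S A y) (fun t => f r (S^[t] y)) (uu S a f r (bl S A y) y) (C ^ (r + 1))) →
  ∀ᵐ y ∂μ, Tendsto (fun N : ℕ => dA μ S A m a f y N) atTop (𝓝 0)

def StmCL : Prop := ∀ (Y : Type u) [MeasurableSpace Y] (μ : Measure Y) [IsProbabilityMeasure μ] (S : Y → Y),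
  MeasurePreserving S μ μ → ∀ (A : Set Y), MeasurableSet A →
  (∀ᵐ y ∂μ, ∃ t0, ∀ t, t0 ≤ t → t ≤ 2 * idx (bl S A y) t) →
  ∀ (m : ℕ) (a : ℕ → ℕ) (f : ℕ → Y → ℂ) (C : ℝ), (∀ j < m, 0 < a j) → 1 ≤ C →
  (∀ j, Measurable (f j)) → (∀ j y, ‖f j y‖ ≤ C) →
  (∀ ε : ℝ, 0 < ε → ∃ g : ℕ → Y → ℂ, (∀ j, Measurable (g j)) ∧ (∀ j y, ‖g j y‖ ≤ C) ∧
    (∀ j < m, ∫ y, ‖f j y - g j y‖ ∂μ ≤ ε) ∧ ∀ᵐ y ∂μ, Tendsto (fun N : ℕ => dA μ S A m a g y N) atTop (𝓝 0)) →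
  ∀ᵐ y ∂μ, Tendsto (fun N : ℕ => dA μ S A m a f y N) atTop (𝓝 0)

end Pool.Agent.H50.KI
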