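import Pool.Agent.H50.KI.Defs

/-!
# Further statements
-/

set_option autoImplicit false

open MeasureTheory Filter Topology
open scoped ENNReal

namespace Pool.Agent.H50.KI

universe u

/-- the induced map preserves the restricted measure -/
def StmMPI : Prop := ∀ (X : Type u) [MeasurableSpace X] (μ : Measure X) [IsProbabilityMeasure μ] (T : X ≃ᵐ X),
  MeasurePreserving T μ μ → ∀ A : Set X, MeasurableSet A →
  MeasurePreserving (induced T A) (μ.restrict A) (μ.restrict A)

/-- averages along periodic orbits -/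
def StmPER : Prop := ∀ (X : Type u) (T : X → X) (x : X) (p : ℕ), 0 < p → T^[p] x = x →
  ∀ (m : ℕ) (a : Fin m → ℕ) (f : Fin m → X → ℂ), ∃ L : ℂ,
    Tendsto (fun N : ℕ => (1 / (N : ℂ)) * ∑ n ∈ Finset.Icc 1 N, ∏ j, f j (T^[a j * n] x)) atTop (𝓝 L)

/-- conditional densities of an ergodic map -/
def StmERG : Prop := ∀ (X : Type u) [MeasurableSpace X] (μ : Measure X) [IsProbabilityMeasure μ] (T : X → X),
  Ergodic T μ → ∀ A : Set X, MeasurableSet A → ∀ f : X → ℂ, Measurable f → (∃ C, ∀ x, ‖f x‖ ≤ C) →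
  ∀ᵐ x ∂μ, cA μ T A f x = ((μ A).toReal : ℂ)⁻¹ * ∫ y in A, f y ∂μ

end Pool.Agent.H50.KI
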