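import Pool.Agent.H50.KI.Defs
import Pool.Graph.R_seed8.R205.PC.Fub
import Pool.Graph.R_seed8.H165R3.BPE

/-!
# The ergodic part
-/

set_option autoImplicit false

open MeasureTheory Filter Topology Finset
open scoped ENNReal

namespace Pool.Agent.H50.KI

universe u

/-- the pointwise ergodic theorem for bounded complex functions -/
lemma er_birk {Y : Type*} [MeasurableSpace Y] {μ : Measure Y} [IsProbabilityMeasure μ] {S : Y → Y}
    (hS : MeasurePreserving S μ μ) (f : Y → ℂ) (hf : Measurable f) (C : ℝ) (hb : ∀ x, ‖f x‖ ≤ C) :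
    ∀ᵐ x ∂μ, Tendsto (fun n : ℕ => (1 / (n : ℂ)) * ∑ k ∈ range n, f (S^[k] x)) atTop
      (𝓝 ((μ[f | MeasurableSpace.invariants S]) x)) := by
  have hi : Integrable f μ := Integrable.of_bound hf.aestronglyMeasurable C (Eventually.of_forall hb)
  have h1 := Pool.Agent.H165R3.BPE.birkhoff hS (fun x => (f x).re) (Complex.measurable_re.comp hf) C
    (fun x => (Complex.abs_re_le_norm _).trans (hb x))
  have h2 := Pool.Agent.H165R3.BPE.birkhoff hS (fun x => (f x).im) (Complex.measurable_im.comp hf) C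
    (fun x => (Complex.abs_im_le_norm _).trans (hb x))
  have h3 := Complex.reCLM.comp_condExp_comm (m := MeasurableSpace.invariants S) hi
  have h4 := Complex.imCLM.comp_condExp_comm (m := MeasurableSpace.invariants S) hi
  filter_upwards [h1, h2, h3, h4] with x h1 h2 h3 h4
  have e3 : ((μ[f | MeasurableSpace.invariants S]) x).re =
      (μ[fun x => (f x).re | MeasurableSpace.invariants S]) x := h3
  have e4 : ((μ[f | MeasurableSpace.invariants S]) x).im =
      (μ[fun x => (f x).im | MeasurableSpace.invariants S]) x := h4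
  rw [← e3] at h1
  rw [← e4] at h2
  have h5 := ((Complex.continuous_ofReal.tendsto _).comp h1).add
    (((Complex.continuous_ofReal.tendsto _).comp h2).mul_const Complex.I)
  rw [Complex.re_add_im] at h5
  refine h5.congr fun n => ?_
  simp only [Function.comp]
  push_cast
  rw [mul_assoc, ← mul_add, Finset.sum_mul, ← Finset.sum_add_distrib, one_div]
  congr 1
  exact Finset.sum_congr rfl fun k _ => Complex.re_add_im _

lemma er_bl {Y : Type*} (S : Y → Y) (A : Set Y) (y : Y) (t : ℕ) : bl S A y t = true ↔ S^[t] y ∈ A := by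
  simp only [bl, decide_eq_true_eq]

/-- the density of `A` in almost every ergodic component is at least `1 / 2` -/
lemma er_half {Y : Type*} [MeasurableSpace Y] {μ : Measure Y} [IsProbabilityMeasure μ] {S : Y → Y}
    (hS : MeasurePreserving S μ μ) (A : Set Y) (hA : MeasurableSet A)
    (hd : ∀ᵐ y ∂μ, ∃ t0, ∀ t, t0 ≤ t → t ≤ 2 * idx (bl S A y) t) :
    ∀ᵐ y ∂μ, 1 / 2 ≤ ‖(μ[A.indicator (fun _ => (1 : ℂ)) | MeasurableSpace.invariants S]) y‖ := by
  have h1 := er_birk hS (A.indicator (fun _ => (1 : ℂ))) (measurable_const.indicator hA) 1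
    (fun x => by
      by_cases h : x ∈ A
      · simp [h]
      · simp [h])
  filter_upwards [h1, hd] with y hy hdy
  obtain ⟨t0, ht0⟩ := hdy
  have h2 := hy.norm
  have h3 : Tendsto (fun n : ℕ => (1 / 2 : ℝ) - (1 / 2) * (1 / (n : ℝ))) atTop (𝓝 (1 / 2)) := by
    have := (tendsto_one_div_atTop_nhds_zero_nat (𝕜 := ℝ)).const_mul (1 / 2 : ℝ)
    have h4 := tendsto_const_nhds (x := (1 / 2 : ℝ)) (f := (atTop : Filter ℕ))
    simpa using h4.sub this
  refine le_of_tendsto_of_tendsto h3 h2 ?_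
  filter_upwards [eventually_ge_atTop (t0 + 1)] with n hn
  have e1 : ∑ k ∈ range n, A.indicator (fun _ => (1 : ℂ)) (S^[k] y) =
      (((range n).filter fun k => bl S A y k = true).card : ℂ) := by
    rw [Finset.card_filter]
    push_cast
    refine Finset.sum_congr rfl fun k _ => ?_
    by_cases h : S^[k] y ∈ A
    · rw [Set.indicator_of_mem h, if_pos ((er_bl S A y k).2 h)]
    · rw [Set.indicator_of_notMem h, if_neg (fun h' => h ((er_bl S A y k).1 h'))]
  rw [e1, norm_mul, norm_div, norm_one, Complex.norm_natCast, Complex.norm_natCast]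
  have e2 : idx (bl S A y) (n - 1) ≤ ((range n).filter fun k => bl S A y k = true).card := by
    unfold idx
    apply Finset.card_le_card
    intro i hi
    rw [Finset.mem_filter, Finset.mem_Icc] at hi
    rw [Finset.mem_filter, Finset.mem_range]
    exact ⟨by omega, hi.2⟩
  have e3 := ht0 (n - 1) (by omega)
  have e4 : n ≤ 2 * ((range n).filter fun k => bl S A y k = true).card + 1 := by omega
  have e5 : (n : ℝ) ≤ 2 * (((range n).filter fun k => bl S A y k = true).card : ℝ) + 1 := by exact_mod_cast e4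
  have hn0 : (0 : ℝ) < n := by
    have : 0 < n := by omega
    exact_mod_cast this
  have e7 : 1 / (n : ℝ) * (((range n).filter fun k => bl S A y k = true).card : ℝ) =
      (((range n).filter fun k => bl S A y k = true).card : ℝ) / n := by ring
  rw [e7, le_div_iff₀ hn0]
  have e6 : (1 / 2 - 1 / 2 * (1 / (n : ℝ))) * n = (n - 1) / 2 := by field_simp
  rw [e6]
  linarith

/-- averages of small averages -/
lemma er_small {Y : Type*} [MeasurableSpace Y] {μ : Measure Y} [IsProbabilityMeasure μ] {S : Y → Y}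
    (hS : MeasurePreserving S μ μ) (v : Y → ℂ) (hv : Measurable v) (B : ℝ) (hB : ∀ y, ‖v y‖ ≤ B)
    (h0 : ∀ᵐ y ∂μ, Tendsto (fun q : ℕ => (1 / (q : ℂ)) * ∑ i ∈ range q, v (S^[i] y)) atTop (𝓝 0)) :
    ∀ᵐ y ∂μ, ∀ ε : ℝ, 0 < ε → ∃ q : ℕ, 1 ≤ q ∧ ∀ᶠ V : ℕ in atTop,
      ∑ t ∈ range V, ‖(1 / (q : ℂ)) * ∑ i ∈ range q, v (S^[i] (S^[t] y))‖ ≤ ε * V := by
  set H : ℕ → Y → ℝ := fun q y => ‖(1 / (q : ℂ)) * ∑ i ∈ range q, v (S^[i] y)‖ with hH
  have hHm : ∀ q, Measurable (H q) := fun q =>
    (measurable_const.mul (Finset.measurable_fun_sum _ fun i _ => hv.comp (hS.measurable.iterate i))).norm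
  have hBn : 0 ≤ B := by
    obtain ⟨y⟩ := nonempty_of_isProbabilityMeasure μ
    exact (norm_nonneg _).trans (hB y)
  have hHb : ∀ q y, H q y ≤ B := by
    intro q y
    simp only [hH]
    rcases Nat.eq_zero_or_pos q with h | h
    · subst h; simpa using hBn
    · have hq : (0 : ℝ) < q := by exact_mod_cast h
      rw [norm_mul, norm_div, norm_one, Complex.norm_natCast, one_div_mul_eq_div, div_le_iff₀ hq]
      refine (norm_sum_le_of_le _ fun i _ => hB _).trans ?_
      rw [Finset.sum_const, Finset.card_range, nsmul_eq_mul, mul_comm]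
  have hHn : ∀ q y, 0 ≤ H q y := fun q y => norm_nonneg _
  have hint : Tendsto (fun q => ∫ y, H q y ∂μ) atTop (𝓝 0) := by
    have h1 : Tendsto (fun q => ∫ y, H q y ∂μ) atTop (𝓝 (∫ _, (0 : ℝ) ∂μ)) := by
      refine tendsto_integral_of_dominated_convergence (fun _ => B) (fun q => (hHm q).aestronglyMeasurable)
        (integrable_const B) (fun q => Eventually.of_forall fun y => ?_) ?_
      · rw [Real.norm_eq_abs, abs_of_nonneg (hHn q y)]
        exact hHb q y
      · filter_upwards [h0] with y hy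
        have := hy.norm
        rw [norm_zero] at this
        exact this
    simpa using h1
  have hb := fun q => Pool.Agent.H165R3.BPE.birkhoff hS (H q) (hHm q) B
    (fun y => by rw [abs_of_nonneg (hHn q y)]; exact hHb q y)
  have hbad : ∀ q : ℕ, ∀ ε : ℝ, 0 < ε → μ {y | ¬ ∀ᶠ V : ℕ in atTop, ∑ t ∈ range V, H q (S^[t] y) ≤ ε * V} ≤
      ENNReal.ofReal ((∫ y, H q y ∂μ) / ε) := by
    intro q ε hε
    set E : Y → ℝ := μ[H q | MeasurableSpace.invariants S] with hE
    have hE0 : 0 ≤ᵐ[μ] E := condExp_nonneg (Eventually.of_forall fun z => hHn q z)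
    have hEi : Integrable E μ := integrable_condExp
    have hEint : ∫ z, E z ∂μ = ∫ z, H q z ∂μ := by
      rw [hE, integral_condExp (MeasurableSpace.invariants_le _)]
    have hmark := mul_meas_ge_le_integral_of_nonneg hE0 hEi ε
    rw [hEint] at hmark
    have hsub : {y | ¬ ∀ᶠ V : ℕ in atTop, ∑ t ∈ range V, H q (S^[t] y) ≤ ε * V} ≤ᵐ[μ] {z | ε ≤ E z} := by
      filter_upwards [hb q] with z hz hbad
      change ε ≤ E z
      by_contra hcon
      rw [not_le] at hcon
      apply hbad
      have h2 := (tendsto_order.1 hz).2 _ hcon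
      filter_upwards [h2, eventually_ge_atTop 1] with V hV hV1
      have hV0 : (0 : ℝ) < V := by exact_mod_cast hV1
      have h3 := hV.le
      rw [inv_mul_le_iff₀ hV0] at h3
      linarith
    calc μ {y | ¬ ∀ᶠ V : ℕ in atTop, ∑ t ∈ range V, H q (S^[t] y) ≤ ε * V}
        ≤ μ {z | ε ≤ E z} := measure_mono_ae hsub
      _ = ENNReal.ofReal (μ.real {z | ε ≤ E z}) := by rw [ofReal_measureReal]
      _ ≤ ENNReal.ofReal ((∫ y, H q y ∂μ) / ε) := by
          apply ENNReal.ofReal_le_ofReal
          rw [le_div_iff₀ hε, mul_comm]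
          exact hmark
  have hn : ∀ n : ℕ, ∀ᵐ y ∂μ, ∃ q : ℕ, 1 ≤ q ∧ ∀ᶠ V : ℕ in atTop,
      ∑ t ∈ range V, H q (S^[t] y) ≤ (1 / ((n : ℝ) + 1)) * V := by
    intro n
    rw [ae_iff]
    have hε : (0 : ℝ) < 1 / ((n : ℝ) + 1) := by positivity
    have hle : ∀ q : ℕ, μ {y | ¬ ∃ q : ℕ, 1 ≤ q ∧ ∀ᶠ V : ℕ in atTop,
        ∑ t ∈ range V, H q (S^[t] y) ≤ (1 / ((n : ℝ) + 1)) * V} ≤
        ENNReal.ofReal ((∫ y, H (q + 1) y ∂μ) / (1 / ((n : ℝ) + 1))) := by
      intro q
      refine le_trans (measure_mono ?_) (hbad (q + 1) _ hε)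
      intro y hy hcon
      exact hy ⟨q + 1, by omega, hcon⟩
    have hlim : Tendsto (fun q : ℕ => ENNReal.ofReal ((∫ y, H (q + 1) y ∂μ) / (1 / ((n : ℝ) + 1)))) atTop (𝓝 0) := by
      have h1 := ((tendsto_add_atTop_iff_nat 1).2 hint).div_const (1 / ((n : ℝ) + 1))
      rw [zero_div] at h1
      have h2 := ENNReal.tendsto_ofReal h1
      rwa [ENNReal.ofReal_zero] at h2
    exact le_antisymm (ge_of_tendsto' hlim hle) bot_le
  rw [← ae_all_iff] at hn
  filter_upwards [hn] with y hy ε hε
  obtain ⟨n, hn⟩ := exists_nat_one_div_lt hε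
  obtain ⟨q, hq1, hq⟩ := hy n
  refine ⟨q, hq1, ?_⟩
  filter_upwards [hq] with V hV
  refine hV.trans ?_
  gcongr

/-- one step of the telescope -/
lemma er_one (hTN : StmTN) {Y : Type*} [MeasurableSpace Y] {μ : Measure Y} [IsProbabilityMeasure μ] {S : Y → Y}
    (hS : MeasurePreserving S μ μ) (A : Set Y) (hA : MeasurableSet A)
    (hd : ∀ᵐ y ∂μ, ∃ t0, ∀ t, t0 ≤ t → t ≤ 2 * idx (bl S A y) t)
    (a : ℕ → ℕ) (f : ℕ → Y → ℂ) (C : ℝ) (r : ℕ) (har : 0 < a r) (hC : 1 ≤ C)
    (hf : ∀ j, Measurable (f j)) (hfb : ∀ j y, ‖f j y‖ ≤ C)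
    (hE : ∀ᵐ y ∂μ, Est (bl S A y) (fun t => f r (S^[t] y)) (uu S a f r (bl S A y) y) (C ^ (r + 1))) :
    ∀ᵐ y ∂μ, Tendsto (fun N : ℕ => (1 / (N : ℂ)) * ∑ n ∈ Finset.Icc 1 N,
      (f r (S^[tau (bl S A y) (a r * n)] y) - cA μ S A (f r) y) *
        ∏ j ∈ range r, f j (S^[tau (bl S A y) (a j * n)] y)) atTop (𝓝 0) := by
  set g := f r with hg
  set n1 : Y → ℂ := μ[A.indicator g | MeasurableSpace.invariants S] with hn1
  set e1 : Y → ℂ := μ[A.indicator (fun _ => (1 : ℂ)) | MeasurableSpace.invariants S] with he1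
  have hle := MeasurableSpace.invariants_le S
  set c : Y → ℂ := cA μ S A g with hc
  have hce : ∀ y, c y = n1 y / e1 y := fun y => rfl
  have hcm' : Measurable[MeasurableSpace.invariants S] c := by
    have h1 : Measurable[MeasurableSpace.invariants S] n1 := stronglyMeasurable_condExp.measurable
    have h2 : Measurable[MeasurableSpace.invariants S] e1 := stronglyMeasurable_condExp.measurable
    exact h1.div h2
  have hcS : ∀ y, c (S y) = c y := fun y => congrFun (MeasurableSpace.comp_eq_of_measurable_invariants hcm') y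
  have hcm : Measurable c := hcm'.mono hle le_rfl
  set c' : Y → ℂ := fun y => if ‖c y‖ ≤ 2 * C then c y else 0 with hc'
  have hc'm : Measurable c' := Measurable.ite (measurableSet_le hcm.norm measurable_const) hcm measurable_const
  have hc'S : ∀ y, c' (S y) = c' y := fun y => by simp only [hc', hcS]
  have hc'it : ∀ t y, c' (S^[t] y) = c' y := by
    intro t y
    induction t with
    | zero => rfl
    | succ t ih => rw [Function.iterate_succ_apply', hc'S, ih]
  have hc'b : ∀ y, ‖c' y‖ ≤ 2 * C := by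
    intro y
    simp only [hc']
    split_ifs with h
    · exact h
    · rw [norm_zero]; positivity
  have hAg : Measurable (A.indicator g) := (hf r).indicator hA
  have hAgb : ∀ y, ‖A.indicator g y‖ ≤ C := by
    intro y
    by_cases h : y ∈ A
    · rw [Set.indicator_of_mem h]; exact hfb r y
    · rw [Set.indicator_of_notMem h, norm_zero]; linarith
  have hbg := er_birk hS (A.indicator g) hAg C hAgb
  have hb1 := er_birk hS (A.indicator (fun _ => (1 : ℂ))) (measurable_const.indicator hA) 1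
    (fun x => by
      by_cases h : x ∈ A
      · simp [h]
      · simp [h])
  have hhalf := er_half hS A hA hd
  -- the function `c` is bounded
  have hcb : ∀ᵐ y ∂μ, ‖c y‖ ≤ 2 * C := by
    filter_upwards [hbg, hhalf] with y h1 h2
    have h3 : ‖n1 y‖ ≤ C := by
      refine le_of_tendsto h1.norm ?_
      filter_upwards [eventually_ge_atTop 1] with n hn
      have hn0 : (0 : ℝ) < n := by exact_mod_cast hn
      rw [norm_mul, norm_div, norm_one, Complex.norm_natCast, one_div_mul_eq_div, div_le_iff₀ hn0]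
      refine (norm_sum_le_of_le _ fun i _ => hAgb _).trans ?_
      rw [Finset.sum_const, Finset.card_range, nsmul_eq_mul, mul_comm]
    rw [hce, norm_div, div_le_iff₀ (by linarith)]
    nlinarith
  set v : Y → ℂ := A.indicator (fun y => g y - c' y) with hv
  have hvm : Measurable v := ((hf r).sub hc'm).indicator hA
  have hvb : ∀ y, ‖v y‖ ≤ 3 * C := by
    intro y
    simp only [hv]
    by_cases h : y ∈ A
    · rw [Set.indicator_of_mem h]
      refine (norm_sub_le _ _).trans ?_
      have := hfb r y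
      have := hc'b y
      simp only [hg]
      linarith
    · rw [Set.indicator_of_notMem h, norm_zero]; linarith
  have hv0 : ∀ᵐ y ∂μ, Tendsto (fun q : ℕ => (1 / (q : ℂ)) * ∑ i ∈ range q, v (S^[i] y)) atTop (𝓝 0) := by
    filter_upwards [hbg, hb1, hhalf, hcb] with y h1 h2 h3 h4
    have h5 := h1.sub (h2.mul_const (c y))
    have h3' : 1 / 2 ≤ ‖e1 y‖ := h3
    have h6 : n1 y - e1 y * c y = 0 := by
      rw [hce]
      have : e1 y ≠ 0 := by
        intro h0
        rw [h0, norm_zero] at h3'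
        norm_num at h3'
      field_simp
      ring
    have h7 : (μ[A.indicator g | MeasurableSpace.invariants S]) y -
      (μ[A.indicator (fun _ => (1 : ℂ)) | MeasurableSpace.invariants S]) y * c y = 0 := h6
    rw [h7] at h5
    refine h5.congr fun q => ?_
    rw [mul_assoc, ← mul_sub, Finset.sum_mul, ← Finset.sum_sub_distrib]
    congr 1
    refine Finset.sum_congr rfl fun i _ => ?_
    have e0 : c' (S^[i] y) = c y := by
      rw [hc'it]
      simp only [hc']
      rw [if_pos h4]
    simp only [hv]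
    by_cases h : S^[i] y ∈ A
    · rw [Set.indicator_of_mem h, Set.indicator_of_mem h, Set.indicator_of_mem h, one_mul, e0]
    · rw [Set.indicator_of_notMem h, Set.indicator_of_notMem h, Set.indicator_of_notMem h]
      ring
  have hsm := er_small hS v hvm (3 * C) hvb hv0
  filter_upwards [hsm, hE, hd, hcb] with y h1 h2 h3 h4
  obtain ⟨t0, ht0⟩ := h3
  set s := bl S A y with hs
  set W : ℕ → ℂ := fun n => ∏ j ∈ range r, f j (S^[tau s (a j * n)] y) with hW
  set G : ℕ → ℂ := fun t => g (S^[t] y) - c y with hG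
  have hCr : 1 ≤ C ^ r := one_le_pow₀ hC
  have hWb : ∀ n, ‖W n‖ ≤ C ^ r := by
    intro n
    simp only [hW]
    rw [norm_prod]
    calc ∏ j ∈ range r, ‖f j (S^[tau s (a j * n)] y)‖ ≤ ∏ _j ∈ range r, C :=
          Finset.prod_le_prod (fun _ _ => norm_nonneg _) fun j _ => hfb j _
      _ = C ^ r := by rw [Finset.prod_const, Finset.card_range]
  have hGb : ∀ t, ‖G t‖ ≤ 3 * C := by
    intro t
    simp only [hG]
    refine (norm_sub_le _ _).trans ?_
    have := hfb r (S^[t] y)
    simp only [hg]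
    linarith
  have hvv : ∀ t, vv s (fun t => g (S^[t] y)) (c y) t = v (S^[t] y) := by
    intro t
    have e0 : c' (S^[t] y) = c y := by
      rw [hc'it]
      simp only [hc']
      rw [if_pos h4]
    unfold vv
    simp only [hv]
    by_cases h : S^[t] y ∈ A
    · rw [if_pos ((er_bl S A y t).2 h), Set.indicator_of_mem h, e0]
    · rw [if_neg (fun h' => h ((er_bl S A y t).1 h')), Set.indicator_of_notMem h]
  set z : ℕ → ℂ := fun t => vv s (fun t => g (S^[t] y)) (c y) t * uu S a f r s y (idx s t) with hz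
  have hub : ∀ I, ‖uu S a f r s y I‖ ≤ C ^ r := by
    intro I
    unfold uu
    split_ifs with h
    · exact hWb _
    · rw [norm_zero]; linarith
  have hzb : ∀ t, ‖z t‖ ≤ 3 * C * C ^ r := by
    intro t
    simp only [hz]
    rw [norm_mul, hvv]
    exact mul_le_mul (hvb _) (hub _) (norm_nonneg _) (by linarith)
  have hfourth : Tendsto (fun l : ℕ => ‖∑ n ∈ range (l ^ 4), z n‖ / (l : ℝ) ^ 4) atTop (𝓝 0) := by
    rw [Metric.tendsto_atTop']
    intro δ hδ
    have hK : 0 < C ^ (r + 1) := by positivity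
    obtain ⟨q, hq1, hq⟩ := h1 (δ / (4 * C ^ (r + 1))) (by positivity)
    have hE' := h2 (c y) q (δ / 4) hq1 (by positivity)
    have h4t : Tendsto (fun l : ℕ => l ^ 4) atTop atTop := tendsto_pow_atTop (by norm_num)
    obtain ⟨N, hN⟩ := eventually_atTop.1 ((h4t.eventually hq).and (hE'.and (eventually_ge_atTop 1)))
    refine ⟨N, fun l hl => ?_⟩
    obtain ⟨hA1, hA2, hA3⟩ := hN l hl.le
    have hl0 : (0 : ℝ) < l := by exact_mod_cast hA3
    have hl4 : (0 : ℝ) < (l : ℝ) ^ 4 := by positivity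
    rw [Real.dist_eq, sub_zero, abs_of_nonneg (by positivity), div_lt_iff₀ hl4]
    have e1 : ∀ t ∈ range (l ^ 4), ‖(1 / (q : ℂ)) * ∑ i ∈ range q, vv s (fun t => g (S^[t] y)) (c y) (t + i)‖ =
        ‖(1 / (q : ℂ)) * ∑ i ∈ range q, v (S^[i] (S^[t] y))‖ := by
      intro t _
      congr 2
      refine Finset.sum_congr rfl fun i _ => ?_
      rw [hvv, ← Function.iterate_add_apply, add_comm]
    rw [Finset.sum_congr rfl e1] at hA2
    calc ‖∑ n ∈ range (l ^ 4), z n‖ ≤ _ := hA2
      _ ≤ C ^ (r + 1) * (δ / (4 * C ^ (r + 1)) * ((l ^ 4 : ℕ) : ℝ)) + δ / 4 * (l : ℝ) ^ 4 := by gcongr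
      _ = δ / 2 * (l : ℝ) ^ 4 := by push_cast; field_simp; ring
      _ < δ * (l : ℝ) ^ 4 := by
          apply mul_lt_mul_of_pos_right _ hl4
          linarith
  have hall := Pool.Agent.R205.PC.tendsto_of_fourth z _ hzb hfourth
  have hfin := hTN s G W (3 * C * C ^ r) (a r) t0 har ht0 (fun t => (hGb t).trans (by nlinarith))
    (fun n => (hWb n).trans (by nlinarith)) ?_
  · refine hfin.congr fun N => ?_
    rfl
  · refine hall.congr fun V => ?_
    congr 1
    refine Finset.sum_congr rfl fun t _ => ?_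
    simp only [hz]
    unfold vv uu
    by_cases h : s t = true
    · rw [if_pos h, if_pos h]
    · rw [if_neg h, if_neg h, zero_mul]

theorem partER (hTN : StmTN) : StmER.{u} := by
  intro Y _ μ _ S hS A hA hd m a f C ha hC hf hfb hE
  have h1 : ∀ r : ℕ, ∀ᵐ y ∂μ, r < m → Tendsto (fun N : ℕ => (1 / (N : ℂ)) * ∑ n ∈ Finset.Icc 1 N,
      (f r (S^[tau (bl S A y) (a r * n)] y) - cA μ S A (f r) y) *
        ∏ j ∈ range r, f j (S^[tau (bl S A y) (a j * n)] y)) atTop (𝓝 0) := by
    intro r
    by_cases hr : r < m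
    · filter_upwards [er_one hTN hS A hA hd a f C r (ha r hr) hC hf hfb (hE r hr)] with y hy _
      exact hy
    · exact Eventually.of_forall fun y h => absurd h hr
  rw [← ae_all_iff] at h1
  filter_upwards [h1] with y hy
  have h2 : Tendsto (fun N : ℕ => ∑ r ∈ range m, (∏ j ∈ Finset.Ico (r + 1) m, cA μ S A (f j) y) *
      ((1 / (N : ℂ)) * ∑ n ∈ Finset.Icc 1 N,
      (f r (S^[tau (bl S A y) (a r * n)] y) - cA μ S A (f r) y) *
        ∏ j ∈ range r, f j (S^[tau (bl S A y) (a j * n)] y))) atTop (𝓝 (∑ r ∈ range m, 0)) := by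
    refine tendsto_finsetSum _ fun r hr => ?_
    have := (hy r (Finset.mem_range.1 hr)).const_mul (∏ j ∈ Finset.Ico (r + 1) m, cA μ S A (f j) y)
    rwa [mul_zero] at this
  rw [Finset.sum_const_zero] at h2
  refine h2.congr fun N => ?_
  unfold dA
  have e1 : ∀ n ∈ Finset.Icc 1 N, (∏ j ∈ range m, f j (S^[tau (bl S A y) (a j * n)] y) -
      ∏ j ∈ range m, cA μ S A (f j) y) = ∑ r ∈ range m, (∏ j ∈ Finset.Ico (r + 1) m, cA μ S A (f j) y) *
        ((f r (S^[tau (bl S A y) (a r * n)] y) - cA μ S A (f r) y) *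
        ∏ j ∈ range r, f j (S^[tau (bl S A y) (a j * n)] y)) := by
    intro n _
    rw [Pool.Agent.R205.PC.prod_tele]
    exact Finset.sum_congr rfl fun r _ => by ring
  rw [Finset.sum_congr rfl e1, Finset.sum_comm, Finset.mul_sum]
  refine Finset.sum_congr rfl fun r _ => ?_
  rw [← Finset.mul_sum]
  ring

end Pool.Agent.H50.KI
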