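import Pool.Agent.H50.KI.Defs

/-!
# KI crew, part FL: the flips preserve the product of fair coins
-/

set_option autoImplicit false

open MeasureTheory

namespace Pool.Agent.H50.KI

private theorem fl_coin (t : Set Bool) : coin ((fun b => !b) ⁻¹' t) = coin t := by
  unfold coin
  have h1 : MeasurableSet t := MeasurableSet.of_discrete
  have h2 : MeasurableSet ((fun b : Bool => !b) ⁻¹' t) := MeasurableSet.of_discrete
  simp only [Measure.smul_apply, Measure.add_apply, Measure.dirac_apply' _ h1, Measure.dirac_apply' _ h2,
    smul_eq_mul]
  congr 1
  rw [add_comm]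
  rfl

theorem partFL : StmFL := by
  intro η
  have hm : Measurable (flip η) := by
    rw [measurable_pi_iff]
    intro i
    unfold flip
    by_cases h : i ∈ η
    · simp only [if_pos h]
      exact (measurable_of_countable (fun b : Bool => !b)).comp (measurable_pi_apply i)
    · simp only [if_neg h]
      exact measurable_pi_apply i
  refine ⟨hm, ?_⟩
  unfold PP
  apply Measure.eq_infinitePi
  intro s t ht
  rw [Measure.map_apply hm (MeasurableSet.pi s.countable_toSet fun j _ => ht j)]
  have hset : flip η ⁻¹' (Set.pi s t) =
      Set.pi s (fun i => if i ∈ η then (fun b : Bool => !b) ⁻¹' t i else t i) := by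
    ext θ
    simp only [Set.mem_preimage, Set.mem_pi]
    refine forall_congr' fun i => forall_congr' fun _ => ?_
    unfold flip
    by_cases h : i ∈ η
    · simp only [if_pos h, Set.mem_preimage]
    · simp only [if_neg h]
  rw [hset, Measure.infinitePi_pi]
  · refine Finset.prod_congr rfl fun i _ => ?_
    by_cases h : i ∈ η
    · simp only [if_pos h]
      exact fl_coin (t i)
    · simp only [if_neg h]
  · intro i _
    exact MeasurableSet.of_discrete

end Pool.Agent.H50.KI
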