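import Pool.Agent.H50.KI.AS1

/-!
# Exchange of the quantifiers (part FU)
-/

set_option autoImplicit false

open MeasureTheory Filter Topology
open scoped ENNReal

namespace Pool.Agent.H50.KI

universe u

lemma fu_bl {Y : Type*} (S : Y → Y) (M : Set Y) (ξ : Y → ℕ) (θ : ℕ → Bool) (y : Y) :
    bl S (Aset M ξ θ) y = al (bl S M y) (fun t => ξ (S^[t] y)) θ := by
  funext t
  unfold bl al Aset
  by_cases h1 : S^[t] y ∈ M
  · cases h2 : θ (ξ (S^[t] y)) <;> simp [h1, h2]
  · simp [h1]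

lemma fu_tau_eq_iff (s : ℕ → Bool) (n k : ℕ) : tau s n = k ↔
    (n ≤ idx s k ∧ ∀ j < k, ¬ n ≤ idx s j) ∨ (k = 0 ∧ ∀ j, ¬ n ≤ idx s j) := by
  unfold tau
  by_cases hne : {t | n ≤ idx s t}.Nonempty
  · constructor
    · rintro rfl
      refine Or.inl ⟨Nat.sInf_mem hne, fun j hj hn => ?_⟩
      exact Nat.notMem_of_lt_sInf hj hn
    · rintro (⟨h1, h2⟩ | ⟨_, h2⟩)
      · refine le_antisymm (Nat.sInf_le h1) ?_
        by_contra hlt
        push Not at hlt
        exact h2 _ hlt (Nat.sInf_mem hne)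
      · obtain ⟨t, ht⟩ := hne
        exact absurd ht (h2 t)
  · have hem : {t | n ≤ idx s t} = ∅ := Set.not_nonempty_iff_eq_empty.1 hne
    rw [hem, Nat.sInf_empty]
    have hall : ∀ j, ¬ n ≤ idx s j := fun j hj => by
      have : j ∈ ({t | n ≤ idx s t} : Set ℕ) := hj
      rw [hem] at this
      exact this
    constructor
    · rintro rfl
      exact Or.inr ⟨rfl, hall⟩
    · rintro (⟨h1, _⟩ | ⟨h1, _⟩)
      · exact absurd h1 (hall k)
      · exact h1.symm

lemma fu_tau_congr {s s' : ℕ → Bool} {t n : ℕ} (h : ∀ i, 1 ≤ i → i ≤ t → s i = s' i) (hn : n ≤ idx s t) :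
    tau s n = tau s' n := by
  have hi : ∀ j ≤ t, idx s j = idx s' j := fun j hj => idx_congr fun i h1 h2 => h i h1 (h2.trans hj)
  symm
  rw [fu_tau_eq_iff]
  left
  have hle : tau s n ≤ t := Nat.sInf_le hn
  have hmem : n ≤ idx s (tau s n) := Nat.sInf_mem (s := {t | n ≤ idx s t}) ⟨t, hn⟩
  refine ⟨by rw [← hi _ hle]; exact hmem, fun j hj hj' => ?_⟩
  rw [← hi j (by omega)] at hj'
  exact Nat.notMem_of_lt_sInf (s := {t | n ≤ idx s t}) hj hj'

lemma fu_measurable_tau {Ω : Type*} [MeasurableSpace Ω] (s : Ω → ℕ → Bool) (hs : ∀ t, Measurable fun w => s w t)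
    (n : ℕ) : Measurable fun w => tau (s w) n := by
  refine measurable_to_countable' fun k => ?_
  have h0 : ∀ j, MeasurableSet {w | n ≤ idx (s w) j} := fun j =>
    measurableSet_le measurable_const (measurable_idx s hs j)
  have h1 : (fun w => tau (s w) n) ⁻¹' {k} =
      ({w | n ≤ idx (s w) k} ∩ ⋂ j : ℕ, ⋂ _ : j < k, {w | n ≤ idx (s w) j}ᶜ) ∪
        (if k = 0 then ⋂ j : ℕ, {w | n ≤ idx (s w) j}ᶜ else ∅) := by
    ext w
    rw [Set.mem_preimage, Set.mem_singleton_iff, fu_tau_eq_iff]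
    split_ifs with hk
    · simp [hk]
    · simp [hk]
  rw [h1]
  refine MeasurableSet.union ((h0 k).inter (MeasurableSet.iInter fun j => MeasurableSet.iInter fun _ => (h0 j).compl)) ?_
  split_ifs
  · exact MeasurableSet.iInter fun j => (h0 j).compl
  · exact MeasurableSet.empty

lemma fu_measurable_uu {Y Ω : Type*} [MeasurableSpace Y] [MeasurableSpace Ω] {S : Y → Y} (hS : Measurable S)
    (a : ℕ → ℕ) {f : ℕ → Y → ℂ} (hf : ∀ j, Measurable (f j)) (r : ℕ) (s : Ω → ℕ → Bool)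
    (hs : ∀ t, Measurable fun w => s w t) (g : Ω → Y) (hg : Measurable g) (I : ℕ) :
    Measurable fun w => uu S a f r (s w) (g w) I := by
  unfold uu
  split_ifs
  · refine Finset.measurable_fun_prod _ fun j _ => ?_
    have h1 : Measurable fun p : Y × ℕ => f j (S^[p.2] p.1) :=
      measurable_from_prod_countable_left fun n => (hf j).comp (hS.iterate n)
    exact h1.comp (hg.prodMk (fu_measurable_tau s hs _))
  · exact measurable_const

lemma fu_bl_meas {Y : Type*} [MeasurableSpace Y] {S : Y → Y} (hS : Measurable S) {M : Set Y} (hM : MeasurableSet M)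
    {ξ : Y → ℕ} (hξ : Measurable ξ) (t : ℕ) :
    Measurable fun p : (ℕ → Bool) × Y => bl S (Aset M ξ p.1) p.2 t := by
  refine measurable_to_bool ?_
  have h1 : (fun p : (ℕ → Bool) × Y => bl S (Aset M ξ p.1) p.2 t) ⁻¹' {true} =
      ({p : (ℕ → Bool) × Y | S^[t] p.2 ∈ M} ∩ {p : (ℕ → Bool) × Y | p.1 (ξ (S^[t] p.2)) = true})ᶜ := by
    ext p
    unfold bl Aset
    simp
  rw [h1]
  refine (MeasurableSet.inter ?_ ?_).compl
  · exact ((hS.iterate t).comp measurable_snd) hM
  · have h2 : Measurable fun q : (ℕ → Bool) × ℕ => q.1 q.2 :=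
      measurable_from_prod_countable_left fun n => measurable_pi_apply n
    exact (h2.comp (measurable_fst.prodMk (hξ.comp ((hS.iterate t).comp measurable_snd))))
      (measurableSet_singleton true)

/-- the inequality in `Est` -/
def FuIneq (s : ℕ → Bool) (F w : ℕ → ℂ) (C : ℝ) (c : ℂ) (q : ℕ) (ε : ℝ) (l : ℕ) : Prop :=
  ‖∑ t ∈ Finset.range (l ^ 4), vv s F c t * w (idx s t)‖ ≤
      C * ∑ t ∈ Finset.range (l ^ 4), ‖(1 / (q : ℂ)) * ∑ i ∈ Finset.range q, vv s F c (t + i)‖ + ε * (l : ℝ) ^ 4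

/-- `Est` for a countable family of the parameters -/
def FuEst (s : ℕ → Bool) (F w : ℕ → ℂ) (C : ℝ) : Prop :=
  ∀ i q n : ℕ, ∃ l0 : ℕ, ∀ l : ℕ, l0 ≤ l →
    FuIneq s F w C (TopologicalSpace.denseSeq ℂ i) (q + 1) (1 / ((n : ℝ) + 1)) l

lemma fu_vv_sub (s : ℕ → Bool) (F : ℕ → ℂ) (c c' : ℂ) (t : ℕ) : ‖vv s F c t - vv s F c' t‖ ≤ ‖c - c'‖ := by
  unfold vv
  split_ifs
  · rw [show F t - c - (F t - c') = -(c - c') by ring, norm_neg]
  · simp

lemma fu_est {s : ℕ → Bool} {F w : ℕ → ℂ} {C W : ℝ} (hC : 0 ≤ C) (hw : ∀ I, ‖w I‖ ≤ W) (h : FuEst s F w C) :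
    Est s F w C := by
  intro c q ε hq hε
  have hW : 0 ≤ W := (norm_nonneg _).trans (hw 0)
  obtain ⟨δ, hδ0, hδ⟩ : ∃ δ : ℝ, 0 < δ ∧ δ * (W + C) ≤ ε / 2 := by
    refine ⟨ε / (2 * (W + C + 1)), by positivity, ?_⟩
    rw [div_mul_eq_mul_div, div_le_div_iff₀ (by positivity) (by norm_num)]
    nlinarith
  obtain ⟨i, hi⟩ : ∃ i, dist c (TopologicalSpace.denseSeq ℂ i) < δ := by
    have := (TopologicalSpace.denseRange_denseSeq ℂ).exists_dist_lt c hδ0
    exact this
  set c' := TopologicalSpace.denseSeq ℂ i with hc'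
  have hcc : ‖c - c'‖ ≤ δ := by rw [← dist_eq_norm]; exact hi.le
  obtain ⟨n, hn⟩ := exists_nat_one_div_lt (half_pos hε)
  obtain ⟨q', rfl⟩ : ∃ q', q = q' + 1 := ⟨q - 1, by omega⟩
  obtain ⟨l0, hl0⟩ := h i q' n
  filter_upwards [eventually_ge_atTop l0] with l hl
  have h1 := hl0 l hl
  unfold FuIneq at h1
  rw [← hc'] at h1
  have hcard : ((Finset.range (l ^ 4)).card : ℝ) = (l : ℝ) ^ 4 := by simp
  have h2 : ‖∑ t ∈ Finset.range (l ^ 4), vv s F c t * w (idx s t)‖ ≤
      ‖∑ t ∈ Finset.range (l ^ 4), vv s F c' t * w (idx s t)‖ + (l : ℝ) ^ 4 * (δ * W) := by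
    have h3 : ∑ t ∈ Finset.range (l ^ 4), vv s F c t * w (idx s t) =
        ∑ t ∈ Finset.range (l ^ 4), vv s F c' t * w (idx s t) +
          ∑ t ∈ Finset.range (l ^ 4), (vv s F c t - vv s F c' t) * w (idx s t) := by
      rw [← Finset.sum_add_distrib]
      exact Finset.sum_congr rfl fun t _ => by ring
    rw [h3]
    refine (norm_add_le _ _).trans (add_le_add le_rfl ?_)
    refine (norm_sum_le _ _).trans ?_
    refine (Finset.sum_le_card_nsmul _ _ (δ * W) fun t _ => ?_).trans ?_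
    · rw [norm_mul]
      exact mul_le_mul ((fu_vv_sub s F c c' t).trans hcc) (hw _) (norm_nonneg _) hδ0.le
    · rw [nsmul_eq_mul, hcard]
  have h4 : ∑ t ∈ Finset.range (l ^ 4), ‖(1 / ((q' + 1 : ℕ) : ℂ)) * ∑ i ∈ Finset.range (q' + 1), vv s F c' (t + i)‖ ≤
      ∑ t ∈ Finset.range (l ^ 4), ‖(1 / ((q' + 1 : ℕ) : ℂ)) * ∑ i ∈ Finset.range (q' + 1), vv s F c (t + i)‖ +
        (l : ℝ) ^ 4 * δ := by
    have h5 : (l : ℝ) ^ 4 * δ = ∑ t ∈ Finset.range (l ^ 4), δ := by
      rw [Finset.sum_const, nsmul_eq_mul, hcard]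
    rw [h5, ← Finset.sum_add_distrib]
    refine Finset.sum_le_sum fun t _ => ?_
    have h6 : (1 / ((q' + 1 : ℕ) : ℂ)) * ∑ i ∈ Finset.range (q' + 1), vv s F c' (t + i) =
        (1 / ((q' + 1 : ℕ) : ℂ)) * ∑ i ∈ Finset.range (q' + 1), vv s F c (t + i) +
          (1 / ((q' + 1 : ℕ) : ℂ)) * ∑ i ∈ Finset.range (q' + 1), (vv s F c' (t + i) - vv s F c (t + i)) := by
      rw [← mul_add, ← Finset.sum_add_distrib]
      congr 1
      exact Finset.sum_congr rfl fun t _ => by ring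
    rw [h6]
    refine (norm_add_le _ _).trans (add_le_add le_rfl ?_)
    rw [norm_mul]
    have h7 : ‖∑ i ∈ Finset.range (q' + 1), (vv s F c' (t + i) - vv s F c (t + i))‖ ≤ ((q' + 1 : ℕ) : ℝ) * δ := by
      refine (norm_sum_le _ _).trans ?_
      refine (Finset.sum_le_card_nsmul _ _ δ fun i _ => ?_).trans ?_
      · refine (fu_vv_sub s F c' c (t + i)).trans ?_
        rw [norm_sub_rev]; exact hcc
      · rw [nsmul_eq_mul, Finset.card_range]
    have h8 : ‖(1 / ((q' + 1 : ℕ) : ℂ))‖ = 1 / ((q' + 1 : ℕ) : ℝ) := by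
      rw [norm_div, norm_one, Complex.norm_natCast]
    rw [h8]
    have hpos : (0 : ℝ) < ((q' + 1 : ℕ) : ℝ) := by positivity
    calc 1 / ((q' + 1 : ℕ) : ℝ) * ‖∑ i ∈ Finset.range (q' + 1), (vv s F c' (t + i) - vv s F c (t + i))‖
        ≤ 1 / ((q' + 1 : ℕ) : ℝ) * (((q' + 1 : ℕ) : ℝ) * δ) := by gcongr
      _ = δ := by field_simp
  have h9 : (1 : ℝ) / ((n : ℝ) + 1) * (l : ℝ) ^ 4 ≤ ε / 2 * (l : ℝ) ^ 4 := by gcongr
  have h10 : (l : ℝ) ^ 4 * (δ * (W + C)) ≤ (l : ℝ) ^ 4 * (ε / 2) := by gcongr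
  have h11 := mul_le_mul_of_nonneg_left h4 hC
  rw [mul_add] at h11
  nlinarith [h1, h2, h11, h9, h10]

lemma fu_of_est {s : ℕ → Bool} {F w : ℕ → ℂ} {C : ℝ} (h : Est s F w C) : FuEst s F w C := by
  intro i q n
  have h1 := h (TopologicalSpace.denseSeq ℂ i) (q + 1) (1 / ((n : ℝ) + 1)) (by omega) (by positivity)
  rw [eventually_atTop] at h1
  exact h1

lemma fu_measurableSet {Ω : Type*} [MeasurableSpace Ω] (s : Ω → ℕ → Bool) (hs : ∀ t, Measurable fun p => s p t)
    (F : Ω → ℕ → ℂ) (hF : ∀ t, Measurable fun p => F p t) (w : Ω → ℕ → ℂ) (hw : ∀ I, Measurable fun p => w p I)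
    (C : ℝ) : MeasurableSet {p : Ω | FuEst (s p) (F p) (w p) C} := by
  unfold FuEst
  simp only [Set.ofPred_forall, Set.ofPred_exists]
  refine MeasurableSet.iInter fun i => MeasurableSet.iInter fun q => MeasurableSet.iInter fun n =>
    MeasurableSet.iUnion fun l0 => MeasurableSet.iInter fun l => MeasurableSet.iInter fun _ => ?_
  unfold FuIneq
  have hvv : ∀ (c : ℂ) (t : ℕ), Measurable fun p => vv (s p) (F p) c t := by
    intro c t
    unfold vv
    exact Measurable.ite (hs t (measurableSet_singleton true)) ((hF t).sub measurable_const) measurable_const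
  have hwi : ∀ t, Measurable fun p => w p (idx (s p) t) := by
    intro t
    have h1 : Measurable fun z : Ω × ℕ => w z.1 z.2 := measurable_from_prod_countable_left fun I => hw I
    exact h1.comp (measurable_id.prodMk (measurable_idx s hs t))
  refine measurableSet_le ?_ ?_
  · exact (Finset.measurable_fun_sum _ fun t _ => (hvv _ t).mul (hwi t)).norm
  · refine Measurable.add (measurable_const.mul (Finset.measurable_fun_sum _ fun t _ => ?_)) measurable_const
    exact (measurable_const.mul (Finset.measurable_fun_sum _ fun i _ => hvv _ (t + i))).norm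

theorem partFU (hAS : StmAS) : StmFU.{u} := by
  intro Y _ μ _ S hS M ξ k0 hM hξ hgood a f C r hr har hC hf hfb
  have hC0 : (0 : ℝ) ≤ C := by linarith
  have hCr : (0 : ℝ) ≤ C ^ (r + 1) := by positivity
  have huub : ∀ (s : ℕ → Bool) (y : Y) (I : ℕ), ‖uu S a f r s y I‖ ≤ C ^ (r + 1) := by
    intro s y I
    unfold uu
    split_ifs
    · rw [norm_prod]
      calc ∏ j ∈ Finset.range r, ‖f j (S^[tau s (a j * (I / a r))] y)‖ ≤ ∏ _j ∈ Finset.range r, C :=
            Finset.prod_le_prod (fun _ _ => norm_nonneg _) fun j _ => hfb j _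
        _ = C ^ r := by rw [Finset.prod_const, Finset.card_range]
        _ ≤ C ^ (r + 1) := pow_le_pow_right₀ hC (by omega)
    · rw [norm_zero]; exact hCr
  have hset : MeasurableSet {p : (ℕ → Bool) × Y | FuEst (bl S (Aset M ξ p.1) p.2) (fun t => f r (S^[t] p.2))
      (uu S a f r (bl S (Aset M ξ p.1) p.2) p.2) (C ^ (r + 1))} := by
    refine fu_measurableSet (fun p : (ℕ → Bool) × Y => bl S (Aset M ξ p.1) p.2) (fun t => fu_bl_meas hS hM hξ t)
      (fun p t => f r (S^[t] p.2)) (fun t => (hf r).comp ((hS.iterate t).comp measurable_snd))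
      (fun p => uu S a f r (bl S (Aset M ξ p.1) p.2) p.2) (fun I => ?_) _
    exact fu_measurable_uu hS a hf r (fun p : (ℕ → Bool) × Y => bl S (Aset M ξ p.1) p.2)
      (fun t => fu_bl_meas hS hM hξ t) (fun p => p.2) measurable_snd I
  suffices H : ∀ᵐ θ ∂PP, ∀ᵐ y ∂μ, FuEst (bl S (Aset M ξ θ) y) (fun t => f r (S^[t] y))
      (uu S a f r (bl S (Aset M ξ θ) y) y) (C ^ (r + 1)) by
    filter_upwards [H] with θ hθ
    filter_upwards [hθ] with y hy
    exact fu_est hCr (fun I => huub _ _ I) hy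
  rw [Measure.ae_ae_comm hset]
  filter_upwards [hgood] with y hy
  set mk := bl S M y with hmk
  set lab := fun t => ξ (S^[t] y) with hlab
  have key : ∀ᵐ θ ∂PP, Est (al mk lab θ) (fun t => f r (S^[t] y)) (uu S a f r (al mk lab θ) y) (C ^ (r + 1)) := by
    refine hAS k0 (a r) ((Finset.range r).sup a) mk lab (fun t => f r (S^[t] y))
      (fun θ => uu S a f r (al mk lab θ) y) (C ^ (r + 1)) hy.1 hy.2 ?_ hCr ?_ (fun θ I => huub _ _ I) ?_ ?_
    · rw [Finset.sup_lt_iff har]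
      intro j hj
      exact hr j (Finset.mem_range.1 hj)
    · intro t
      refine (hfb r _).trans ?_
      calc C = C ^ 1 := (pow_one C).symm
        _ ≤ C ^ (r + 1) := pow_le_pow_right₀ hC (by omega)
    · intro I
      exact fu_measurable_uu hS a hf r (fun θ => al mk lab θ) (measurable_al mk lab) (fun _ => y) measurable_const I
    · intro θ θ' I t hag hle
      change uu S a f r (al mk lab θ) y I = uu S a f r (al mk lab θ') y I
      unfold uu
      split_ifs with hdvd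
      · obtain ⟨n, rfl⟩ := hdvd
        rw [Nat.mul_div_cancel_left _ har]
        refine Finset.prod_congr rfl fun j hj => ?_
        have hj' : a j ≤ (Finset.range r).sup a := Finset.le_sup hj
        have h1 : a j * n ≤ idx (al mk lab θ) t := by
          have h2 : a r * ((Finset.range r).sup a * n) ≤ a r * idx (al mk lab θ) t := by
            calc a r * ((Finset.range r).sup a * n) = (Finset.range r).sup a * (a r * n) := by ring
              _ ≤ _ := hle
          have h3 := Nat.le_of_mul_le_mul_left h2 har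
          exact (Nat.mul_le_mul_right n hj').trans h3
        rw [fu_tau_congr (s := al mk lab θ) (s' := al mk lab θ') (t := t)
          (fun i _ hi => al_congr (hag i hi)) h1]
      · rfl
  filter_upwards [key] with θ hθ
  rw [fu_bl]
  exact fu_of_est hθ

end Pool.Agent.H50.KI
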