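import Pool.Agent.H50.KI.TN

/-!
# Part IN: iterates of the induced map
-/

set_option autoImplicit false

open MeasureTheory Filter Topology
open scoped ENNReal

namespace Pool.Agent.H50.KI

universe u

theorem in_bl {X : Type*} (T : X → X) (A : Set X) (x : X) (t : ℕ) : bl T A x t = true ↔ T^[t] x ∈ A := by
  classical
  unfold bl
  simp only [decide_eq_true_eq]

theorem partIN : StmIN.{u} := by
  intro X T A x hx n
  have hex : ∀ n, ∃ t, n ≤ idx (bl T A x) t := fun n => hx n
  induction n with
  | zero =>
    have : tau (bl T A x) 0 = 0 := by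
      have := cl_tau_le (s := bl T A x) (n := 0) (t := 0) (Nat.zero_le _)
      omega
    rw [this]
    rfl
  | succ n ih =>
    rw [Function.iterate_succ_apply', ih]
    set s := bl T A x with hs
    set t := tau s n with ht
    obtain ⟨t1, h1⟩ := hex n
    obtain ⟨t2, h2⟩ := hex (n + 1)
    have e1 : idx s t = n := cl_idx_tau h1
    have e2 : idx s (tau s (n + 1)) = n + 1 := cl_idx_tau h2
    have hs2 := tn_s_tau h2 (by omega)
    have hlt : t < tau s (n + 1) := by
      by_contra hc
      rw [not_lt] at hc
      have := cl_idx_mono s hc
      omega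
    have hret : ret T A (T^[t] x) = tau s (n + 1) - t := by
      unfold ret
      refine le_antisymm (Nat.sInf_le ?_) ?_
      · refine ⟨by omega, ?_⟩
        rw [← Function.iterate_add_apply, Nat.sub_add_cancel hlt.le]
        exact (in_bl T A x _).1 hs2.2
      · have hne : {k | 1 ≤ k ∧ T^[k] (T^[t] x) ∈ A}.Nonempty := by
          refine ⟨tau s (n + 1) - t, by omega, ?_⟩
          rw [← Function.iterate_add_apply, Nat.sub_add_cancel hlt.le]
          exact (in_bl T A x _).1 hs2.2
        have hm := Nat.sInf_mem hne
        set k := sInf {k | 1 ≤ k ∧ T^[k] (T^[t] x) ∈ A} with hk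
        have hsk : s (t + k) = true := by
          have h3 := hm.2
          rw [← Function.iterate_add_apply, add_comm] at h3
          exact (in_bl T A x _).2 h3
        have h4 : n + 1 ≤ idx s (t + k) := by
          obtain ⟨j, hj⟩ : ∃ j, t + k = j + 1 := ⟨t + k - 1, by have := hm.1; omega⟩
          rw [hj] at hsk ⊢
          rw [cl_idx_succ, if_pos hsk]
          have h5 := cl_idx_mono s (show t ≤ j by have := hm.1; omega)
          omega
        have h6 := cl_tau_le h4
        omega
    unfold induced
    rw [hret, ← Function.iterate_add_apply, Nat.sub_add_cancel hlt.le]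

end Pool.Agent.H50.KI
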