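import Pool.Agent.H50.KI.Defs
import Pool.Graph.R_seed8.R205.PC.Label

/-!
# KI part MK: a small set of marked points with fresh labels
-/

set_option autoImplicit false

open MeasureTheory Filter Topology Set
open scoped ENNReal

namespace Pool.Agent.H50.KI

open Pool.Agent.R205.PC (Gd Qc meas_Qc Qc_sep Mk meas_Mk Mk_meas Mk_window Mk_disj ex_rat_sep)

universe u

/-- marker sets with fresh labels at every scale -/
theorem mk_exists {Y : Type u} [MeasurableSpace Y] [StandardBorelSpace Y] (μ : Measure Y)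
    [IsProbabilityMeasure μ] (S : Y ≃ᵐ Y)
    (hS : MeasurePreserving S μ μ) (hap : ∀ᵐ y ∂μ, ∀ n : ℕ, 0 < n → S^[n] y ≠ y)
    (L : ℕ → ℕ) (hL : Monotone L) :
    ∃ (M : ℕ → Set Y) (ξ : Y → ℕ), (∀ k, MeasurableSet (M k)) ∧ Measurable ξ ∧
      (∀ k, μ (M k) ≤ (1 / 2 : ℝ≥0∞) ^ k) ∧ ∀ᵐ y ∂μ,
      (∀ k a : ℕ, ∃ t, a ≤ t ∧ t ≤ a + 2 * 2 ^ k ∧ S^[t] y ∈ M k ∧
        ∀ s, s ≠ t → s ≤ t + L k → t ≤ s + L k → ξ (S^[s] y) ≠ ξ (S^[t] y)) ∧
      (∀ k i j : ℕ, i < j → j ≤ i + 2 ^ k → S^[i] y ∈ M k → S^[j] y ∉ M k) := by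
  classical
  set v : Y → ℝ := embeddingReal Y with hv
  have hvm : Measurable v := (measurableEmbedding_embeddingReal Y).measurable
  have hvi : Function.Injective v := (measurableEmbedding_embeddingReal Y).injective
  obtain ⟨e, he⟩ := exists_surjective_nat (ℚ × ℚ)
  set D : ℕ → Set Y := fun i => {z | ((e i).1 : ℝ) < v z ∧ v z < (e i).2} with hD
  have hDm : ∀ i, MeasurableSet (D i) := fun i =>
    (measurableSet_lt measurable_const hvm).inter (measurableSet_lt hvm measurable_const)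
  have hexG : ∀ y : Y, (∀ n : ℕ, 0 < n → S^[n] y ≠ y) → ∀ L, ∃ i, Gd S D L y i := by
    intro y hy L
    have hnot : v y ∉ (Finset.Icc 1 L).image (fun j => v (S^[j] y)) := by
      intro h
      obtain ⟨j, hj, hj'⟩ := Finset.mem_image.1 h
      exact hy j (by rw [Finset.mem_Icc] at hj; omega) (hvi hj')
    obtain ⟨i, h1, h2, h3⟩ := ex_rat_sep he _ y hnot
    refine ⟨i, ⟨h1, h2⟩, fun j hj hmem => ?_⟩
    exact h3 _ (Finset.mem_image_of_mem _ hj) hmem
  -- aperiodicity along the whole orbit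
  have hap' : ∀ᵐ y ∂μ, ∀ t n : ℕ, 0 < n → S^[n] (S^[t] y) ≠ S^[t] y := by
    rw [ae_all_iff]
    intro t
    exact (hS.iterate t).quasiMeasurePreserving.ae hap
  set q : ℕ → Y → ℕ := fun l => Qc S D l with hq
  have hqm : ∀ l, Measurable (q l) := fun l => meas_Qc S D hDm l
  have hsep : ∀ᵐ y ∂μ, ∀ l t j : ℕ, 1 ≤ j → j ≤ l → q l (S^[t] y) ≠ q l (S^[j] (S^[t] y)) := by
    filter_upwards [hap'] with y hy l t j h1 h2
    refine Qc_sep S D (hexG _ (hy t) l) (hexG _ ?_ l) h1 h2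
    intro n hn
    have := hy (j + t) n hn
    rw [Function.iterate_add_apply S j t] at this
    exact this
  set M : ℕ → Set Y := fun k => Mk S (q (2 ^ k)) (2 ^ k) with hM
  have hMm : ∀ k, MeasurableSet (M k) := fun k => meas_Mk S _ _ (hqm _)
  have hMle : ∀ k, μ (M k) ≤ (1 / 2 : ℝ≥0∞) ^ k := by
    intro k
    have h1 := Mk_meas S (q (2 ^ k)) (2 ^ k) μ hS (hqm _) (by
      filter_upwards [hsep] with y hy t j h1 h2
      exact hy _ t j h1 h2)
    have h2 : μ (M k) * 2 ^ k ≤ 1 := by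
      refine le_trans ?_ h1
      gcongr
      push_cast
      exact le_self_add
    have h3 : μ (M k) ≤ 1 / 2 ^ k := ENNReal.le_div_iff_mul_le (Or.inl (by simp)) (Or.inl (by finiteness)) |>.2 h2
    rw [one_div, ← ENNReal.inv_pow]
    rw [one_div] at h3
    exact h3
  have hsum : ∑' k, μ (M k) ≠ ∞ := by
    refine ne_top_of_le_ne_top ?_ (ENNReal.tsum_le_tsum hMle)
    rw [ENNReal.tsum_geometric, one_div, ENNReal.one_sub_inv_two, inv_inv]
    exact ENNReal.ofNat_ne_top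
  have hfin : ∀ᵐ y ∂μ, ∃ K, ∀ k, K ≤ k → y ∉ M k := by
    filter_upwards [ae_eventually_notMem hsum] with y hy
    exact eventually_atTop.1 hy
  -- the level
  have hex : ∀ y : Y, ∃ K, (∀ k, K ≤ k → y ∉ M k) ∨ ¬ ∃ K', ∀ k, K' ≤ k → y ∉ M k := by
    intro y
    by_cases h : ∃ K, ∀ k, K ≤ k → y ∉ M k
    · obtain ⟨K, hK⟩ := h
      exact ⟨K, Or.inl hK⟩
    · exact ⟨0, Or.inr h⟩
  set lev : Y → ℕ := fun y => Nat.find (hex y) with hlev
  have hset : ∀ K, MeasurableSet {y | ∀ k, K ≤ k → y ∉ M k} := by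
    intro K
    have : {y | ∀ k, K ≤ k → y ∉ M k} = ⋂ k, ⋂ (_ : K ≤ k), (M k)ᶜ := by
      ext y; simp
    rw [this]
    exact MeasurableSet.iInter fun k => MeasurableSet.iInter fun _ => (hMm k).compl
  have hlevm : Measurable lev := by
    refine measurable_find hex fun K => ?_
    have : {y | (∀ k, K ≤ k → y ∉ M k) ∨ ¬ ∃ K', ∀ k, K' ≤ k → y ∉ M k} =
        {y | ∀ k, K ≤ k → y ∉ M k} ∪ (⋃ K', {y | ∀ k, K' ≤ k → y ∉ M k})ᶜ := by
      ext y; simp
    rw [this]
    exact (hset K).union (MeasurableSet.iUnion hset).compl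
  have hlev_lt : ∀ y k, (∃ K, ∀ k, K ≤ k → y ∉ M k) → y ∈ M k → k < lev y := by
    intro y k h hk
    have h1 := Nat.find_spec (hex y)
    rcases h1 with h1 | h1
    · by_contra hcon
      exact h1 k (not_lt.1 hcon) hk
    · exact absurd h h1
  refine ⟨M, fun y => Nat.pair (lev y) (q (L (lev y)) y), hMm, ?_, hMle, ?_⟩
  · have h1 : Measurable (fun p : ℕ × Y => q (L p.1) p.2) :=
      measurable_from_prod_countable_right fun k => hqm (L k)
    have h2 : Measurable (fun y => q (L (lev y)) y) := h1.comp (hlevm.prodMk measurable_id)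
    have h3 : Measurable (fun p : ℕ × ℕ => Nat.pair p.1 p.2) := Measurable.of_discrete
    exact h3.comp (hlevm.prodMk h2)
  · have hfin' : ∀ᵐ y ∂μ, ∀ t, ∃ K, ∀ k, K ≤ k → S^[t] y ∉ M k := by
      rw [ae_all_iff]
      intro t
      exact (hS.iterate t).quasiMeasurePreserving.ae hfin
    filter_upwards [hsep, hfin'] with y hy hf
    refine ⟨fun k a => ?_, fun k i j hij hj hi hj' => ?_⟩
    · obtain ⟨t, ht1, ht2, ht3⟩ := Mk_window S (q (2 ^ k)) (2 ^ k) y a
      refine ⟨t, ht1, ht2, ht3, fun s hst hs1 hs2 heq => ?_⟩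
      have hlt : k < lev (S^[t] y) := hlev_lt _ k (hf t) ht3
      rw [Nat.pair_eq_pair] at heq
      obtain ⟨he1, he2⟩ := heq
      rw [he1] at he2
      have hLk : L k ≤ L (lev (S^[t] y)) := hL hlt.le
      rcases lt_or_gt_of_ne hst with h | h
      · have := hy (L (lev (S^[t] y))) s (t - s) (by omega) (by omega)
        rw [← Function.iterate_add_apply, show t - s + s = t by omega] at this
        exact this he2
      · have := hy (L (lev (S^[t] y))) t (s - t) (by omega) (by omega)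
        rw [← Function.iterate_add_apply, show s - t + t = s by omega] at this
        exact this he2.symm
    · have e1 : S^[j] y = S^[j - i] (S^[i] y) := by
        rw [← Function.iterate_add_apply]; congr 1; omega
      rw [e1] at hj'
      exact Mk_disj S _ _ (by omega : 1 ≤ j - i) (by omega : j - i ≤ 2 ^ k)
        (hy (2 ^ k) i (j - i) (by omega) (by omega)) hi hj'

/-- a set of natural numbers with gaps `> d` has at most `t / d + 1` elements in `[1, t]` -/
lemma mk_count (A : Finset ℕ) (t d : ℕ) (hd : 0 < d) (hA : ∀ i ∈ A, i ≤ t)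
    (hgap : ∀ i ∈ A, ∀ j ∈ A, i < j → i + d < j) : A.card ≤ t / d + 1 := by
  have h := Finset.card_le_card_of_injOn (s := A) (t := Finset.range (t / d + 1)) (fun i => i / d)
    (fun i hi => by
      simp only [Finset.coe_range, mem_Iio]
      exact Nat.lt_succ_of_le (Nat.div_le_div_right (hA i hi)))
    (by
      intro i hi j hj hij
      simp only at hij
      have hmi := Nat.div_add_mod i d
      have hmj := Nat.div_add_mod j d
      have hli := Nat.mod_lt i hd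
      have hlj := Nat.mod_lt j hd
      rw [hij] at hmi
      rcases lt_trichotomy i j with h | h | h
      · have := hgap i hi j hj h
        omega
      · exact h
      · have := hgap j hj i hi h
        omega)
  simpa using h

lemma mk_geom (k0 n : ℕ) : ∑ k ∈ Finset.Ico k0 (k0 + n), (1 / 2 : ℝ) ^ k ≤ 2 * (1 / 2 : ℝ) ^ k0 := by
  have key : ∀ n : ℕ, ∑ k ∈ Finset.Ico k0 (k0 + n), (1 / 2 : ℝ) ^ k =
      2 * (1 / 2 : ℝ) ^ k0 - 2 * (1 / 2 : ℝ) ^ (k0 + n) := by
    intro n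
    induction n with
    | zero => simp
    | succ n ih =>
      rw [← add_assoc, Finset.sum_Ico_succ_top (by omega), ih, pow_succ]
      ring
  rw [key]
  have : (0 : ℝ) < (1 / 2 : ℝ) ^ (k0 + n) := by positivity
  linarith

/-- few marked times, if the marks of scale `k` have gaps `> 2 ^ k` and the marks of large scale are rare -/
lemma mk_sparse (A : ℕ → Set ℕ) (U : ℕ → Set ℕ) (B : Set ℕ) [DecidablePred (· ∈ B)] [∀ m, DecidablePred (· ∈ U m)]
    (k0 : ℕ) (hk0 : 3 ≤ k0)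
    (hgap : ∀ k i j : ℕ, i < j → j ≤ i + 2 ^ k → i ∈ A k → j ∉ A k)
    (hB : ∀ m, k0 ≤ m → B ⊆ U m ∪ ⋃ k ∈ Finset.Ico k0 (m + 1), A k)
    (hU : ∃ m0, ∀ m, m0 ≤ m → 16 * ((Finset.Icc 1 (2 ^ (m + 1))).filter (· ∈ U m)).card ≤ 2 ^ m) :
    ∃ t0, ∀ t, t0 ≤ t → 2 * ((Finset.Icc 1 t).filter (· ∈ B)).card ≤ t := by
  classical
  obtain ⟨m0, hm0⟩ := hU
  refine ⟨2 ^ (max m0 (max k0 6)), fun t ht => ?_⟩
  have htpos : 0 < t := lt_of_lt_of_le (by positivity) ht
  set m := Nat.log 2 t with hm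
  have hm1 : 2 ^ m ≤ t := Nat.pow_log_le_self 2 htpos.ne'
  have hm2 : t < 2 ^ (m + 1) := Nat.lt_pow_succ_log_self (by norm_num) t
  have hmm : max m0 (max k0 6) ≤ m := by
    rw [hm]
    exact (Nat.le_log_iff_pow_le (by norm_num) htpos.ne').2 ht
  have hmm0 : m0 ≤ m := le_trans (le_max_left _ _) hmm
  have hmk : k0 ≤ m := le_trans (le_trans (le_max_left _ _) (le_max_right _ _)) hmm
  have hm6 : 6 ≤ m := le_trans (le_trans (le_max_right _ _) (le_max_right _ _)) hmm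
  have hsub : (Finset.Icc 1 t).filter (· ∈ B) ⊆ ((Finset.Icc 1 (2 ^ (m + 1))).filter (· ∈ U m)) ∪
      (Finset.Ico k0 (m + 1)).biUnion fun k => (Finset.Icc 1 t).filter (· ∈ A k) := by
    intro i hi
    rw [Finset.mem_filter, Finset.mem_Icc] at hi
    rw [Finset.mem_union, Finset.mem_filter, Finset.mem_Icc, Finset.mem_biUnion]
    rcases hB m hmk hi.2 with h | h
    · exact Or.inl ⟨⟨hi.1.1, hi.1.2.trans hm2.le⟩, h⟩
    · simp only [mem_iUnion] at h
      obtain ⟨k, hk, hik⟩ := h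
      exact Or.inr ⟨k, hk, Finset.mem_filter.2 ⟨Finset.mem_Icc.2 hi.1, hik⟩⟩
  have h1 : (((Finset.Icc 1 t).filter (· ∈ B)).card : ℝ) ≤
      (((Finset.Icc 1 (2 ^ (m + 1))).filter (· ∈ U m)).card : ℝ) +
        ∑ k ∈ Finset.Ico k0 (m + 1), (((Finset.Icc 1 t).filter (· ∈ A k)).card : ℝ) := by
    have := (Finset.card_le_card hsub).trans ((Finset.card_union_le _ _).trans
      (Nat.add_le_add_left Finset.card_biUnion_le _))
    exact_mod_cast this
  have h2 : ∀ k, (((Finset.Icc 1 t).filter (· ∈ A k)).card : ℝ) ≤ t * (1 / 2 : ℝ) ^ k + 1 := by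
    intro k
    have h3 := mk_count ((Finset.Icc 1 t).filter (· ∈ A k)) t (2 ^ k) (by positivity)
      (fun i hi => (Finset.mem_Icc.1 (Finset.mem_filter.1 hi).1).2)
      (fun i hi j hj hij => by
        by_contra hcon
        exact hgap k i j hij (not_lt.1 hcon) (Finset.mem_filter.1 hi).2 (Finset.mem_filter.1 hj).2)
    have h4 : ((t / 2 ^ k : ℕ) : ℝ) ≤ (t : ℝ) / ((2 ^ k : ℕ) : ℝ) := Nat.cast_div_le
    have h5 : (((Finset.Icc 1 t).filter (· ∈ A k)).card : ℝ) ≤ ((t / 2 ^ k : ℕ) : ℝ) + 1 := by exact_mod_cast h3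
    refine h5.trans ?_
    have h6 : (t : ℝ) / ((2 ^ k : ℕ) : ℝ) = t * (1 / 2 : ℝ) ^ k := by
      push_cast
      rw [one_div, inv_pow, div_eq_mul_inv]
    rw [h6] at h4
    linarith
  have h3 : ∑ k ∈ Finset.Ico k0 (m + 1), (((Finset.Icc 1 t).filter (· ∈ A k)).card : ℝ) ≤
      t * (2 * (1 / 2 : ℝ) ^ k0) + (m + 1) := by
    refine (Finset.sum_le_sum fun k _ => h2 k).trans ?_
    rw [Finset.sum_add_distrib, ← Finset.mul_sum]
    have e1 : k0 + (m + 1 - k0) = m + 1 := by omega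
    have h4 := mk_geom k0 (m + 1 - k0)
    rw [e1] at h4
    have h5 : ∑ k ∈ Finset.Ico k0 (m + 1), (1 : ℝ) ≤ m + 1 := by
      rw [Finset.sum_const, Nat.card_Ico, nsmul_eq_mul, mul_one]
      have : m + 1 - k0 ≤ m + 1 := Nat.sub_le _ _
      exact_mod_cast this
    have h6 : (t : ℝ) * ∑ k ∈ Finset.Ico k0 (m + 1), (1 / 2 : ℝ) ^ k ≤ t * (2 * (1 / 2 : ℝ) ^ k0) :=
      mul_le_mul_of_nonneg_left h4 (Nat.cast_nonneg t)
    linarith
  have h4 : (1 / 2 : ℝ) ^ k0 ≤ 1 / 8 := by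
    have := pow_le_pow_of_le_one (by norm_num : (0 : ℝ) ≤ 1 / 2) (by norm_num) hk0
    norm_num at this ⊢
    linarith
  have h5 : (t : ℝ) * (2 * (1 / 2 : ℝ) ^ k0) ≤ t * (1 / 4) := by
    refine mul_le_mul_of_nonneg_left (by linarith) (Nat.cast_nonneg t)
  have h6 : 16 * (((Finset.Icc 1 (2 ^ (m + 1))).filter (· ∈ U m)).card : ℝ) ≤ 2 ^ m := by
    exact_mod_cast hm0 m hmm0
  have h7 : ((2 : ℝ) ^ m) ≤ t := by exact_mod_cast hm1
  have h8 : (16 : ℝ) * (m + 1) ≤ 3 * 2 ^ m := by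
    have : ∀ n : ℕ, 6 ≤ n → 16 * (n + 1) ≤ 3 * 2 ^ n := by
      intro n hn
      induction n, hn using Nat.le_induction with
      | base => norm_num
      | succ n hn ih => rw [pow_succ]; omega
    exact_mod_cast this m hm6
  have h9 : (2 : ℝ) * (((Finset.Icc 1 t).filter (· ∈ B)).card : ℝ) ≤ t := by nlinarith
  exact_mod_cast h9

/-- the marks of large scale are rare -/
lemma mk_rare {Y : Type u} [MeasurableSpace Y] (μ : Measure Y) (S : Y → Y)
    (hS : MeasurePreserving S μ μ) (M : ℕ → Set Y) (hM : ∀ k, MeasurableSet (M k))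
    (hMle : ∀ k, μ (M k) ≤ (1 / 2 : ℝ≥0∞) ^ k) [∀ m, DecidablePred (· ∈ ⋃ k, M (m + 1 + k))] :
    ∀ᵐ y ∂μ, ∃ m0, ∀ m, m0 ≤ m →
      16 * ((Finset.Icc 1 (2 ^ (m + 1))).filter fun i => S^[i] y ∈ ⋃ k, M (m + 1 + k)).card ≤ 2 ^ m := by
  classical
  have hUm : ∀ m, MeasurableSet (⋃ k, M (m + 1 + k)) := fun m => MeasurableSet.iUnion fun k => hM _
  have hUle : ∀ m, μ (⋃ k, M (m + 1 + k)) ≤ (1 / 2 : ℝ≥0∞) ^ m := by
    intro m
    refine (measure_iUnion_le _).trans ((ENNReal.tsum_le_tsum fun k => hMle _).trans ?_)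
    simp_rw [pow_add]
    rw [ENNReal.tsum_mul_left, ENNReal.tsum_geometric, one_div, ENNReal.one_sub_inv_two, inv_inv, pow_one, mul_assoc,
      ENNReal.inv_mul_cancel (by norm_num) (by norm_num), mul_one]
  set f : ℕ → Y → ℝ≥0∞ := fun m y => ∑ i ∈ Finset.Icc 1 (2 ^ (m + 1)),
    (⋃ k, M (m + 1 + k)).indicator (fun _ => (1 : ℝ≥0∞)) (S^[i] y) with hf
  have hfi : ∀ m, ∫⁻ y, f m y ∂μ ≤ 2 := by
    intro m
    rw [hf]
    simp only
    have hmi : ∀ i ∈ Finset.Icc 1 (2 ^ (m + 1)),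
        Measurable fun y => (⋃ k, M (m + 1 + k)).indicator (fun _ => (1 : ℝ≥0∞)) (S^[i] y) := fun i _ =>
      (measurable_const.indicator (hUm m)).comp (hS.iterate i).measurable
    rw [lintegral_finsetSum _ hmi]
    have : ∀ i ∈ Finset.Icc 1 (2 ^ (m + 1)), ∫⁻ y, (⋃ k, M (m + 1 + k)).indicator (fun _ => (1 : ℝ≥0∞)) (S^[i] y) ∂μ ≤
        (1 / 2 : ℝ≥0∞) ^ m := by
      intro i _
      rw [(hS.iterate i).lintegral_comp (measurable_const.indicator (hUm m)), lintegral_indicator_const (hUm m), one_mul]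
      exact hUle m
    refine (Finset.sum_le_sum this).trans ?_
    rw [Finset.sum_const, Nat.card_Icc, nsmul_eq_mul, Nat.add_sub_cancel]
    push_cast
    rw [pow_succ, mul_comm ((2 : ℝ≥0∞) ^ m) 2, mul_assoc, one_div, ← mul_pow,
      ENNReal.mul_inv_cancel (by norm_num) (by norm_num), one_pow, mul_one]
  have hfc : ∀ m y, f m y = (((Finset.Icc 1 (2 ^ (m + 1))).filter fun i => S^[i] y ∈ ⋃ k, M (m + 1 + k)).card : ℝ≥0∞) := by
    intro m y
    rw [hf]
    simp only [Set.indicator_apply]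
    rw [Finset.sum_ite, Finset.sum_const_zero, add_zero, Finset.sum_const, nsmul_eq_mul, mul_one]
  have hbad : ∀ m, μ {y | (2 : ℝ≥0∞) ^ m ≤ 16 * f m y} ≤ 32 * (1 / 2 : ℝ≥0∞) ^ m := by
    intro m
    have hmeas : AEMeasurable (fun y => 16 * f m y) μ := by
      refine Measurable.aemeasurable (Measurable.const_mul ?_ _)
      exact Finset.measurable_sum _ fun i _ => (measurable_const.indicator (hUm m)).comp (hS.iterate i).measurable
    have h1 := mul_meas_ge_le_lintegral₀ hmeas ((2 : ℝ≥0∞) ^ m)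
    have h2 : ∫⁻ y, 16 * f m y ∂μ ≤ 32 := by
      rw [lintegral_const_mul' _ _ (by norm_num)]
      calc 16 * ∫⁻ y, f m y ∂μ ≤ 16 * 2 := by gcongr; exact hfi m
        _ = 32 := by norm_num
    have h3 := h1.trans h2
    rw [one_div, ← ENNReal.inv_pow]
    rw [mul_comm, ← ENNReal.le_div_iff_mul_le (Or.inl (by simp)) (Or.inl (by finiteness)), div_eq_mul_inv] at h3
    exact h3
  have hsum : ∑' m, μ {y | (2 : ℝ≥0∞) ^ m ≤ 16 * f m y} ≠ ∞ := by
    refine ne_top_of_le_ne_top ?_ (ENNReal.tsum_le_tsum hbad)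
    rw [ENNReal.tsum_mul_left, ENNReal.tsum_geometric, one_div, ENNReal.one_sub_inv_two, inv_inv]
    finiteness
  filter_upwards [ae_eventually_notMem hsum] with y hy
  obtain ⟨m0, hm0⟩ := eventually_atTop.1 hy
  refine ⟨m0, fun m hm => ?_⟩
  have h1 := hm0 m hm
  rw [not_le, hfc] at h1
  have h2 : (16 * ((Finset.Icc 1 (2 ^ (m + 1))).filter fun i => S^[i] y ∈ ⋃ k, M (m + 1 + k)).card : ℕ) < 2 ^ m := by
    exact_mod_cast h1
  exact h2.le

theorem partMK : StmMK.{u} := by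
  classical
  intro Y _ _ μ _ S hS hap ε hε
  have hLk : Monotone Lk := by
    intro a b hab
    unfold Lk
    exact Nat.pow_le_pow_right (by norm_num) (Nat.pow_le_pow_left (by omega) 2)
  obtain ⟨M, ξ, hM, hξ, hMle, hae⟩ := mk_exists μ S hS hap Lk hLk
  obtain ⟨k1, hk1⟩ : ∃ k1 : ℕ, (1 / 2 : ℝ≥0∞) ^ k1 * 2 ≤ ε := by
    have h1 : Tendsto (fun k : ℕ => (1 / 2 : ℝ≥0∞) ^ k * 2) atTop (𝓝 (0 * 2)) :=
      ENNReal.Tendsto.mul_const (ENNReal.tendsto_pow_atTop_nhds_zero_of_lt_one (by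
        rw [one_div]; exact ENNReal.inv_lt_one.2 (by norm_num))) (Or.inr (by norm_num))
    rw [zero_mul] at h1
    obtain ⟨k, hk⟩ := (h1.eventually (eventually_le_nhds hε)).exists
    exact ⟨k, hk⟩
  set k0 := max k1 3 with hk0
  refine ⟨⋃ k, M (k0 + k), ξ, k0, MeasurableSet.iUnion fun k => hM _, hξ, ?_, ?_⟩
  · refine (measure_iUnion_le _).trans ((ENNReal.tsum_le_tsum fun k => hMle _).trans ?_)
    simp_rw [pow_add]
    rw [ENNReal.tsum_mul_left, ENNReal.tsum_geometric, one_div, ENNReal.one_sub_inv_two, inv_inv]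
    refine le_trans ?_ hk1
    rw [one_div]
    gcongr ?_ * 2
    exact pow_le_pow_of_le_one (by simp) (by
      rw [ENNReal.inv_le_one]; norm_num) (le_max_left _ _)
  · filter_upwards [hae, mk_rare μ S hS M hM hMle] with y hy hr
    refine ⟨fun k a hk => ?_, ?_⟩
    · obtain ⟨t, h1, h2, h3, h4⟩ := hy.1 k a
      refine ⟨t, h1, h2, ?_, h4⟩
      simp only [bl, decide_eq_true_eq, mem_iUnion]
      exact ⟨k - k0, by rwa [show k0 + (k - k0) = k by omega]⟩
    · have := mk_sparse (fun k => {i | S^[i] y ∈ M k}) (fun m => {i | S^[i] y ∈ ⋃ k, M (m + 1 + k)})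
        {i | S^[i] y ∈ ⋃ k, M (k0 + k)} k0 (le_max_right _ _)
        (fun k i j hij hj hi hj' => hy.2 k i j hij hj hi hj') (by
          intro m hm i hi
          simp only [Set.mem_ofPred_eq, mem_iUnion] at hi
          obtain ⟨k, hk⟩ := hi
          by_cases h : k0 + k < m + 1
          · right
            simp only [mem_iUnion]
            exact ⟨k0 + k, Finset.mem_Ico.2 ⟨by omega, h⟩, hk⟩
          · left
            simp only [Set.mem_ofPred_eq, mem_iUnion]
            exact ⟨k0 + k - (m + 1), by rwa [show m + 1 + (k0 + k - (m + 1)) = k0 + k by omega]⟩) (by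
          obtain ⟨m0, hm0⟩ := hr
          refine ⟨m0, fun m hm => ?_⟩
          have h := hm0 m hm
          convert h using 4
          rfl)
      obtain ⟨t0, ht0⟩ := this
      refine ⟨t0, fun t ht => ?_⟩
      have h := ht0 t ht
      convert h using 4
      simp only [bl, decide_eq_true_eq, Set.mem_ofPred_eq]

end Pool.Agent.H50.KI
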