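import Pool.Agent.H50.KI.FL
import Pool.Graph.R_seed8.R205.PC.Avg

/-!
# KI crew, part MO: second moment of the fluctuations
-/

set_option autoImplicit false

open MeasureTheory Filter Topology
open scoped ENNReal ComplexConjugate

namespace Pool.Agent.H50.KI

private theorem mo_comm (η ζ : Finset ℕ) (θ : ℕ → Bool) : flip η (flip ζ θ) = flip ζ (flip η θ) := by
  funext i
  unfold flip
  by_cases h1 : i ∈ η <;> by_cases h2 : i ∈ ζ <;> simp [h1, h2]

private theorem mo_avg_bound (G : Finset ℕ) (S : (ℕ → Bool) → ℂ) (B : ℝ) (hB : ∀ θ, ‖S θ‖ ≤ B) (θ : ℕ → Bool) :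
    ‖avgf G S θ‖ ≤ B := by
  unfold avgf
  rw [norm_mul]
  have h1 : ‖∑ η ∈ G.powerset, S (flip η θ)‖ ≤ 2 ^ G.card * B := by
    refine (norm_sum_le_of_le _ fun η _ => hB (flip η θ)).trans ?_
    rw [Finset.sum_const, Finset.card_powerset, nsmul_eq_mul]
    push_cast
    exact le_refl _
  have h2 : ‖(1 / (2 : ℂ) ^ G.card)‖ = 1 / (2 : ℝ) ^ G.card := by
    rw [norm_div, norm_one, norm_pow]
    norm_num
  rw [h2]
  calc 1 / (2 : ℝ) ^ G.card * ‖∑ η ∈ G.powerset, S (flip η θ)‖
      ≤ 1 / (2 : ℝ) ^ G.card * (2 ^ G.card * B) := by gcongr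
    _ = B := by field_simp

private theorem mo_avg_meas (G : Finset ℕ) (S : (ℕ → Bool) → ℂ) (hS : Measurable S) : Measurable (avgf G S) := by
  unfold avgf
  exact (Finset.measurable_fun_sum _ fun η _ => hS.comp (partFL η).measurable).const_mul _

/-- the fluctuation is orthogonal to the functions invariant under the flips -/
private theorem mo_orth (G : Finset ℕ) (S D : (ℕ → Bool) → ℂ) (hS : Measurable S) (hD : Measurable D) (B B' : ℝ)
    (hB : ∀ θ, ‖S θ‖ ≤ B) (hB' : ∀ θ, ‖D θ‖ ≤ B') (hinv : ∀ η ⊆ G, ∀ θ, D (flip η θ) = D θ) :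
    ∫ θ, (S θ - avgf G S θ) * conj (D θ) ∂PP = 0 := by
  have hB0 : 0 ≤ B := (norm_nonneg _).trans (hB fun _ => false)
  have hcm : Measurable fun θ => conj (D θ) := Complex.continuous_conj.measurable.comp hD
  have hint : ∀ η : Finset ℕ, Integrable (fun θ => S (flip η θ) * conj (D θ)) PP := by
    intro η
    refine Integrable.of_bound ((hS.comp (partFL η).measurable).mul hcm).aestronglyMeasurable (B * B') ?_
    filter_upwards with θ
    rw [norm_mul, Complex.norm_conj]
    exact mul_le_mul (hB _) (hB' _) (norm_nonneg _) hB0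
  have hint0 : Integrable (fun θ => S θ * conj (D θ)) PP := by
    refine Integrable.of_bound (hS.mul hcm).aestronglyMeasurable (B * B') ?_
    filter_upwards with θ
    rw [norm_mul, Complex.norm_conj]
    exact mul_le_mul (hB _) (hB' _) (norm_nonneg _) hB0
  have hterm : ∀ η ∈ G.powerset, ∫ θ, S (flip η θ) * conj (D θ) ∂PP = ∫ θ, S θ * conj (D θ) ∂PP := by
    intro η hη
    have h1 : ∀ θ, S (flip η θ) * conj (D θ) = (fun θ => S θ * conj (D θ)) (flip η θ) := by
      intro θ
      simp only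
      rw [hinv η (Finset.mem_powerset.1 hη) θ]
    simp only [h1]
    have h2 := partFL η
    conv_rhs => rw [← h2.map_eq]
    rw [integral_map h2.measurable.aemeasurable]
    rw [h2.map_eq]
    exact (hS.mul hcm).aestronglyMeasurable
  have hexp : ∀ θ, (S θ - avgf G S θ) * conj (D θ) =
      S θ * conj (D θ) - (1 / (2 : ℂ) ^ G.card) * ∑ η ∈ G.powerset, S (flip η θ) * conj (D θ) := by
    intro θ
    unfold avgf
    rw [sub_mul, mul_assoc, Finset.sum_mul]
  simp only [hexp]
  rw [integral_sub hint0 ((integrable_finsetSum _ fun η _ => hint η).const_mul _), integral_const_mul,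
    integral_finsetSum _ fun η _ => hint η, Finset.sum_congr rfl hterm, Finset.sum_const,
    Finset.card_powerset, nsmul_eq_mul]
  push_cast
  field_simp
  ring

theorem partMO : StmMO := by
  intro B r0 l0 S F hS hB hinv
  set Δ : ℕ → ℕ → (ℕ → Bool) → ℂ := fun l r θ => if r0 ≤ r then S l r θ - avgf (F l r) (S l r) θ else 0 with hΔ
  have hΔm : ∀ l r, Measurable (Δ l r) := by
    intro l r
    simp only [hΔ]
    by_cases h : r0 ≤ r
    · simp only [if_pos h]
      exact (hS l r).sub (mo_avg_meas _ _ (hS l r))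
    · simp only [if_neg h]
      exact measurable_const
  have hBl : ∀ l : ℕ, 0 ≤ B * (l : ℝ) ^ 2 := fun l => (norm_nonneg _).trans (hB l 0 fun _ => false)
  have hΔb : ∀ l r θ, ‖Δ l r θ‖ ≤ 2 * (B * (l : ℝ) ^ 2) := by
    intro l r θ
    simp only [hΔ]
    by_cases h : r0 ≤ r
    · simp only [if_pos h]
      refine (norm_sub_le _ _).trans ?_
      have h1 := hB l r θ
      have h2 := mo_avg_bound (F l r) (S l r) _ (hB l r) θ
      linarith
    · simp only [if_neg h, norm_zero]
      have := hBl l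
      linarith
  have horth : ∀ l, l0 ≤ l → ∀ r r', r + 0 < r' → r' < l ^ 2 → ∫ θ, Δ l r' θ * conj (Δ l r θ) ∂PP = 0 := by
    intro l hl r r' hrr' hr'
    by_cases h : r0 ≤ r
    · have h' : r0 ≤ r' := by omega
      have hi : ∀ η ⊆ F l r', ∀ θ, Δ l r (flip η θ) = Δ l r θ := by
        intro η hη θ
        simp only [hΔ, if_pos h]
        rw [hinv l r r' hl h (by omega) hr' η hη θ]
        congr 1
        unfold avgf
        congr 1
        refine Finset.sum_congr rfl fun ζ _ => ?_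
        rw [mo_comm ζ η θ]
        exact hinv l r r' hl h (by omega) hr' η hη _
      have h2 := mo_orth (F l r') (S l r') (Δ l r) (hS l r') (hΔm l r) _ _ (hB l r') (hΔb l r) hi
      have h3 : ∀ θ, Δ l r' θ = S l r' θ - avgf (F l r') (S l r') θ := by
        intro θ
        simp only [hΔ, if_pos h']
      simp only [h3]
      exact h2
    · have h3 : ∀ θ, Δ l r θ = 0 := by
        intro θ
        simp only [hΔ, if_neg h]
      simp only [h3, map_zero, mul_zero, integral_zero]
  have hmom : ∀ l, l0 ≤ l → ∫ θ, ‖∑ r ∈ Finset.range (l ^ 2), Δ l r θ‖ ^ 2 ∂PP ≤ 4 * B ^ 2 * (l : ℝ) ^ 6 := by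
    intro l hl
    have := Pool.Agent.R205.PC.moment_of_orth PP (Δ l) (hΔm l) _ (hΔb l) (l ^ 2) 0
      (fun n' n h1 h2 => horth l hl n' n h1 h2)
    refine this.trans (le_of_eq ?_)
    push_cast
    ring
  set Gf : ℕ → (ℕ → Bool) → ℝ := fun l θ => (‖∑ r ∈ Finset.range (l ^ 2), Δ l r θ‖ / (l : ℝ) ^ 4) ^ 2 with hG
  have hGm : ∀ l, Measurable (Gf l) := fun l =>
    (((Finset.measurable_fun_sum _ fun n _ => hΔm l n).norm).div_const _).pow_const 2
  have hev : ∀ l : ℕ, max l0 1 ≤ l →
      ∫⁻ θ, ENNReal.ofReal (Gf l θ) ∂PP ≤ ENNReal.ofReal (4 * B ^ 2 * (1 / (l : ℝ) ^ 2)) := by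
    intro l hl
    have hl1 : 1 ≤ l := (le_max_right _ _).trans hl
    have hl2 : l0 ≤ l := (le_max_left _ _).trans hl
    have hl0 : (0 : ℝ) < l := by exact_mod_cast hl1
    rw [← ofReal_integral_eq_lintegral_ofReal]
    · apply ENNReal.ofReal_le_ofReal
      have e1 : ∀ θ, Gf l θ = (1 / (l : ℝ) ^ 8) * ‖∑ r ∈ Finset.range (l ^ 2), Δ l r θ‖ ^ 2 := by
        intro θ
        simp only [hG]
        rw [div_pow]
        field_simp
      simp only [e1]
      rw [integral_const_mul]
      calc (1 / (l : ℝ) ^ 8) * ∫ θ, ‖∑ r ∈ Finset.range (l ^ 2), Δ l r θ‖ ^ 2 ∂PP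
          ≤ (1 / (l : ℝ) ^ 8) * (4 * B ^ 2 * (l : ℝ) ^ 6) := by
            have := hmom l hl2
            gcongr
        _ = 4 * B ^ 2 * (1 / (l : ℝ) ^ 2) := by field_simp
    · refine Integrable.of_bound (hGm l).aestronglyMeasurable
        (((l ^ 2 : ℕ) * (2 * (B * (l : ℝ) ^ 2)) / (l : ℝ) ^ 4) ^ 2) ?_
      filter_upwards with θ
      rw [Real.norm_eq_abs, abs_of_nonneg (by positivity)]
      simp only [hG]
      have : ‖∑ r ∈ Finset.range (l ^ 2), Δ l r θ‖ ≤ (l ^ 2 : ℕ) * (2 * (B * (l : ℝ) ^ 2)) := by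
        refine (norm_sum_le_of_le _ fun n _ => hΔb l n θ).trans ?_
        rw [Finset.sum_const, Finset.card_range, nsmul_eq_mul]
      gcongr
    · filter_upwards with θ
      simp only [hG, Pi.zero_apply]
      positivity
  set m0 := max l0 1 with hm0
  have hsum : ∑' l, ∫⁻ θ, ENNReal.ofReal (Gf (l + m0) θ) ∂PP ≠ ∞ := by
    have hs : Summable (fun l : ℕ => 4 * B ^ 2 * (1 / ((l + m0 : ℕ) : ℝ) ^ 2)) := by
      refine Summable.mul_left _ ?_
      exact (summable_nat_add_iff m0).2 (Real.summable_one_div_nat_pow.2 (by norm_num : 1 < 2))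
    refine ne_top_of_le_ne_top hs.tsum_ofReal_ne_top ?_
    exact ENNReal.tsum_le_tsum fun l => hev (l + m0) (by omega)
  have hae : ∀ᵐ θ ∂PP, ∑' l, ENNReal.ofReal (Gf (l + m0) θ) < ∞ := by
    refine ae_lt_top ?_ ?_
    · exact Measurable.tsum fun l => (hGm _).ennreal_ofReal
    · rw [lintegral_tsum fun l => ((hGm _).ennreal_ofReal).aemeasurable]
      exact hsum
  filter_upwards [hae] with θ hω
  have h1 := ENNReal.tendsto_atTop_zero_of_tsum_ne_top hω.ne
  have h2 : Tendsto (fun l => Gf (l + m0) θ) atTop (𝓝 0) := by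
    have h3 := (ENNReal.tendsto_toReal ENNReal.zero_ne_top).comp h1
    simp only [ENNReal.toReal_zero] at h3
    refine h3.congr fun l => ?_
    simp only [Function.comp]
    rw [ENNReal.toReal_ofReal (by simp only [hG]; positivity)]
  have h3 : Tendsto (fun l => Gf l θ) atTop (𝓝 0) := (tendsto_add_atTop_iff_nat m0).1 h2
  have h5 := (Real.continuous_sqrt.tendsto 0).comp h3
  rw [Real.sqrt_zero] at h5
  refine h5.congr fun l => ?_
  simp only [Function.comp, hG]
  rw [Real.sqrt_sq (by positivity)]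
  congr 2
  rw [Finset.range_eq_Ico]
  by_cases h : r0 ≤ l ^ 2
  · rw [← Finset.sum_Ico_consecutive _ (Nat.zero_le r0) h]
    have hz : ∑ r ∈ Finset.Ico 0 r0, Δ l r θ = 0 := by
      refine Finset.sum_eq_zero fun r hr => ?_
      have := (Finset.mem_Ico.1 hr).2
      simp only [hΔ, if_neg (not_le.2 this)]
    rw [hz, zero_add]
    refine Finset.sum_congr rfl fun r hr => ?_
    simp only [hΔ, if_pos (Finset.mem_Ico.1 hr).1]
  · rw [Finset.Ico_eq_empty (by omega : ¬ r0 < l ^ 2), Finset.sum_empty]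
    refine Finset.sum_eq_zero fun r hr => ?_
    have := (Finset.mem_Ico.1 hr).2
    simp only [hΔ, if_neg (not_le.2 (show r < r0 by omega))]

end Pool.Agent.H50.KI
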