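import Pool.Agent.H50.KI.Defs

set_option autoImplicit false

namespace Pool.Agent.H50.KI

theorem sm_moment (n : ℕ) : ∀ x : ℝ,
    ∑ s ∈ Finset.range (n + 1), (n.choose s : ℝ) * (x - 2 * s) ^ 2 = 2 ^ n * ((x - n) ^ 2 + n) := by
  induction n with
  | zero => intro x; simp
  | succ n ih =>
    intro x
    have h := Finset.sum_choose_succ_mul (R := ℝ) (fun i _ => (x - 2 * (i : ℝ)) ^ 2) n
    rw [h, ih x]
    have h2 : ∑ i ∈ Finset.range (n + 1), ((n.choose i : ℕ) : ℝ) * (x - 2 * ((i + 1 : ℕ) : ℝ)) ^ 2 =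
        ∑ i ∈ Finset.range (n + 1), (n.choose i : ℝ) * ((x - 2) - 2 * i) ^ 2 := by
      refine Finset.sum_congr rfl fun i _ => ?_
      push_cast
      ring
    rw [h2, ih (x - 2)]
    push_cast
    ring

/-- the difference of consecutive binomial coefficients, shifted -/
theorem sm_diff (R s : ℕ) (hs : s ≤ R) :
    ((R + 1 : ℕ) : ℝ) * (((R.choose (s + 1) : ℕ) : ℝ) - ((R.choose s : ℕ) : ℝ)) =
      (((R + 1).choose (s + 1) : ℕ) : ℝ) * (((R + 1 : ℕ) : ℝ) - 2 * ((s + 1 : ℕ) : ℝ)) := by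
  have h1 := Nat.add_one_mul_choose_eq R s
  have h2 := Nat.choose_mul_succ_eq R (s + 1)
  have h3 : R + 1 - (s + 1) = R - s := by omega
  rw [h3] at h2
  have h1' : ((R + 1 : ℕ) : ℝ) * (R.choose s : ℝ) = ((R + 1).choose (s + 1) : ℝ) * ((s + 1 : ℕ) : ℝ) := by
    exact_mod_cast h1
  have h2' : (R.choose (s + 1) : ℝ) * ((R + 1 : ℕ) : ℝ) = ((R + 1).choose (s + 1) : ℝ) * ((R : ℝ) - s) := by
    have : ((R - s : ℕ) : ℝ) = (R : ℝ) - s := by push_cast [Nat.cast_sub hs]; ring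
    rw [← this]
    exact_mod_cast h2
  push_cast at h1' h2' ⊢
  linarith

theorem sm_tv (R : ℕ) :
    1 + ∑ s ∈ Finset.range (R + 1), |((R.choose (s + 1) : ℕ) : ℝ) - ((R.choose s : ℕ) : ℝ)| ≤
      2 ^ (R + 1) / Real.sqrt (R + 1) := by
  have hR : (0 : ℝ) < (R : ℝ) + 1 := by positivity
  -- rewrite as the sum over all s ≤ R + 1
  have key : 1 + ∑ s ∈ Finset.range (R + 1), |((R.choose (s + 1) : ℕ) : ℝ) - ((R.choose s : ℕ) : ℝ)| =
      (1 / ((R : ℝ) + 1)) * ∑ s ∈ Finset.range (R + 1 + 1), ((R + 1).choose s : ℝ) *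
        |((R + 1 : ℕ) : ℝ) - 2 * s| := by
    rw [Finset.sum_range_succ' _ (R + 1), mul_add]
    have h0 : 1 / ((R : ℝ) + 1) * (((R + 1).choose 0 : ℝ) * |((R + 1 : ℕ) : ℝ) - 2 * ((0 : ℕ) : ℝ)|) = 1 := by
      simp only [Nat.choose_zero_right, Nat.cast_one, one_mul, Nat.cast_zero, mul_zero, sub_zero]
      rw [abs_of_nonneg (by positivity)]
      push_cast
      field_simp
    rw [h0, Finset.mul_sum, add_comm]
    congr 1
    refine Finset.sum_congr rfl fun s hs => ?_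
    have hs' : s ≤ R := by
      have := Finset.mem_range.1 hs
      omega
    have hd := sm_diff R s hs'
    have h4 : ((R.choose (s + 1) : ℕ) : ℝ) - ((R.choose s : ℕ) : ℝ) =
        (1 / ((R : ℝ) + 1)) * ((((R + 1).choose (s + 1) : ℕ) : ℝ) * (((R + 1 : ℕ) : ℝ) - 2 * ((s + 1 : ℕ) : ℝ))) := by
      rw [← hd]
      push_cast
      field_simp
    rw [h4, abs_mul, abs_mul, abs_of_nonneg (by positivity : (0 : ℝ) ≤ 1 / ((R : ℝ) + 1)),
      abs_of_nonneg (by positivity : (0 : ℝ) ≤ (((R + 1).choose (s + 1) : ℕ) : ℝ))]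
  rw [key]
  -- Cauchy-Schwarz
  have cs : (∑ s ∈ Finset.range (R + 1 + 1), ((R + 1).choose s : ℝ) * |((R + 1 : ℕ) : ℝ) - 2 * s|) ^ 2 ≤
      (∑ s ∈ Finset.range (R + 1 + 1), ((R + 1).choose s : ℝ)) *
        ∑ s ∈ Finset.range (R + 1 + 1), ((R + 1).choose s : ℝ) * (((R + 1 : ℕ) : ℝ) - 2 * s) ^ 2 := by
    apply Finset.sum_sq_le_sum_mul_sum_of_sq_le_mul
    · intro i _; positivity
    · intro i _; positivity
    · intro i _
      rw [mul_pow, sq_abs]
      exact le_of_eq (by ring)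
  rw [sm_moment (R + 1)] at cs
  have hsum : ∑ s ∈ Finset.range (R + 1 + 1), ((R + 1).choose s : ℝ) = 2 ^ (R + 1) := by
    have := Nat.sum_range_choose (R + 1)
    exact_mod_cast this
  rw [hsum] at cs
  set Q := ∑ s ∈ Finset.range (R + 1 + 1), ((R + 1).choose s : ℝ) * |((R + 1 : ℕ) : ℝ) - 2 * s| with hQ
  have hQ0 : 0 ≤ Q := Finset.sum_nonneg fun i _ => by positivity
  have cs2 : Q ^ 2 ≤ (2 ^ (R + 1)) ^ 2 * ((R : ℝ) + 1) := by
    have : (2 : ℝ) ^ (R + 1) * (2 ^ (R + 1) * ((((R + 1 : ℕ) : ℝ) - ((R + 1 : ℕ) : ℝ)) ^ 2 + ((R + 1 : ℕ) : ℝ))) =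
        (2 ^ (R + 1)) ^ 2 * ((R : ℝ) + 1) := by
      push_cast
      ring
    linarith
  have hs : 0 < Real.sqrt ((R : ℝ) + 1) := Real.sqrt_pos.2 hR
  have hsq : Real.sqrt ((R : ℝ) + 1) ^ 2 = (R : ℝ) + 1 := Real.sq_sqrt hR.le
  have h5 : Q ≤ 2 ^ (R + 1) * Real.sqrt ((R : ℝ) + 1) := by
    apply le_of_sq_le_sq _ (by positivity)
    rw [mul_pow, hsq]
    exact cs2
  rw [le_div_iff₀ hs]
  calc 1 / ((R : ℝ) + 1) * Q * Real.sqrt ((R : ℝ) + 1)
      ≤ 1 / ((R : ℝ) + 1) * (2 ^ (R + 1) * Real.sqrt ((R : ℝ) + 1)) * Real.sqrt ((R : ℝ) + 1) := by gcongr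
    _ = 1 / ((R : ℝ) + 1) * 2 ^ (R + 1) * Real.sqrt ((R : ℝ) + 1) ^ 2 := by ring
    _ = 2 ^ (R + 1) := by rw [hsq]; field_simp

theorem partSM : StmSM := by
  intro C v hv R I
  have hsum : ∑ s ∈ Finset.range (R + 1), (R.choose s : ℝ) = 2 ^ R := by
    have := Nat.sum_range_choose R
    exact_mod_cast this
  have hC : 0 ≤ C := (norm_nonneg _).trans (hv 0)
  constructor
  · unfold Mm
    rw [norm_mul]
    have h1 : ‖(1 / (2 : ℂ) ^ R)‖ = 1 / 2 ^ R := by simp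
    rw [h1]
    have h2 : ‖∑ s ∈ Finset.range (R + 1), (R.choose s : ℂ) * v (I - s)‖ ≤ 2 ^ R * C := by
      refine (norm_sum_le _ _).trans ?_
      rw [← hsum, Finset.sum_mul]
      refine Finset.sum_le_sum fun s _ => ?_
      rw [norm_mul, Complex.norm_natCast]
      exact mul_le_mul_of_nonneg_left (hv _) (by positivity)
    calc 1 / 2 ^ R * ‖∑ s ∈ Finset.range (R + 1), (R.choose s : ℂ) * v (I - s)‖
        ≤ 1 / 2 ^ R * (2 ^ R * C) := by gcongr
      _ = C := by field_simp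
  · intro hRI
    have h1 : Mm R v (I + 1) - Mm R v I = (1 / (2 : ℂ) ^ R) * (v (I + 1) +
        ∑ s ∈ Finset.range (R + 1), (((R.choose (s + 1) : ℕ) : ℂ) - ((R.choose s : ℕ) : ℂ)) * v (I - s)) := by
      unfold Mm
      rw [← mul_sub]
      congr 1
      have h2 : ∑ s ∈ Finset.range (R + 1), (R.choose s : ℂ) * v (I + 1 - s) =
          ∑ s ∈ Finset.range (R + 2), (R.choose s : ℂ) * v (I + 1 - s) := by
        rw [Finset.sum_range_succ _ (R + 1)]
        simp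
      rw [h2, Finset.sum_range_succ' _ (R + 1)]
      simp only [Nat.choose_zero_right, Nat.cast_one, one_mul, Nat.sub_zero, Nat.add_sub_add_right, sub_mul,
        Finset.sum_sub_distrib]
      ring
    rw [h1, norm_mul]
    have h3 : ‖(1 / (2 : ℂ) ^ R)‖ = 1 / 2 ^ R := by simp
    rw [h3]
    have h4 : ‖v (I + 1) + ∑ s ∈ Finset.range (R + 1),
        (((R.choose (s + 1) : ℕ) : ℂ) - ((R.choose s : ℕ) : ℂ)) * v (I - s)‖ ≤
        (1 + ∑ s ∈ Finset.range (R + 1), |((R.choose (s + 1) : ℕ) : ℝ) - ((R.choose s : ℕ) : ℝ)|) * C := by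
      refine (norm_add_le _ _).trans ?_
      rw [add_mul, one_mul]
      refine add_le_add (hv _) ?_
      refine (norm_sum_le _ _).trans ?_
      rw [Finset.sum_mul]
      refine Finset.sum_le_sum fun s _ => ?_
      rw [norm_mul]
      have h5 : ‖(((R.choose (s + 1) : ℕ) : ℂ) - ((R.choose s : ℕ) : ℂ))‖ =
          |((R.choose (s + 1) : ℕ) : ℝ) - ((R.choose s : ℕ) : ℝ)| := by
        rw [← Real.norm_eq_abs, ← Complex.norm_real]
        push_cast
        rfl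
      rw [h5]
      exact mul_le_mul_of_nonneg_left (hv _) (abs_nonneg _)
    calc 1 / 2 ^ R * ‖v (I + 1) + ∑ s ∈ Finset.range (R + 1),
          (((R.choose (s + 1) : ℕ) : ℂ) - ((R.choose s : ℕ) : ℂ)) * v (I - s)‖
        ≤ 1 / 2 ^ R * ((2 ^ (R + 1) / Real.sqrt (R + 1)) * C) := by
          refine mul_le_mul_of_nonneg_left (h4.trans ?_) (by positivity)
          exact mul_le_mul_of_nonneg_right (sm_tv R) hC
      _ = 2 * C / Real.sqrt (R + 1) := by
          rw [pow_succ]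
          have : (2 : ℝ) ^ R ≠ 0 := by positivity
          field_simp

end Pool.Agent.H50.KI
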