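import Pool.Agent.H50.KI.Defs

/-!
# Part SW of project KI: the sliding window
-/

set_option autoImplicit false

namespace Pool.Agent.H50.KI

private theorem sw_step (C C1 β : ℝ) (g m : ℕ → ℂ) (n : ℕ) (hC : 0 ≤ C) (hβ : 0 ≤ β)
    (hg : ∀ t, ‖g t‖ ≤ C1) (hm : ∀ t, t < n → ‖m t‖ ≤ C)
    (hd : ∀ t, t + 1 < n → ‖m (t + 1) - m t‖ ≤ β) :
    ‖∑ k ∈ Finset.range n, g k * m k - ∑ k ∈ Finset.range n, g (k + 1) * m k‖ ≤
      2 * C1 * C + (n : ℝ) * β * C1 := by
  have hC1 : 0 ≤ C1 := le_trans (norm_nonneg _) (hg 0)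
  cases n with
  | zero => simp; positivity
  | succ n =>
    rw [Finset.sum_range_succ', Finset.sum_range_succ (fun k => g (k + 1) * m k)]
    have h1 : (∑ k ∈ Finset.range n, g (k + 1) * m (k + 1) + g 0 * m 0) -
        (∑ k ∈ Finset.range n, g (k + 1) * m k + g (n + 1) * m n) =
        ∑ k ∈ Finset.range n, g (k + 1) * (m (k + 1) - m k) + (g 0 * m 0 - g (n + 1) * m n) := by
      have : ∑ k ∈ Finset.range n, g (k + 1) * (m (k + 1) - m k) =
          ∑ k ∈ Finset.range n, g (k + 1) * m (k + 1) - ∑ k ∈ Finset.range n, g (k + 1) * m k := by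
        rw [← Finset.sum_sub_distrib]
        exact Finset.sum_congr rfl fun k _ => mul_sub _ _ _
      rw [this]
      ring
    rw [h1]
    have h2 : ‖∑ k ∈ Finset.range n, g (k + 1) * (m (k + 1) - m k)‖ ≤ (n : ℝ) * (C1 * β) := by
      calc ‖∑ k ∈ Finset.range n, g (k + 1) * (m (k + 1) - m k)‖
          ≤ ∑ k ∈ Finset.range n, ‖g (k + 1) * (m (k + 1) - m k)‖ := norm_sum_le _ _
        _ ≤ ∑ _k ∈ Finset.range n, C1 * β := by
            refine Finset.sum_le_sum fun k hk => ?_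
            rw [norm_mul]
            exact mul_le_mul (hg _) (hd k (by simpa using hk)) (norm_nonneg _) hC1
        _ = (n : ℝ) * (C1 * β) := by simp
    have h3 : ‖g 0 * m 0 - g (n + 1) * m n‖ ≤ C1 * C + C1 * C := by
      refine (norm_sub_le _ _).trans (add_le_add ?_ ?_)
      · rw [norm_mul]; exact mul_le_mul (hg _) (hm 0 (Nat.succ_pos n)) (norm_nonneg _) hC1
      · rw [norm_mul]; exact mul_le_mul (hg _) (hm n (Nat.lt_succ_self n)) (norm_nonneg _) hC1
    refine (norm_add_le _ _).trans ((add_le_add h2 h3).trans ?_)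
    have h4 : 0 ≤ C1 * β := mul_nonneg hC1 hβ
    push_cast
    nlinarith

theorem partSW : StmSW := by
  intro C C1 β G m b e q hq hbe hC hβ hG hm hd
  have hC1 : 0 ≤ C1 := le_trans (norm_nonneg _) (hG 0)
  obtain ⟨n, rfl⟩ := Nat.exists_eq_add_of_le hbe
  set D : ℕ → ℂ := fun s => ∑ k ∈ Finset.range n, G (b + k + s) * m (b + k) with hD
  set E : ℝ := 2 * C1 * C + (n : ℝ) * β * C1 with hE
  have hE0 : 0 ≤ E := by positivity
  have hstep : ∀ s, ‖D s - D (s + 1)‖ ≤ E := by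
    intro s
    have := sw_step C C1 β (fun k => G (b + k + s)) (fun k => m (b + k)) n hC hβ
      (fun t => hG _) (fun t ht => hm _ (Nat.le_add_right _ _) (by omega))
      (fun t ht => by
        have := hd (b + t) (Nat.le_add_right _ _) (by omega)
        simpa [add_assoc] using this)
    have h2 : ∑ k ∈ Finset.range n, G (b + (k + 1) + s) * m (b + k) = D (s + 1) := by
      rw [hD]
      refine Finset.sum_congr rfl fun k _ => ?_
      rw [show b + (k + 1) + s = b + k + (s + 1) by ring]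
    rw [h2] at this
    exact this
  have hs : ∀ s, ‖D 0 - D s‖ ≤ (s : ℝ) * E := by
    intro s
    induction s with
    | zero => simp
    | succ s ih =>
      calc ‖D 0 - D (s + 1)‖ = ‖(D 0 - D s) + (D s - D (s + 1))‖ := by ring_nf
        _ ≤ ‖D 0 - D s‖ + ‖D s - D (s + 1)‖ := norm_add_le _ _
        _ ≤ (s : ℝ) * E + E := add_le_add ih (hstep s)
        _ = ((s + 1 : ℕ) : ℝ) * E := by push_cast; ring
  have hq0 : (0 : ℝ) < q := by exact_mod_cast hq
  have hqc : (q : ℂ) ≠ 0 := by exact_mod_cast hq0.ne'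
  have hsum0 : ∑ t ∈ Finset.Ico b (b + n), G t * m t = D 0 := by
    rw [Finset.sum_Ico_eq_sum_range, hD]
    simp
  have hav : (1 / (q : ℂ)) * ∑ s ∈ Finset.range q, D s =
      ∑ k ∈ Finset.range n, ((1 / (q : ℂ)) * ∑ i ∈ Finset.range q, G (b + k + i)) * m (b + k) := by
    rw [hD]
    simp only
    rw [Finset.sum_comm, Finset.mul_sum]
    refine Finset.sum_congr rfl fun k _ => ?_
    rw [← Finset.sum_mul]
    ring
  have h1 : ‖(1 / (q : ℂ)) * ∑ s ∈ Finset.range q, D s‖ ≤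
      C * ∑ t ∈ Finset.Ico b (b + n), ‖(1 / (q : ℂ)) * ∑ i ∈ Finset.range q, G (t + i)‖ := by
    rw [hav, Finset.sum_Ico_eq_sum_range, Nat.add_sub_cancel_left, Finset.mul_sum]
    refine (norm_sum_le _ _).trans (Finset.sum_le_sum fun k hk => ?_)
    rw [norm_mul, mul_comm]
    exact mul_le_mul_of_nonneg_right
      (hm _ (Nat.le_add_right _ _) (by have := Finset.mem_range.mp hk; omega)) (norm_nonneg _)
  have h2 : ‖D 0 - (1 / (q : ℂ)) * ∑ s ∈ Finset.range q, D s‖ ≤ q * E := by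
    have h3 : D 0 - (1 / (q : ℂ)) * ∑ s ∈ Finset.range q, D s =
        (1 / (q : ℂ)) * ∑ s ∈ Finset.range q, (D 0 - D s) := by
      rw [Finset.sum_sub_distrib]
      simp only [Finset.sum_const, Finset.card_range, nsmul_eq_mul]
      field_simp
    rw [h3, norm_mul]
    have h4 : ‖∑ s ∈ Finset.range q, (D 0 - D s)‖ ≤ (q : ℝ) * (q * E) := by
      calc ‖∑ s ∈ Finset.range q, (D 0 - D s)‖ ≤ ∑ s ∈ Finset.range q, ‖D 0 - D s‖ :=
            norm_sum_le _ _
        _ ≤ ∑ _s ∈ Finset.range q, (q : ℝ) * E := by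
            refine Finset.sum_le_sum fun s hs' => (hs s).trans ?_
            have : (s : ℝ) ≤ q := by exact_mod_cast (Finset.mem_range.mp hs').le
            exact mul_le_mul_of_nonneg_right this hE0
        _ = (q : ℝ) * (q * E) := by simp
    have h5 : ‖(1 / (q : ℂ))‖ = 1 / (q : ℝ) := by simp
    rw [h5]
    calc 1 / (q : ℝ) * ‖∑ s ∈ Finset.range q, (D 0 - D s)‖ ≤ 1 / (q : ℝ) * ((q : ℝ) * (q * E)) :=
          mul_le_mul_of_nonneg_left h4 (by positivity)
      _ = q * E := by field_simp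
  rw [hsum0]
  calc ‖D 0‖ = ‖(1 / (q : ℂ)) * ∑ s ∈ Finset.range q, D s +
        (D 0 - (1 / (q : ℂ)) * ∑ s ∈ Finset.range q, D s)‖ := by ring_nf
    _ ≤ ‖(1 / (q : ℂ)) * ∑ s ∈ Finset.range q, D s‖ +
        ‖D 0 - (1 / (q : ℂ)) * ∑ s ∈ Finset.range q, D s‖ := norm_add_le _ _
    _ ≤ C * ∑ t ∈ Finset.Ico b (b + n), ‖(1 / (q : ℂ)) * ∑ i ∈ Finset.range q, G (t + i)‖ + q * E :=
        add_le_add h1 h2
    _ = _ := by
        rw [hE]
        push_cast
        ring

end Pool.Agent.H50.KI
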