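import Pool.Agent.H50.KI.CL

/-!
# Part TN: from averages over the times to averages over the indices
-/

set_option autoImplicit false

open MeasureTheory Filter Topology
open scoped ENNReal

namespace Pool.Agent.H50.KI

theorem tn_s_tau {s : ℕ → Bool} {n t : ℕ} (h : n ≤ idx s t) (hn : 1 ≤ n) :
    1 ≤ tau s n ∧ s (tau s n) = true := by
  have h1 := cl_idx_tau h
  have h0 : 1 ≤ tau s n := by
    by_contra hc
    have h2 : tau s n = 0 := by omega
    rw [h2, cl_idx_zero] at h1
    omega
  refine ⟨h0, ?_⟩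
  obtain ⟨k, hk⟩ : ∃ k, tau s n = k + 1 := ⟨tau s n - 1, by omega⟩
  have h2 : idx s k < n := by
    by_contra hc
    rw [not_lt] at hc
    have := cl_tau_le hc
    omega
  rw [hk, cl_idx_succ] at h1
  rw [hk]
  by_contra hc
  rw [if_neg hc] at h1
  omega

theorem tn_tau_idx {s : ℕ → Bool} {t : ℕ} (ht : 1 ≤ t) (hs : s t = true) : tau s (idx s t) = t := by
  refine le_antisymm (cl_tau_le le_rfl) ?_
  by_contra hc
  rw [not_le] at hc
  obtain ⟨k, rfl⟩ : ∃ k, t = k + 1 := ⟨t - 1, by omega⟩
  have h1 : idx s (tau s (idx s (k + 1))) = idx s (k + 1) := cl_idx_tau le_rfl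
  have h2 := cl_idx_mono s (show tau s (idx s (k + 1)) ≤ k by omega)
  rw [h1, cl_idx_succ, if_pos hs] at h2
  omega

theorem tn_tau_lt {s : ℕ → Bool} {n n' t : ℕ} (h : n' ≤ idx s t) (hn : n ≤ n') : tau s n ≤ tau s n' :=
  cl_tau_le (by rw [cl_idx_tau h]; exact hn)

theorem tn_sum {s : ℕ → Bool} {t0 : ℕ} (hD : ∀ t, t0 ≤ t → t ≤ 2 * idx s t) {a : ℕ} (ha : 0 < a)
    (G W : ℕ → ℂ) (N : ℕ) :
    ∑ t ∈ Finset.range (tau s (a * N) + 1),
      (if s t = true then G t * (if a ∣ idx s t then W (idx s t / a) else 0) else 0) =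
    (if s 0 = true then G 0 * W 0 else 0) + ∑ n ∈ Finset.Icc 1 N, G (tau s (a * n)) * W n := by
  have hex : ∀ n, n ≤ idx s (2 * n + t0) := fun n => by
    have := hD (2 * n + t0) (by omega)
    omega
  have hinj : Set.InjOn (fun n => tau s (a * n)) (Finset.Icc 1 N : Finset ℕ) := by
    intro n _ n' _ he
    have e1 := cl_idx_tau (hex (a * n))
    have e2 := cl_idx_tau (hex (a * n'))
    simp only at he
    rw [he, e2] at e1
    exact (Nat.eq_of_mul_eq_mul_left ha e1).symm
  set f : ℕ → ℂ := fun t => if s t = true then G t * (if a ∣ idx s t then W (idx s t / a) else 0) else 0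
    with hf
  have hfn : ∀ n ∈ Finset.Icc 1 N, G (tau s (a * n)) * W n = f (tau s (a * n)) := by
    intro n hn
    rw [Finset.mem_Icc] at hn
    have h1 : 1 ≤ a * n := Nat.mul_pos ha (by omega)
    have h2 := tn_s_tau (hex (a * n)) h1
    rw [hf]
    simp only
    rw [if_pos h2.2, cl_idx_tau (hex (a * n)), if_pos (dvd_mul_right a n),
      Nat.mul_div_cancel_left _ ha]
  change ∑ t ∈ Finset.range (tau s (a * N) + 1), f t = _
  rw [Finset.sum_congr rfl hfn, ← Finset.sum_image (f := f) hinj, Finset.sum_range_succ']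
  have hf0 : f 0 = if s 0 = true then G 0 * W 0 else 0 := by
    rw [hf]
    simp only
    rw [cl_idx_zero, if_pos (dvd_zero a), Nat.zero_div]
  rw [hf0, add_comm]
  congr 1
  rw [Finset.sum_image (f := f) hinj]
  have himg : ∑ i ∈ Finset.range (tau s (a * N)), f (i + 1) =
      ∑ t ∈ (Finset.range (tau s (a * N))).image (fun i => i + 1), f t := by
    rw [Finset.sum_image (fun i _ j _ h => Nat.succ_injective h)]
  rw [himg, ← Finset.sum_image (f := f) hinj]
  symm
  refine Finset.sum_subset ?_ ?_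
  · intro t ht
    rw [Finset.mem_image] at ht
    obtain ⟨n, hn, rfl⟩ := ht
    rw [Finset.mem_Icc] at hn
    have h1 : 1 ≤ a * n := Nat.mul_pos ha (by omega)
    have h2 := tn_s_tau (hex (a * n)) h1
    rw [Finset.mem_image]
    refine ⟨tau s (a * n) - 1, ?_, by omega⟩
    rw [Finset.mem_range]
    have h3 := tn_tau_lt (hex (a * N)) (Nat.mul_le_mul_left a hn.2)
    omega
  · intro t ht hnt
    rw [Finset.mem_image] at ht
    obtain ⟨i, hi, rfl⟩ := ht
    rw [Finset.mem_range] at hi
    rw [hf]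
    simp only
    split_ifs with h1 h2
    · exfalso
      apply hnt
      obtain ⟨n, hn⟩ := h2
      rw [Finset.mem_image]
      have h3 := tn_tau_idx (show 1 ≤ i + 1 by omega) h1
      refine ⟨n, ?_, ?_⟩
      · rw [Finset.mem_Icc]
        constructor
        · rw [cl_idx_succ, if_pos h1] at hn
          by_contra hc
          have : n = 0 := by omega
          rw [this, mul_zero] at hn
          omega
        · have h4 := cl_idx_mono s (show i + 1 ≤ tau s (a * N) by omega)
          rw [cl_idx_tau (hex (a * N)), hn] at h4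
          exact Nat.le_of_mul_le_mul_left h4 ha
      · rw [← hn]; exact h3
    · simp
    · rfl

theorem partTN : StmTN := by
  intro s G W C a t0 ha hD hG hW h
  have hex : ∀ n, n ≤ idx s (2 * n + t0) := fun n => by
    have := hD (2 * n + t0) (by omega)
    omega
  have ha0 : 0 < a := ha
  set A0 : ℂ := if s 0 = true then G 0 * W 0 else 0 with hA0
  have hV : Tendsto (fun N : ℕ => tau s (a * N) + 1) atTop atTop := by
    refine tendsto_atTop_mono (fun N => ?_) tendsto_id
    simp only [id]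
    have h1 : N ≤ a * N := Nat.le_mul_of_pos_left N ha0
    have h2 := cl_idx_tau (hex (a * N))
    have h3 : ∀ t, idx s t ≤ t := by
      intro t
      unfold idx
      refine (Finset.card_filter_le _ _).trans ?_
      simp
    have h4 := h3 (tau s (a * N))
    omega
  have h1 := h.comp hV
  have hb : ∀ N : ℕ, 0 < N → ‖((tau s (a * N) + 1 : ℕ) : ℂ) / (N : ℂ)‖ ≤ 2 * a + t0 + 1 := by
    intro N hN
    have hNr : (1 : ℝ) ≤ N := by exact_mod_cast hN
    have h5 : tau s (a * N) ≤ 2 * (a * N) + t0 := cl_tau_le (hex (a * N))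
    rw [norm_div, Complex.norm_natCast, Complex.norm_natCast, div_le_iff₀ (by positivity)]
    have h6 : ((tau s (a * N) + 1 : ℕ) : ℝ) ≤ 2 * (a * N) + t0 + 1 := by exact_mod_cast Nat.add_le_add_right h5 1
    have h7 : (t0 : ℝ) * 1 ≤ t0 * N := mul_le_mul_of_nonneg_left hNr (Nat.cast_nonneg _)
    nlinarith
  have h2 : Tendsto (fun N : ℕ => ((tau s (a * N) + 1 : ℕ) : ℂ) / (N : ℂ) *
      ((1 / ((tau s (a * N) + 1 : ℕ) : ℂ)) * ∑ t ∈ Finset.range (tau s (a * N) + 1),
        (if s t = true then G t * (if a ∣ idx s t then W (idx s t / a) else 0) else 0))) atTop (𝓝 0) := by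
    rw [tendsto_zero_iff_norm_tendsto_zero]
    have h3 := (tendsto_zero_iff_norm_tendsto_zero.1 h1).const_mul (2 * (a : ℝ) + t0 + 1)
    rw [mul_zero] at h3
    refine squeeze_zero' (Eventually.of_forall fun N => norm_nonneg _) ?_ h3
    filter_upwards [eventually_gt_atTop 0] with N hN
    rw [norm_mul]
    exact mul_le_mul_of_nonneg_right (hb N hN) (norm_nonneg _)
  have h4 : Tendsto (fun N : ℕ => (1 / (N : ℂ)) * A0) atTop (𝓝 0) := by
    have := (tendsto_one_div_atTop_nhds_zero_nat (𝕜 := ℂ)).mul_const A0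
    rwa [zero_mul] at this
  have h5 := h2.sub h4
  rw [sub_zero] at h5
  refine h5.congr' ?_
  filter_upwards [eventually_gt_atTop 0] with N hN
  rw [tn_sum hD ha0 G W N]
  have h6 : (((tau s (a * N) + 1 : ℕ) : ℂ)) ≠ 0 := by
    rw [Nat.cast_ne_zero]; omega
  have h7 : (N : ℂ) ≠ 0 := by
    rw [Nat.cast_ne_zero]; omega
  field_simp
  ring

end Pool.Agent.H50.KI
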