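import Pool.Agent.H50.KI.AS
import Pool.Agent.H50.KI.SM
import Pool.Agent.H50.KI.MO
import Pool.Agent.H50.KI.BA
import Pool.Agent.H50.KI.SW
import Pool.Agent.H50.KI.FL
import Pool.Agent.H50.KI.TN
import Pool.Agent.H50.KI.IN
import Pool.Agent.H50.KI.MK
import Pool.Agent.H50.KI.FU
import Pool.Agent.H50.KI.ER
import Pool.Agent.H50.KI.CL
import Pool.Graph.R_seed8.R205.PC.Dens

/-!
# The aperiodic case
-/

set_option autoImplicit false

open MeasureTheory Filter Topology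
open scoped ENNReal

namespace Pool.Agent.H50.KI

universe u

open Pool.Agent.R205.PC (dd dd_meas dd_bound dd_approx ex fx)

/-- the multiple averages -/
noncomputable def avg {X : Type*} (T : X → X) {m : ℕ} (a : Fin m → ℕ) (f : Fin m → X → ℂ) (N : ℕ) (x : X) : ℂ :=
  (1 / (N : ℂ)) * ∑ n ∈ Finset.Icc 1 N, ∏ j, f j (T^[a j * n] x)

theorem core_ap {X : Type u} [MeasurableSpace X] [StandardBorelSpace X] (μ : Measure X) [IsProbabilityMeasure μ]
    (S : X ≃ᵐ X) (hS : MeasurePreserving S μ μ) (hap : ∀ᵐ y ∂μ, ∀ n : ℕ, 0 < n → S^[n] y ≠ y)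
    (ε : ℝ≥0∞) (hε : 0 < ε) :
    ∃ A : Set X, MeasurableSet A ∧ μ Aᶜ ≤ ε ∧
      (∀ᵐ y ∂μ, ∃ t0, ∀ t, t0 ≤ t → t ≤ 2 * idx (bl S A y) t) ∧
      ∀ (m : ℕ) (a : Fin m → ℕ), StrictMono a → (∀ j, 0 < a j) → ∀ f : Fin m → X → ℂ,
        (∀ j, Measurable (f j)) → (∃ C, ∀ j x, ‖f j x‖ ≤ C) →
        ∀ᵐ y ∂μ, Tendsto (fun N : ℕ => dA μ S A m (ex a) (fx f) y N) atTop (𝓝 0) := by
  classical
  obtain ⟨M, ξ, k0, hM, hξ, hMε, hae⟩ := partMK X μ S hS hap ε hε
  have hAS := partAS partSM partMO partBA partSW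
  have hex : ∀ {m : ℕ} (a : Fin m → ℕ) (j : ℕ) (h : j < m), ex a j = a ⟨j, h⟩ := fun a j h => by rw [ex, dif_pos h]
  have key : ∀ᵐ θ ∂PP, ∀ (m : ℕ) (a : Fin m → ℕ) (i : Fin m → ℕ) (B r : ℕ),
      StrictMono a → (∀ j, 0 < a j) → 1 ≤ B → r < m → ∀ᵐ y ∂μ, Est (bl S (Aset M ξ θ) y)
        (fun t => dd μ (ex i r) B (S^[t] y))
        (uu S (ex a) (fun j => dd μ (ex i j) B) r (bl S (Aset M ξ θ) y) y) ((B : ℝ) ^ (r + 1)) := by
    rw [ae_all_iff]; intro m
    rw [ae_all_iff]; intro a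
    rw [ae_all_iff]; intro i
    rw [ae_all_iff]; intro B
    rw [ae_all_iff]; intro r
    by_cases h : StrictMono a ∧ (∀ j, 0 < a j) ∧ 1 ≤ B ∧ r < m
    · obtain ⟨h1, h2, h3, h4⟩ := h
      have h5 := partFU hAS X μ S S.measurable M ξ k0 hM hξ hae (ex a) (fun j => dd μ (ex i j) B) (B : ℝ) r
        (fun j hj => by rw [hex a j (hj.trans h4), hex a r h4]; exact h1 hj)
        (by rw [hex a r h4]; exact h2 _) (by exact_mod_cast h3)
        (fun j => dd_meas _ _ _) (fun j z => dd_bound _ _ _ _)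
      filter_upwards [h5] with θ hθ _ _ _ _
      exact hθ
    · filter_upwards with θ h1 h2 h3 h4
      exact absurd ⟨h1, h2, h3, h4⟩ h
  obtain ⟨θ, hθ⟩ := key.exists
  have hA : MeasurableSet (Aset M ξ θ) := by
    have h1 : MeasurableSet {y | θ (ξ y) = true} :=
      ((measurable_of_countable θ).comp hξ) (measurableSet_singleton true)
    exact (hM.inter h1).compl
  have hdens : ∀ᵐ y ∂μ, ∃ t0, ∀ t, t0 ≤ t → t ≤ 2 * idx (bl S (Aset M ξ θ) y) t := by
    filter_upwards [hae] with y hy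
    obtain ⟨_, t0, ht0⟩ := hy
    refine ⟨t0, fun t ht => ?_⟩
    rw [fu_bl]
    exact al_idx_lower (ht0 t ht) θ
  refine ⟨Aset M ξ θ, hA, ?_, hdens, ?_⟩
  · refine (measure_mono ?_).trans hMε
    intro y hy
    by_contra hcon
    exact hy fun h => hcon h.1
  · intro m a ha ha0 f hf hfb
    obtain ⟨C0, hC0⟩ := hfb
    set B : ℕ := ⌈max C0 0⌉₊ + 1 with hB
    have hCB : max C0 0 + 1 ≤ (B : ℝ) := by
      rw [hB]; push_cast
      have := Nat.le_ceil (max C0 0)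
      linarith
    have hB1 : (1 : ℝ) ≤ B := by
      have : (0 : ℝ) ≤ max C0 0 := le_max_right _ _
      linarith
    have hfxm : ∀ j, Measurable (fx f j) := by
      intro j
      unfold fx
      split_ifs with h
      · exact hf _
      · exact measurable_const
    have hfxb : ∀ j z, ‖fx f j z‖ ≤ max C0 0 := by
      intro j z
      unfold fx
      split_ifs with h
      · exact (hC0 _ z).trans (le_max_left _ _)
      · rw [norm_zero]; exact le_max_right _ _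
    have hpos : ∀ j < m, 0 < ex a j := fun j hj => by rw [hex a j hj]; exact ha0 _
    refine partCL X μ S hS (Aset M ξ θ) hA hdens m (ex a) (fx f) B hpos hB1 hfxm
      (fun j z => (hfxb j z).trans (by linarith)) ?_
    intro δ hδ
    have happ : ∀ j : Fin m, ∃ i, ∫ z, ‖fx f j z - dd μ i B z‖ ∂μ ≤ δ := fun j =>
      dd_approx μ (fx f j) (hfxm j) (max C0 0) (le_max_right _ _) (hfxb j) B hCB δ hδ
    choose i hi using happ
    refine ⟨fun j => dd μ (ex i j) B, fun j => dd_meas _ _ _, fun j z => dd_bound _ _ _ _, ?_, ?_⟩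
    · intro j hj
      have e1 : ex i j = i ⟨j, hj⟩ := by rw [ex, dif_pos hj]
      change ∫ z, ‖fx f j z - dd μ (ex i j) B z‖ ∂μ ≤ δ
      rw [e1]
      exact hi ⟨j, hj⟩
    · exact partER partTN X μ S hS (Aset M ξ θ) hA hdens m (ex a) (fun j => dd μ (ex i j) B) B hpos hB1
        (fun j => dd_meas _ _ _) (fun j z => dd_bound _ _ _ _)
        (fun r hr => hθ m a i B r ha ha0 (by exact_mod_cast hB1) hr)

lemma exists_idx {s : ℕ → Bool} (h : ∃ t0, ∀ t, t0 ≤ t → t ≤ 2 * idx s t) (n : ℕ) : ∃ t, n ≤ idx s t := by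
  obtain ⟨t0, ht0⟩ := h
  refine ⟨max t0 (2 * n), ?_⟩
  have h1 := ht0 (max t0 (2 * n)) (le_max_left _ _)
  have h2 : 2 * n ≤ max t0 (2 * n) := le_max_right _ _
  omega

/-- the aperiodic case, with the limit -/
theorem core_ap' {X : Type u} [MeasurableSpace X] [StandardBorelSpace X] (μ : Measure X) [IsProbabilityMeasure μ]
    (S : X ≃ᵐ X) (hS : MeasurePreserving S μ μ) (hap : ∀ᵐ y ∂μ, ∀ n : ℕ, 0 < n → S^[n] y ≠ y)
    (ε : ℝ≥0∞) (hε : 0 < ε) :
    ∃ A : Set X, MeasurableSet A ∧ μ Aᶜ ≤ ε ∧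
      (∀ᵐ y ∂μ, ∀ n, (induced S A)^[n] y = S^[tau (bl S A y) n] y ∧ ∃ t, n ≤ idx (bl S A y) t) ∧
      ∀ (m : ℕ) (a : Fin m → ℕ), StrictMono a → (∀ j, 0 < a j) → ∀ f : Fin m → X → ℂ,
        (∀ j, Measurable (f j)) → (∃ C, ∀ j x, ‖f j x‖ ≤ C) →
        ∀ᵐ y ∂μ, Tendsto (fun N : ℕ => avg (induced S A) a f N y) atTop (𝓝 (∏ j, cA μ S A (f j) y)) := by
  obtain ⟨A, hA, hAε, hdens, hconv⟩ := core_ap μ S hS hap ε hε
  have hex : ∀ {m : ℕ} (a : Fin m → ℕ) (j : ℕ) (h : j < m), ex a j = a ⟨j, h⟩ := fun a j h => by rw [ex, dif_pos h]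
  have hfx : ∀ {m : ℕ} (f : Fin m → X → ℂ) (j : ℕ) (h : j < m), fx f j = f ⟨j, h⟩ := fun a j h => by rw [fx, dif_pos h]
  have hit : ∀ᵐ y ∂μ, ∀ n, (induced S A)^[n] y = S^[tau (bl S A y) n] y ∧ ∃ t, n ≤ idx (bl S A y) t := by
    filter_upwards [hdens] with y hy n
    exact ⟨partIN X S A y (exists_idx hy) n, exists_idx hy n⟩
  refine ⟨A, hA, hAε, hit, ?_⟩
  intro m a ha ha0 f hf hfb
  filter_upwards [hit, hconv m a ha ha0 f hf hfb] with y hy hlim
  have h1 : Tendsto (fun N : ℕ => dA μ S A m (ex a) (fx f) y N + ∏ j, cA μ S A (f j) y) atTop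
      (𝓝 (∏ j, cA μ S A (f j) y)) := by
    simpa using hlim.add_const (∏ j, cA μ S A (f j) y)
  refine h1.congr' ?_
  filter_upwards [eventually_ge_atTop 1] with N hN
  have hN0 : (N : ℂ) ≠ 0 := by
    have : N ≠ 0 := by omega
    exact_mod_cast this
  unfold dA avg
  rw [Finset.sum_sub_distrib, Finset.sum_const, Nat.card_Icc, mul_sub]
  have e1 : ∀ n, ∏ j ∈ Finset.range m, fx f j (S^[tau (bl S A y) (ex a j * n)] y) =
      ∏ j, f j ((induced S A)^[a j * n] y) := by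
    intro n
    rw [Finset.prod_range]
    refine Finset.prod_congr rfl fun j _ => ?_
    rw [hfx f j j.2, hex a j j.2, (hy _).1]
  have e2 : ∏ j ∈ Finset.range m, cA μ S A (fx f j) y = ∏ j, cA μ S A (f j) y := by
    rw [Finset.prod_range]
    refine Finset.prod_congr rfl fun j _ => ?_
    rw [hfx f j j.2]
  rw [e2, Finset.sum_congr rfl fun n _ => e1 n, nsmul_eq_mul]
  have e3 : ((N + 1 - 1 : ℕ) : ℂ) = N := by simp
  rw [e3, ← mul_assoc, one_div, inv_mul_cancel₀ hN0, one_mul]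
  ring

end Pool.Agent.H50.KI
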