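import Pool.Agent.H50.KI.Defs2

/-!
# Periodic orbits, ergodic maps
-/

set_option autoImplicit false

open MeasureTheory Filter Topology
open scoped ENNReal

namespace Pool.Agent.H50.KI

universe u

lemma per_avg (b : ℕ → ℂ) (p : ℕ) (hp : 0 < p) (hb : ∀ n, b (n + p) = b n) :
    ∃ L : ℂ, Tendsto (fun N : ℕ => (1 / (N : ℂ)) * ∑ n ∈ Finset.Icc 1 N, b n) atTop (𝓝 L) := by
  set w : ℂ := ∑ i ∈ Finset.range p, b (1 + i) with hw
  have hW : ∀ N, ∑ i ∈ Finset.range p, b (N + 1 + i) = w := by
    intro N
    induction N with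
    | zero => rw [hw]
    | succ N ih =>
      rw [← ih]
      have h1 : ∑ i ∈ Finset.range (p + 1), b (N + 1 + i) = ∑ i ∈ Finset.range p, b (N + 1 + i) + b (N + 1 + p) :=
        Finset.sum_range_succ _ _
      have h2 : ∑ i ∈ Finset.range (p + 1), b (N + 1 + i) = ∑ i ∈ Finset.range p, b (N + 1 + (i + 1)) + b (N + 1 + 0) :=
        Finset.sum_range_succ' _ _
      have h3 : ∑ i ∈ Finset.range p, b (N + 1 + (i + 1)) = ∑ i ∈ Finset.range p, b (N + 1 + 1 + i) :=
        Finset.sum_congr rfl fun i _ => by congr 1; omega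
      rw [h1, h3, hb, add_zero] at h2
      exact (add_right_cancel h2).symm
  set D : ℕ → ℂ := fun N => ∑ n ∈ Finset.range N, b (1 + n) - N * (w / p) with hD
  have hp0 : (p : ℂ) ≠ 0 := by exact_mod_cast hp.ne'
  have hper : Function.Periodic D p := by
    intro N
    simp only [hD]
    have h1 : ∑ n ∈ Finset.range (N + p), b (1 + n) = ∑ n ∈ Finset.range N, b (1 + n) +
        ∑ i ∈ Finset.range p, b (N + 1 + i) := by
      rw [Finset.sum_range_add]
      congr 1
      exact Finset.sum_congr rfl fun i _ => by congr 1; omega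
    rw [h1, hW]
    push_cast
    field_simp
    ring
  have hbd : ∀ N, ‖D N‖ ≤ ∑ i ∈ Finset.range p, ‖D i‖ := by
    intro N
    rw [← hper.map_mod_nat N]
    exact Finset.single_le_sum (f := fun i => ‖D i‖) (fun i _ => norm_nonneg _) (Finset.mem_range.2 (Nat.mod_lt _ hp))
  refine ⟨w / p, ?_⟩
  have h4 : Tendsto (fun N : ℕ => (1 / (N : ℂ)) * D N) atTop (𝓝 0) := by
    refine squeeze_zero_norm' (a := fun N : ℕ => (∑ i ∈ Finset.range p, ‖D i‖) / N) ?_
      (tendsto_const_div_atTop_nhds_zero_nat _)
    filter_upwards with N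
    rw [norm_mul, norm_div, norm_one, Complex.norm_natCast, one_div, ← div_eq_inv_mul]
    gcongr
    exact hbd N
  have h5 := h4.add_const (w / p)
  rw [zero_add] at h5
  refine h5.congr' ?_
  filter_upwards [eventually_ge_atTop 1] with N hN
  have hN0 : (N : ℂ) ≠ 0 := by
    have : N ≠ 0 := by omega
    exact_mod_cast this
  have h6 : ∑ n ∈ Finset.Icc 1 N, b n = ∑ n ∈ Finset.range N, b (1 + n) := by
    have e0 : Finset.Icc 1 N = Finset.Ico 1 (N + 1) := by ext; simp
    rw [e0, Finset.sum_Ico_eq_sum_range]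
    simp
  rw [h6]
  simp only [hD]
  field_simp
  ring

theorem partPER : StmPER.{u} := by
  intro X T x p hp hx m a f
  refine per_avg (fun n => ∏ j, f j (T^[a j * n] x)) p hp fun n => ?_
  refine Finset.prod_congr rfl fun j _ => ?_
  have h1 : T^[a j * p] x = x := by
    rw [mul_comm, Function.iterate_mul]
    exact Function.iterate_fixed hx _
  rw [mul_add, Function.iterate_add_apply, h1]

lemma erg_condExp {X : Type*} [MeasurableSpace X] (μ : Measure X) [IsProbabilityMeasure μ] (T : X → X)
    (hT : Ergodic T μ) (g : X → ℂ) :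
    ∀ᵐ x ∂μ, (μ[g | MeasurableSpace.invariants T]) x = ∫ y, g y ∂μ := by
  set h : X → ℂ := μ[g | MeasurableSpace.invariants T] with hh
  have hle : MeasurableSpace.invariants T ≤ (inferInstance : MeasurableSpace X) := MeasurableSpace.invariants_le T
  have hm : StronglyMeasurable[MeasurableSpace.invariants T] h := stronglyMeasurable_condExp
  have hcomp : h ∘ T = h := MeasurableSpace.comp_eq_of_measurable_invariants hm.measurable
  obtain ⟨c, hc⟩ := hT.toPreErgodic.ae_eq_const_of_ae_eq_comp (hm.mono hle).measurable hcomp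
  have hint : ∫ y, h y ∂μ = ∫ y, g y ∂μ := integral_condExp hle
  have hint2 : ∫ y, h y ∂μ = c := by
    rw [integral_congr_ae hc]
    simp
  filter_upwards [hc] with x hx
  rw [hx, ← hint, hint2]
  rfl

theorem partERG : StmERG.{u} := by
  intro X _ μ _ T hT A hA f _ _
  filter_upwards [erg_condExp μ T hT (A.indicator f), erg_condExp μ T hT (A.indicator fun _ => (1 : ℂ))] with x h1 h2
  unfold cA
  rw [h1, h2, integral_indicator hA, integral_indicator hA]
  simp only [integral_const, MeasurableSet.univ, measureReal_restrict_apply, Set.univ_inter, Complex.real_smul,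
    mul_one]
  rw [div_eq_inv_mul]
  rfl

end Pool.Agent.H50.KI
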