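import Pool.Agent.H50.KI.FN1
import Pool.Agent.H50.KI.PER

/-!
# Arbitrary invertible maps
-/

set_option autoImplicit false

open MeasureTheory Filter Topology
open scoped ENNReal

namespace Pool.Agent.H50.KI

universe u

/-- the set of the periodic points -/
def Per {X : Type*} (T : X → X) : Set X := {x | ∃ n : ℕ, 0 < n ∧ T^[n] x = x}

lemma meas_Per {X : Type*} [MeasurableSpace X] [StandardBorelSpace X] (T : X → X) (hT : Measurable T) :
    MeasurableSet (Per T) := by
  have hvm : Measurable (embeddingReal X) := (measurableEmbedding_embeddingReal X).measurable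
  have hvi : Function.Injective (embeddingReal X) := (measurableEmbedding_embeddingReal X).injective
  have h1 : Per T = ⋃ n : ℕ, {x | 0 < n ∧ embeddingReal X (T^[n] x) = embeddingReal X x} := by
    ext x
    simp only [Per, Set.mem_iUnion]
    constructor
    · rintro ⟨n, h1, h2⟩
      exact ⟨n, h1, by rw [h2]⟩
    · rintro ⟨n, h1, h2⟩
      exact ⟨n, h1, hvi h2⟩
  rw [h1]
  refine MeasurableSet.iUnion fun n => ?_
  by_cases hn : 0 < n
  · simp only [hn, true_and]
    exact measurableSet_eq_fun (hvm.comp (hT.iterate n)) hvm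
  · simp only [hn, false_and]
    exact MeasurableSet.empty

lemma Per_step {X : Type*} {T : X → X} (hT : Function.Injective T) (x : X) : T x ∈ Per T ↔ x ∈ Per T := by
  constructor
  · rintro ⟨n, hn, h⟩
    refine ⟨n, hn, hT ?_⟩
    rw [← Function.iterate_succ_apply' T n x, Function.iterate_succ_apply]
    exact h
  · rintro ⟨n, hn, h⟩
    refine ⟨n, hn, ?_⟩
    rw [← Function.iterate_succ_apply, Function.iterate_succ_apply', h]

lemma Per_iter {X : Type*} {T : X → X} (hT : Function.Injective T) (x : X) (t : ℕ) :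
    T^[t] x ∈ Per T ↔ x ∈ Per T := by
  induction t with
  | zero => rfl
  | succ t ih => rw [Function.iterate_succ_apply', Per_step hT, ih]

lemma induced_of_mem {X : Type*} (T : X → X) (A : Set X) (x : X) (h : T x ∈ A) : induced T A x = T x := by
  have h1 : ret T A x = 1 := by
    unfold ret
    apply le_antisymm
    · exact Nat.sInf_le ⟨le_rfl, h⟩
    · have hne : ({n | 1 ≤ n ∧ T^[n] x ∈ A} : Set ℕ).Nonempty := ⟨1, le_rfl, h⟩
      exact (Nat.sInf_mem hne).1
  unfold induced
  rw [h1]
  rfl

lemma induced_iter_of_forall {X : Type*} (T : X → X) (A : Set X) (x : X) (h : ∀ t, T^[t] x ∈ A) (n : ℕ) :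
    (induced T A)^[n] x = T^[n] x := by
  induction n with
  | zero => rfl
  | succ n ih =>
    rw [Function.iterate_succ_apply', ih, Function.iterate_succ_apply', induced_of_mem]
    rw [← Function.iterate_succ_apply' T n x]
    exact h _

theorem gen {X : Type u} [MeasurableSpace X] [StandardBorelSpace X] (μ : Measure X) [IsProbabilityMeasure μ]
    (T : X ≃ᵐ X) (hT : MeasurePreserving T μ μ) (ε : ℝ≥0∞) (hε : 0 < ε) :
    ∃ A : Set X, MeasurableSet A ∧ μ Aᶜ ≤ ε ∧
      ∀ (m : ℕ) (a : Fin m → ℕ), StrictMono a → (∀ j, 0 < a j) → ∀ f : Fin m → X → ℂ,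
        (∀ j, Measurable (f j)) → (∃ C, ∀ j x, ‖f j x‖ ≤ C) →
        (∀ᵐ x ∂μ, ∃ L, Tendsto (fun N : ℕ => avg (induced T A) a f N x) atTop (𝓝 L)) ∧
        (Ergodic T μ → (∀ᵐ x ∂μ, ∀ n : ℕ, 0 < n → T^[n] x ≠ x) → ∀ᵐ x ∂μ,
          Tendsto (fun N : ℕ => avg (induced T A) a f N x) atTop
            (𝓝 (∏ j, (((μ A).toReal : ℂ)⁻¹ * ∫ x in A, f j x ∂μ)))) := by
  classical
  have hP := meas_Per T T.measurable
  have hinj : Function.Injective (T : X → X) := T.injective
  by_cases h0 : μ (Per T) = 0
  · -- the aperiodic case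
    have hap : ∀ᵐ y ∂μ, ∀ n : ℕ, 0 < n → T^[n] y ≠ y := by
      rw [← compl_mem_ae_iff] at h0
      filter_upwards [h0] with y hy n hn h
      exact hy ⟨n, hn, h⟩
    obtain ⟨A, hA, hAε, _, hconv⟩ := core_ap' μ T hT hap ε hε
    refine ⟨A, hA, hAε, ?_⟩
    intro m a ha ha0 f hf hfb
    refine ⟨?_, ?_⟩
    · filter_upwards [hconv m a ha ha0 f hf hfb] with x hx
      exact ⟨_, hx⟩
    · intro herg _
      obtain ⟨C, hC⟩ := hfb
      have h1 : ∀ᵐ x ∂μ, ∀ j, cA μ T A (f j) x = ((μ A).toReal : ℂ)⁻¹ * ∫ y in A, f j y ∂μ := by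
        rw [ae_all_iff]
        intro j
        exact partERG X μ T herg A hA (f j) (hf j) ⟨C, hC j⟩
      filter_upwards [hconv m a ha ha0 f hf ⟨C, hC⟩, h1] with x hx hx1
      rw [Finset.prod_congr rfl fun j _ => hx1 j] at hx
      exact hx
  · -- there are periodic points
    have hvac : ¬ ∀ᵐ x ∂μ, ∀ n : ℕ, 0 < n → T^[n] x ≠ x := by
      intro h
      apply h0
      rw [measure_eq_zero_iff_ae_notMem]
      filter_upwards [h] with x hx hmem
      obtain ⟨n, hn, hn'⟩ := hmem
      exact hx n hn hn'
    have hper : ∀ (A : Set X), Per T ⊆ A → ∀ (m : ℕ) (a : Fin m → ℕ) (f : Fin m → X → ℂ), ∀ x ∈ Per T,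
        ∃ L, Tendsto (fun N : ℕ => avg (induced T A) a f N x) atTop (𝓝 L) := by
      intro A hA m a f x hx
      have h1 : ∀ t, T^[t] x ∈ A := fun t => hA ((Per_iter hinj x t).2 hx)
      obtain ⟨p, hp, hpx⟩ := hx
      obtain ⟨L, hL⟩ := partPER X T x p hp hpx m a f
      refine ⟨L, hL.congr fun N => ?_⟩
      unfold avg
      congr 1
      refine Finset.sum_congr rfl fun n _ => Finset.prod_congr rfl fun j _ => ?_
      rw [induced_iter_of_forall T A x h1]
    by_cases hQ : μ (Per T)ᶜ = 0
    · refine ⟨Set.univ, MeasurableSet.univ, by simp, ?_⟩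
      intro m a _ _ f _ _
      refine ⟨?_, fun _ h => absurd h hvac⟩
      have h1 : ∀ᵐ x ∂μ, x ∈ Per T := by
        rw [measure_eq_zero_iff_ae_notMem] at hQ
        filter_upwards [hQ] with x hx
        by_contra hcon
        exact hx hcon
      filter_upwards [h1] with x hx
      exact hper Set.univ (Set.subset_univ _) m a f x hx
    · -- conditioning on the aperiodic part
      set Q : Set X := (Per T)ᶜ with hQdef
      have hQm : MeasurableSet Q := hP.compl
      set ν : Measure X := (μ Q)⁻¹ • μ.restrict Q with hν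
      have hQfin : μ Q ≠ ∞ := measure_ne_top μ Q
      have hνp : IsProbabilityMeasure ν := ⟨by
        rw [hν, Measure.smul_apply, Measure.restrict_apply MeasurableSet.univ, Set.univ_inter, smul_eq_mul,
          ENNReal.inv_mul_cancel hQ hQfin]⟩
      have hpre : (T : X → X) ⁻¹' Q = Q := by
        ext x
        rw [Set.mem_preimage, hQdef, Set.mem_compl_iff, Set.mem_compl_iff, Per_step hinj]
      have hTQ : MeasurePreserving T (μ.restrict Q) (μ.restrict Q) := by
        have := hT.restrict_preimage hQm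
        rwa [hpre] at this
      have hTν : MeasurePreserving T ν ν := by
        refine ⟨T.measurable, ?_⟩
        rw [hν, Measure.map_smul, hTQ.map_eq]
      have hc : (μ Q)⁻¹ ≠ 0 := ENNReal.inv_ne_zero.2 hQfin
      have hae : ∀ p : X → Prop, (∀ᵐ x ∂ν, p x) ↔ ∀ᵐ x ∂(μ.restrict Q), p x := by
        intro p
        rw [hν, Measure.ae_ennreal_smul_measure_iff hc]
      have hap : ∀ᵐ y ∂ν, ∀ n : ℕ, 0 < n → T^[n] y ≠ y := by
        rw [hae, ae_restrict_iff' hQm]
        filter_upwards with y hy n hn h
        exact hy ⟨n, hn, h⟩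
      obtain ⟨A', hA', hAε, hit, hconv⟩ := core_ap' ν T hTν hap ε hε
      refine ⟨A' ∪ Per T, hA'.union hP, ?_, ?_⟩
      · have h1 : (A' ∪ Per T)ᶜ = A'ᶜ ∩ Q := by rw [Set.compl_union]
        rw [h1, ← Measure.restrict_apply hA'.compl]
        have h2 : μ.restrict Q A'ᶜ = μ Q * ν A'ᶜ := by
          rw [hν, Measure.smul_apply, smul_eq_mul, ← mul_assoc, ENNReal.mul_inv_cancel hQ hQfin, one_mul]
        rw [h2]
        calc μ Q * ν A'ᶜ ≤ 1 * ε := mul_le_mul' prob_le_one hAε
          _ = ε := one_mul _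
      · intro m a ha ha0 f hf hfb
        refine ⟨?_, fun _ h => absurd h hvac⟩
        have h1 := (hae _).1 (hconv m a ha ha0 f hf hfb)
        have h2 := (hae _).1 hit
        rw [ae_restrict_iff' hQm] at h1 h2
        filter_upwards [h1, h2] with x hx1 hx2
        by_cases hx : x ∈ Per T
        · exact hper _ Set.subset_union_right m a f x hx
        · have hxt : ∀ t, T^[t] x ∉ Per T := fun t h => hx ((Per_iter hinj x t).1 h)
          have hbl : bl T (A' ∪ Per T) x = bl T A' x := by
            funext t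
            unfold bl
            congr 1
            apply propext
            constructor
            · rintro (h | h)
              · exact h
              · exact absurd h (hxt t)
            · exact fun h => Or.inl h
          refine ⟨_, (hx1 hx).congr fun N => ?_⟩
          unfold avg
          congr 1
          refine Finset.sum_congr rfl fun n _ => Finset.prod_congr rfl fun j _ => ?_
          rw [partIN X T (A' ∪ Per T) x (fun n => by rw [hbl]; exact (hx2 hx n).2), hbl, (hx2 hx _).1]

end Pool.Agent.H50.KI
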