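import Pool.Agent.H50.KI.Defs2

/-!
# The induced map preserves the restricted measure
-/

set_option autoImplicit false

open MeasureTheory Filter Topology
open scoped ENNReal

namespace Pool.Agent.H50.KI

universe u

/-- points of `A` whose first return under `S` is at the time `n` -/
def mpi_R {X : Type u} (S : X → X) (A : Set X) (n : ℕ) : Set X :=
  {x | x ∈ A ∧ S^[n] x ∈ A ∧ ∀ j, 1 ≤ j → j < n → S^[j] x ∉ A}

theorem mpi_R_meas {X : Type u} [MeasurableSpace X] (S : X → X) (hS : Measurable S) (A : Set X)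
    (hA : MeasurableSet A) (n : ℕ) : MeasurableSet (mpi_R S A n) := by
  have h : mpi_R S A n = A ∩ (S^[n] ⁻¹' A ∩ ⋂ j : ℕ, ⋂ _ : 1 ≤ j, ⋂ _ : j < n, (S^[j] ⁻¹' A)ᶜ) := by
    ext x
    simp only [mpi_R, Set.mem_ofPred_eq, Set.mem_inter_iff, Set.mem_preimage, Set.mem_iInter, Set.mem_compl_iff]
  rw [h]
  refine hA.inter ((hS.iterate n hA).inter ?_)
  refine MeasurableSet.iInter fun j => MeasurableSet.iInter fun _ => MeasurableSet.iInter fun _ => ?_
  exact (hS.iterate j hA).compl

theorem mpi_R_disj {X : Type u} (S : X → X) (A : Set X) (n m : ℕ) (hn : 1 ≤ n) (hm : 1 ≤ m) (hnm : n ≠ m) :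
    Disjoint (mpi_R S A n) (mpi_R S A m) := by
  rw [Set.disjoint_left]
  intro x h1 h2
  rcases lt_or_gt_of_ne hnm with h | h
  · exact h2.2.2 n hn h h1.2.1
  · exact h1.2.2 m hm h h2.2.1

theorem mpi_symm_iter {X : Type u} [MeasurableSpace X] (T : X ≃ᵐ X) (a b : ℕ) (h : b ≤ a) (x : X) :
    (T.symm)^[b] ((T : X → X)^[a] x) = (T : X → X)^[a - b] x := by
  induction b with
  | zero => simp
  | succ b ih =>
    rw [Function.iterate_succ_apply', ih (by omega)]
    have h1 : a - b = (a - (b + 1)) + 1 := by omega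
    rw [h1, Function.iterate_succ_apply']
    exact T.symm_apply_apply _

theorem mpi_R_pre {X : Type u} [MeasurableSpace X] (T : X ≃ᵐ X) (A : Set X) (n : ℕ) :
    mpi_R T A n = (T : X → X)^[n] ⁻¹' (mpi_R T.symm A n) := by
  ext x
  simp only [mpi_R, Set.mem_ofPred_eq, Set.mem_preimage]
  rw [mpi_symm_iter T n n le_rfl x, Nat.sub_self]
  constructor
  · rintro ⟨h1, h2, h3⟩
    refine ⟨h2, h1, fun j hj hjn => ?_⟩
    rw [mpi_symm_iter T n j hjn.le x]
    exact h3 (n - j) (by omega) (by omega)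
  · rintro ⟨h2, h1, h3⟩
    refine ⟨h1, h2, fun j hj hjn => ?_⟩
    have := h3 (n - j) (by omega) (by omega)
    rw [mpi_symm_iter T n (n - j) (by omega) x] at this
    rwa [show n - (n - j) = j by omega] at this

/-- Poincaré recurrence: almost every point of `A` has a first return -/
theorem mpi_rec {X : Type u} [MeasurableSpace X] (μ : Measure X) [IsProbabilityMeasure μ] (S : X → X)
    (hS : MeasurePreserving S μ μ) (A : Set X) (hA : MeasurableSet A) :
    ∀ᵐ x ∂μ, x ∈ A → ∃ n, 1 ≤ n ∧ x ∈ mpi_R S A n := by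
  have h := hS.conservative.ae_mem_imp_frequently_image_mem hA.nullMeasurableSet
  filter_upwards [h] with x hx hxA
  have h1 := hx hxA
  rw [frequently_atTop] at h1
  obtain ⟨n, hn, hnA⟩ := h1 1
  classical
  have hex : ∃ n, 1 ≤ n ∧ S^[n] x ∈ A := ⟨n, hn, hnA⟩
  refine ⟨Nat.find hex, (Nat.find_spec hex).1, hxA, (Nat.find_spec hex).2, fun j hj hjn hjA => ?_⟩
  exact Nat.find_min hex hjn ⟨hj, hjA⟩

theorem mpi_ret {X : Type u} (S : X → X) (A : Set X) (n : ℕ) (hn : 1 ≤ n) (x : X) (hx : x ∈ mpi_R S A n) :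
    ret S A x = n := by
  unfold ret
  apply le_antisymm
  · exact Nat.sInf_le ⟨hn, hx.2.1⟩
  · have hne : {n | 1 ≤ n ∧ S^[n] x ∈ A}.Nonempty := ⟨n, hn, hx.2.1⟩
    have h1 := Nat.sInf_mem hne
    by_contra hlt
    push Not at hlt
    exact hx.2.2 _ h1.1 hlt h1.2

theorem mpi_ret_meas {X : Type u} [MeasurableSpace X] (S : X → X) (hS : Measurable S) (A : Set X)
    (hA : MeasurableSet A) : Measurable (ret S A) := by
  -- the set of no return
  have h0 : MeasurableSet {x | ∀ n, 1 ≤ n → S^[n] x ∉ A} := by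
    have : {x | ∀ n, 1 ≤ n → S^[n] x ∉ A} = ⋂ n : ℕ, ⋂ _ : 1 ≤ n, (S^[n] ⁻¹' A)ᶜ := by
      ext x; simp
    rw [this]
    exact MeasurableSet.iInter fun n => MeasurableSet.iInter fun _ => (hS.iterate n hA).compl
  have h1 : ∀ n, MeasurableSet {x | S^[n] x ∈ A ∧ ∀ j, 1 ≤ j → j < n → S^[j] x ∉ A} := by
    intro n
    have : {x | S^[n] x ∈ A ∧ ∀ j, 1 ≤ j → j < n → S^[j] x ∉ A}
        = (S^[n] ⁻¹' A ∩ ⋂ j : ℕ, ⋂ _ : 1 ≤ j, ⋂ _ : j < n, (S^[j] ⁻¹' A)ᶜ) := by
      ext x; simp
    rw [this]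
    refine ((hS.iterate n hA).inter ?_)
    exact MeasurableSet.iInter fun j => MeasurableSet.iInter fun _ => MeasurableSet.iInter fun _ =>
      (hS.iterate j hA).compl
  refine measurable_to_countable' fun n => ?_
  rcases Nat.eq_zero_or_pos n with rfl | hn
  · have : ret S A ⁻¹' {0} = {x | ∀ n, 1 ≤ n → S^[n] x ∉ A} := by
      ext x
      simp only [Set.mem_preimage, Set.mem_singleton_iff, Set.mem_ofPred_eq, ret, Nat.sInf_eq_zero]
      constructor
      · rintro (h | h)
        · exact absurd h.1 (by norm_num)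
        · intro n hn hnA
          have : n ∈ {n | 1 ≤ n ∧ S^[n] x ∈ A} := ⟨hn, hnA⟩
          rw [h] at this
          exact this
      · intro h
        right
        ext n
        simp only [Set.mem_ofPred_eq, Set.mem_empty_iff_false, iff_false, not_and]
        exact fun hn => h n hn
    rw [this]
    exact h0
  · have : ret S A ⁻¹' {n} = {x | S^[n] x ∈ A ∧ ∀ j, 1 ≤ j → j < n → S^[j] x ∉ A} := by
      ext x
      simp only [Set.mem_preimage, Set.mem_singleton_iff, Set.mem_ofPred_eq]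
      constructor
      · intro h
        have hne : {n | 1 ≤ n ∧ S^[n] x ∈ A}.Nonempty := by
          by_contra hemp
          rw [Set.not_nonempty_iff_eq_empty] at hemp
          rw [ret, hemp, Nat.sInf_empty] at h
          omega
        have h1 := Nat.sInf_mem hne
        rw [show sInf {n | 1 ≤ n ∧ S^[n] x ∈ A} = n from h] at h1
        refine ⟨h1.2, fun j hj hjn hjA => ?_⟩
        have h2 : sInf {n | 1 ≤ n ∧ S^[n] x ∈ A} ≤ j := Nat.sInf_le ⟨hj, hjA⟩
        rw [show sInf {n | 1 ≤ n ∧ S^[n] x ∈ A} = n from h] at h2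
        omega
      · rintro ⟨h2, h3⟩
        unfold ret
        apply le_antisymm
        · exact Nat.sInf_le ⟨hn, h2⟩
        · have hne : {n | 1 ≤ n ∧ S^[n] x ∈ A}.Nonempty := ⟨n, hn, h2⟩
          have h1 := Nat.sInf_mem hne
          by_contra hlt
          push Not at hlt
          exact h3 _ h1.1 hlt h1.2
    rw [this]
    exact h1 n

theorem mpi_ind_meas {X : Type u} [MeasurableSpace X] (S : X → X) (hS : Measurable S) (A : Set X)
    (hA : MeasurableSet A) : Measurable (induced S A) := by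
  have hr := mpi_ret_meas S hS A hA
  intro E hE
  have : induced S A ⁻¹' E = ⋃ n : ℕ, (ret S A ⁻¹' {n}) ∩ (S^[n] ⁻¹' E) := by
    ext x
    simp only [Set.mem_preimage, Set.mem_iUnion, Set.mem_inter_iff, Set.mem_singleton_iff, induced]
    constructor
    · intro h
      exact ⟨ret S A x, rfl, h⟩
    · rintro ⟨n, hn, h⟩
      rw [hn]
      exact h
  rw [this]
  exact MeasurableSet.iUnion fun n => (hr (measurableSet_singleton n)).inter (hS.iterate n hE)

theorem mpi_sum {X : Type u} [MeasurableSpace X] (μ : Measure X) [IsProbabilityMeasure μ] (S : X → X)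
    (hS : MeasurePreserving S μ μ) (A : Set X) (hA : MeasurableSet A) (G : Set X) (hG : MeasurableSet G) :
    μ (A ∩ G) = ∑' n : ℕ, μ (mpi_R S A (n + 1) ∩ G) := by
  rw [← measure_iUnion]
  · apply measure_congr
    have h := mpi_rec μ S hS A hA
    filter_upwards [h] with x hx
    apply propext
    change (x ∈ A ∩ G) ↔ (x ∈ ⋃ i : ℕ, mpi_R S A (i + 1) ∩ G)
    simp only [Set.mem_inter_iff, Set.mem_iUnion]
    constructor
    · rintro ⟨h1, h2⟩
      obtain ⟨n, hn, hn2⟩ := hx h1
      exact ⟨n - 1, by rwa [Nat.sub_add_cancel hn], h2⟩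
    · rintro ⟨n, hn, h2⟩
      exact ⟨hn.1, h2⟩
  · intro i j hij
    exact (mpi_R_disj S A (i + 1) (j + 1) (by omega) (by omega) (by omega)).mono
      Set.inter_subset_left Set.inter_subset_left
  · intro n
    exact (mpi_R_meas S hS.measurable A hA (n + 1)).inter hG

theorem partMPI : StmMPI.{u} := by
  intro X _ μ _ T hT A hA
  have hmeas := mpi_ind_meas (T : X → X) T.measurable A hA
  have hTs : MeasurePreserving T.symm μ μ := hT.symm T
  refine ⟨hmeas, ?_⟩
  ext E hE
  rw [Measure.map_apply hmeas hE, Measure.restrict_apply (hmeas hE), Measure.restrict_apply hE,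
    Set.inter_comm _ A, Set.inter_comm E A]
  rw [mpi_sum μ T hT A hA _ (hmeas hE), mpi_sum μ T.symm hTs A hA E hE]
  congr 1
  funext n
  have h1 : mpi_R T A (n + 1) ∩ (induced T A) ⁻¹' E =
      (T : X → X)^[n + 1] ⁻¹' (mpi_R T.symm A (n + 1) ∩ E) := by
    rw [Set.preimage_inter, ← mpi_R_pre]
    ext x
    simp only [Set.mem_inter_iff, Set.mem_preimage, and_congr_right_iff]
    intro hx
    rw [induced, mpi_ret (T : X → X) A (n + 1) (by omega) x hx]
  rw [h1]
  exact (hT.iterate (n + 1)).measure_preimage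
    ((mpi_R_meas T.symm T.symm.measurable A hA (n + 1)).inter hE).nullMeasurableSet

end Pool.Agent.H50.KI
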